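import Mathlib

/-!
# MP_1502ea_ag: definitions and elementary facts

`pmap F` is the self-map of `R^3` given by three polynomials, `iterP F n` its `n`-th iterate as a
triple of polynomials, `cmp f F n` the polynomial `f ∘ F^n`.
-/

set_option autoImplicit false

namespace Pool.Agent.W_1502ea_h54

open MvPolynomial

variable {R S : Type*} [CommRing R] [CommRing S]

/-- the map `R^3 → R^3` given by three polynomials -/
noncomputable def pmap (F : Fin 3 → MvPolynomial (Fin 3) R) (v : Fin 3 → R) : Fin 3 → R :=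
  fun i => eval v (F i)

/-- the iterates of `pmap F` as polynomials: `(F^(n+1))_i = F_i (F^n)` -/
noncomputable def iterP (F : Fin 3 → MvPolynomial (Fin 3) R) :
    ℕ → Fin 3 → MvPolynomial (Fin 3) R
  | 0 => X
  | n + 1 => fun i => bind₁ (iterP F n) (F i)

/-- the polynomial `f ∘ F^n` -/
noncomputable def cmp (f : MvPolynomial (Fin 3) R) (F : Fin 3 → MvPolynomial (Fin 3) R) (n : ℕ) :
    MvPolynomial (Fin 3) R :=
  bind₁ (iterP F n) f

/-- the return set of the point `v` to the curve `f = 0` -/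
def ret (F : Fin 3 → MvPolynomial (Fin 3) R) (f : MvPolynomial (Fin 3) R) (v : Fin 3 → R) :
    Set ℕ :=
  {n | eval ((pmap F)^[n] v) f = 0}

/-- the point of the projective plane with homogeneous coordinates `v` is preperiodic -/
def PrePer (F : Fin 3 → MvPolynomial (Fin 3) R) (v : Fin 3 → R) : Prop :=
  ∃ m n : ℕ, m < n ∧ ∃ c : R, c ≠ 0 ∧ (pmap F)^[n] v = c • (pmap F)^[m] v

/-- finite union of arithmetic progressions (difference `0` allowed) -/
def IsAPU (A : Set ℕ) : Prop :=
  ∃ T : Finset (ℕ × ℕ), A = ⋃ p ∈ T, {n : ℕ | ∃ k : ℕ, n = p.1 + k * p.2}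

/-- a set of natural numbers whose gaps at least double: `n < n'` in `A` implies `2n ≤ n' + C` -/
def IsGap (A : Set ℕ) : Prop :=
  ∃ C : ℕ, ∀ n ∈ A, ∀ n' ∈ A, n < n' → 2 * n ≤ n' + C

lemma eval_iterP (F : Fin 3 → MvPolynomial (Fin 3) R) (n : ℕ) (v : Fin 3 → R) (i : Fin 3) :
    eval v (iterP F n i) = (pmap F)^[n] v i := by
  induction n generalizing i with
  | zero => simp [iterP]
  | succ n ih =>
    rw [Function.iterate_succ_apply']
    show eval v (bind₁ (iterP F n) (F i)) = eval ((pmap F)^[n] v) (F i)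
    have h1 : eval v (bind₁ (iterP F n) (F i)) = eval (fun j => eval v (iterP F n j)) (F i) :=
      eval₂Hom_bind₁ (RingHom.id R) v (iterP F n) (F i)
    rw [h1]
    have h2 : (fun j => eval v (iterP F n j)) = (pmap F)^[n] v := funext ih
    rw [h2]

lemma eval_cmp (f : MvPolynomial (Fin 3) R) (F : Fin 3 → MvPolynomial (Fin 3) R) (n : ℕ)
    (v : Fin 3 → R) : eval v (cmp f F n) = eval ((pmap F)^[n] v) f := by
  have h1 : eval v (bind₁ (iterP F n) f) = eval (fun j => eval v (iterP F n j)) f :=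
    eval₂Hom_bind₁ (RingHom.id R) v (iterP F n) f
  rw [cmp, h1]
  have h2 : (fun j => eval v (iterP F n j)) = (pmap F)^[n] v := funext (eval_iterP F n v)
  rw [h2]

lemma iterP_homog {F : Fin 3 → MvPolynomial (Fin 3) R} {d : ℕ} (hF : ∀ i, (F i).IsHomogeneous d)
    (n : ℕ) (i : Fin 3) : (iterP F n i).IsHomogeneous (d ^ n) := by
  induction n generalizing i with
  | zero => rw [pow_zero]; exact isHomogeneous_X R i
  | succ n ih =>
    rw [pow_succ]
    exact (hF i).aeval (iterP F n) ih

lemma cmp_homog {F : Fin 3 → MvPolynomial (Fin 3) R} {d : ℕ} (hF : ∀ i, (F i).IsHomogeneous d)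
    {f : MvPolynomial (Fin 3) R} {e : ℕ} (hf : f.IsHomogeneous e) (n : ℕ) :
    (cmp f F n).IsHomogeneous (e * d ^ n) := by
  rw [mul_comm]
  exact hf.aeval (iterP F n) (iterP_homog hF n)

lemma Base_eval₂_smul {σ : Type*} {f : MvPolynomial σ R} {e : ℕ} (hf : f.IsHomogeneous e)
    (g : R →+* S) (c : S) (v : σ → S) :
    eval₂ g (fun i => c * v i) f = c ^ e * eval₂ g v f := by
  rw [eval₂_eq, eval₂_eq, Finset.mul_sum]
  apply Finset.sum_congr rfl
  intro m hm
  have h1 : ∏ i ∈ m.support, (c * v i) ^ m i = c ^ e * ∏ i ∈ m.support, v i ^ m i := by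
    simp only [mul_pow]
    rw [Finset.prod_mul_distrib, Finset.prod_pow_eq_pow_sum]
    congr 2
    have h2 : Finsupp.weight 1 m = e := hf (mem_support_iff.mp hm)
    rw [← h2, Finsupp.weight_apply, Finsupp.sum]
    simp
  rw [h1]
  ring

lemma eval_smul_homog {σ : Type*} {f : MvPolynomial σ R} {e : ℕ} (hf : f.IsHomogeneous e) (c : R)
    (v : σ → R) : eval (c • v) f = c ^ e * eval v f :=
  Base_eval₂_smul hf (RingHom.id R) c v

lemma pmap_smul {F : Fin 3 → MvPolynomial (Fin 3) R} {d : ℕ} (hF : ∀ i, (F i).IsHomogeneous d)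
    (c : R) (v : Fin 3 → R) : pmap F (c • v) = c ^ d • pmap F v := by
  funext i
  exact eval_smul_homog (hF i) c v

lemma iter_smul {F : Fin 3 → MvPolynomial (Fin 3) R} {d : ℕ} (hF : ∀ i, (F i).IsHomogeneous d)
    (n : ℕ) (c : R) (v : Fin 3 → R) : (pmap F)^[n] (c • v) = c ^ (d ^ n) • (pmap F)^[n] v := by
  induction n with
  | zero => simp
  | succ n ih =>
    rw [Function.iterate_succ_apply', Function.iterate_succ_apply', ih, pmap_smul hF, ← pow_mul,
      pow_succ]

/-- scaling the three polynomials by a constant does not change the return set -/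
lemma iter_C_mul {F : Fin 3 → MvPolynomial (Fin 3) R} {d : ℕ} (hF : ∀ i, (F i).IsHomogeneous d)
    (c : R) (n : ℕ) : ∃ k : ℕ, ∀ v : Fin 3 → R,
      (pmap fun i => C c * F i)^[n] v = c ^ k • (pmap F)^[n] v := by
  induction n with
  | zero => exact ⟨0, fun v => by simp⟩
  | succ n ih =>
    obtain ⟨k, hk⟩ := ih
    refine ⟨1 + k * d, fun v => ?_⟩
    have h1 : ∀ w, (pmap fun i => C c * F i) w = c • pmap F w := by
      intro w
      funext i
      show eval w (C c * F i) = c * eval w (F i)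
      rw [map_mul, eval_C]
    rw [Function.iterate_succ_apply', Function.iterate_succ_apply', hk, h1, pmap_smul hF,
      smul_smul, ← pow_mul, pow_add, pow_one]

lemma Base_bind₁_C_mul {σ τ : Type*} {f : MvPolynomial σ R} {e : ℕ} (hf : f.IsHomogeneous e)
    (a : R) (P : σ → MvPolynomial τ R) :
    bind₁ (fun i => C a * P i) f = C (a ^ e) * bind₁ P f := by
  rw [C_pow]
  exact Base_eval₂_smul hf (algebraMap R (MvPolynomial τ R)) (C a) P

lemma Base_iterP_C_mul {F : Fin 3 → MvPolynomial (Fin 3) R} {d : ℕ}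
    (hF : ∀ i, (F i).IsHomogeneous d) (c : R) (n : ℕ) :
    ∃ k : ℕ, ∀ i, iterP (fun i => C c * F i) n i = C (c ^ k) * iterP F n i := by
  induction n with
  | zero => exact ⟨0, fun i => by simp [iterP]⟩
  | succ n ih =>
    obtain ⟨k, hk⟩ := ih
    refine ⟨1 + k * d, fun i => ?_⟩
    show bind₁ (iterP (fun i => C c * F i) n) (C c * F i) = C (c ^ (1 + k * d)) *
      bind₁ (iterP F n) (F i)
    have h1 : iterP (fun i => C c * F i) n = fun i => C (c ^ k) * iterP F n i := funext hk
    rw [h1, map_mul, bind₁_C_right, Base_bind₁_C_mul (hF i), ← mul_assoc, ← C_mul, ← pow_mul,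
      pow_add, pow_one]

lemma cmp_C_mul {F : Fin 3 → MvPolynomial (Fin 3) R} {d : ℕ} (hF : ∀ i, (F i).IsHomogeneous d)
    {f : MvPolynomial (Fin 3) R} {e : ℕ} (hf : f.IsHomogeneous e)
    (c c' : R) (n : ℕ) : ∃ k : ℕ, cmp (C c' * f) (fun i => C c * F i) n =
      C (c' * c ^ k) * cmp f F n := by
  obtain ⟨k, hk⟩ := Base_iterP_C_mul hF c n
  refine ⟨k * e, ?_⟩
  have h1 : iterP (fun i => C c * F i) n = fun i => C (c ^ k) * iterP F n i := funext hk
  rw [cmp, cmp, h1, map_mul, bind₁_C_right, Base_bind₁_C_mul hf, ← mul_assoc, ← C_mul, ← pow_mul]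

/-- compatibility with ring homomorphisms -/
lemma map_pmap_iter (φ : R →+* S) (F : Fin 3 → MvPolynomial (Fin 3) R) (n : ℕ) (v : Fin 3 → R) :
    (pmap fun i => map φ (F i))^[n] (fun i => φ (v i)) = fun i => φ ((pmap F)^[n] v i) := by
  induction n with
  | zero => rfl
  | succ n ih =>
    rw [Function.iterate_succ_apply', ih]
    funext i
    rw [Function.iterate_succ_apply']
    show eval (fun i => φ ((pmap F)^[n] v i)) (map φ (F i)) = φ (eval ((pmap F)^[n] v) (F i))
    rw [eval_map, eval₂_comp]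
    rfl

lemma Base_map_iterP (φ : R →+* S) (F : Fin 3 → MvPolynomial (Fin 3) R) (n : ℕ) (i : Fin 3) :
    iterP (fun i => map φ (F i)) n i = map φ (iterP F n i) := by
  induction n generalizing i with
  | zero => simp [iterP]
  | succ n ih =>
    show bind₁ (iterP (fun i => map φ (F i)) n) (map φ (F i)) = map φ (bind₁ (iterP F n) (F i))
    rw [map_bind₁]
    have h1 : iterP (fun i => map φ (F i)) n = fun i => map φ (iterP F n i) := funext ih
    rw [h1]

lemma map_cmp (φ : R →+* S) (f : MvPolynomial (Fin 3) R) (F : Fin 3 → MvPolynomial (Fin 3) R)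
    (n : ℕ) : cmp (map φ f) (fun i => map φ (F i)) n = map φ (cmp f F n) := by
  rw [cmp, cmp, map_bind₁]
  have h1 : iterP (fun i => map φ (F i)) n = fun i => map φ (iterP F n i) :=
    funext (Base_map_iterP φ F n)
  rw [h1]

lemma ret_map (φ : R →+* S) (hφ : Function.Injective φ) (f : MvPolynomial (Fin 3) R)
    (F : Fin 3 → MvPolynomial (Fin 3) R) (v : Fin 3 → R) :
    ret (fun i => map φ (F i)) (map φ f) (fun i => φ (v i)) = ret F f v := by
  ext n
  show eval ((pmap fun i => map φ (F i))^[n] (fun i => φ (v i))) (map φ f) = 0 ↔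
    eval ((pmap F)^[n] v) f = 0
  rw [map_pmap_iter, eval_map]
  have h1 : eval₂ φ (fun i => φ ((pmap F)^[n] v i)) f = φ (eval ((pmap F)^[n] v) f) := by
    rw [eval₂_comp]
    rfl
  rw [h1]
  exact map_eq_zero_iff φ hφ

end Pool.Agent.W_1502ea_h54
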