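import Mathlib
import Pool.Agent.W_1502ea_h54.Base

/-!
# Polynomials integral at a nonarchimedean absolute value: closure properties
-/

set_option autoImplicit false

namespace Pool.Agent.W_1502ea_h54

open MvPolynomial

/-- all coefficients have absolute value at most `1` -/
def IntV {K : Type*} [Field K] (v : AbsoluteValue K ℝ) {σ : Type*} (p : MvPolynomial σ K) : Prop :=
  ∀ m, v (coeff m p) ≤ 1

section closure

variable {K : Type*} [Field K] {v : AbsoluteValue K ℝ} {σ τ : Type*}

/-- a finite sum is at most the common bound of its terms -/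
lemma IntV_sum_le (hv : IsNonarchimedean v) {ι : Type*} (s : Finset ι) {g : ι → K} {B : ℝ}
    (hB : 0 ≤ B) (h : ∀ i ∈ s, v (g i) ≤ B) : v (∑ i ∈ s, g i) ≤ B := by
  classical
  induction s using Finset.induction_on with
  | empty =>
    rw [Finset.sum_empty, map_zero]
    exact hB
  | insert a s ha ih =>
    rw [Finset.sum_insert ha]
    exact (hv _ _).trans (max_le (h a (Finset.mem_insert_self a s))
      (ih (fun i hi => h i (Finset.mem_insert_of_mem hi))))

lemma IntV.add (hv : IsNonarchimedean v) {p q : MvPolynomial σ K} (hp : IntV v p)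
    (hq : IntV v q) : IntV v (p + q) := by
  intro m
  rw [coeff_add]
  exact (hv _ _).trans (max_le (hp m) (hq m))

lemma IntV.neg {p : MvPolynomial σ K} (hp : IntV v p) : IntV v (-p) := by
  intro m
  rw [coeff_neg, v.map_neg]
  exact hp m

lemma IntV.mul (hv : IsNonarchimedean v) {p q : MvPolynomial σ K} (hp : IntV v p)
    (hq : IntV v q) : IntV v (p * q) := by
  classical
  intro m
  rw [coeff_mul]
  refine IntV_sum_le hv _ zero_le_one (fun x _ => ?_)
  rw [map_mul]
  exact mul_le_one₀ (hp _) (apply_nonneg v _) (hq _)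

lemma IntV_zero : IntV v (0 : MvPolynomial σ K) := by
  intro m
  rw [coeff_zero, map_zero]
  exact zero_le_one

lemma IntV_one : IntV v (1 : MvPolynomial σ K) := by
  classical
  intro m
  rw [coeff_one]
  split_ifs
  · rw [map_one]
  · rw [map_zero]
    exact zero_le_one

lemma IntV.C {c : K} (hc : v c ≤ 1) : IntV v (C c : MvPolynomial σ K) := by
  classical
  intro m
  rw [coeff_C]
  split_ifs
  · exact hc
  · rw [map_zero]
    exact zero_le_one

lemma IntV.X (i : σ) : IntV v (X i : MvPolynomial σ K) := by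
  classical
  intro m
  rw [coeff_X]
  split_ifs
  · rw [map_one]
  · rw [map_zero]
    exact zero_le_one

lemma IntV_pow (hv : IsNonarchimedean v) {p : MvPolynomial σ K} (hp : IntV v p) (n : ℕ) :
    IntV v (p ^ n) := by
  induction n with
  | zero =>
    rw [pow_zero]
    exact IntV_one
  | succ n ih =>
    rw [pow_succ]
    exact ih.mul hv hp

lemma IntV.sum (hv : IsNonarchimedean v) {ι : Type*} (s : Finset ι) {p : ι → MvPolynomial σ K}
    (h : ∀ i ∈ s, IntV v (p i)) : IntV v (∑ i ∈ s, p i) := by
  classical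
  induction s using Finset.induction_on with
  | empty =>
    rw [Finset.sum_empty]
    exact IntV_zero
  | insert a s ha ih =>
    rw [Finset.sum_insert ha]
    exact (h a (Finset.mem_insert_self a s)).add hv
      (ih (fun i hi => h i (Finset.mem_insert_of_mem hi)))

lemma IntV.prod (hv : IsNonarchimedean v) {ι : Type*} (s : Finset ι) {p : ι → MvPolynomial σ K}
    (h : ∀ i ∈ s, IntV v (p i)) : IntV v (∏ i ∈ s, p i) := by
  classical
  induction s using Finset.induction_on with
  | empty =>
    rw [Finset.prod_empty]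
    exact IntV_one
  | insert a s ha ih =>
    rw [Finset.prod_insert ha]
    exact (h a (Finset.mem_insert_self a s)).mul hv
      (ih (fun i hi => h i (Finset.mem_insert_of_mem hi)))

lemma IntV.bind₁ (hv : IsNonarchimedean v) {p : MvPolynomial σ K} (hp : IntV v p)
    {P : σ → MvPolynomial τ K} (hP : ∀ i, IntV v (P i)) : IntV v (bind₁ P p) := by
  have h : MvPolynomial.bind₁ P p = ∑ d ∈ p.support, MvPolynomial.C (p.coeff d) *
      ∏ i ∈ d.support, P i ^ d i := by
    rw [show MvPolynomial.bind₁ P p = eval₂ (MvPolynomial.C) P p from rfl, eval₂_eq]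
  rw [h]
  exact IntV.sum hv _ (fun d _ => (IntV.C (hp d)).mul hv
    (IntV.prod hv _ (fun i _ => IntV_pow hv (hP i) _)))

lemma IntV.rename {p : MvPolynomial σ K} (hp : IntV v p) (e : σ ≃ τ) :
    IntV v (rename e p) := by
  intro m
  have h1 : m = (m.mapDomain e.symm).mapDomain e := by
    rw [← Finsupp.mapDomain_comp, Equiv.self_comp_symm, Finsupp.mapDomain_id]
  rw [h1, coeff_rename_mapDomain _ e.injective]
  exact hp _

lemma IntV.det (hv : IsNonarchimedean v) {n : ℕ} {M : Matrix (Fin n) (Fin n) (MvPolynomial σ K)}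
    (hM : ∀ i j, IntV v (M i j)) : IntV v M.det := by
  rw [Matrix.det_apply]
  refine IntV.sum hv _ (fun g _ => ?_)
  have h : IntV v (∏ i, M (g i) i) := IntV.prod hv _ (fun i _ => hM _ _)
  rcases Int.units_eq_one_or (Equiv.Perm.sign g) with h1 | h1
  · rw [h1, one_smul]
    exact h
  · rw [h1, Units.neg_smul, one_smul]
    exact h.neg

lemma IntV.resultant (hv : IsNonarchimedean v) {f g : Polynomial (MvPolynomial σ K)}
    (hf : ∀ k, IntV v (f.coeff k)) (hg : ∀ k, IntV v (g.coeff k)) (m n : ℕ) :
    IntV v (Polynomial.resultant f g m n) := by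
  rw [Polynomial.resultant]
  refine IntV.det hv ?_
  intro i j
  rw [Polynomial.sylvester, Matrix.of_apply]
  refine j.addCases (fun j => ?_) (fun j => ?_)
  · simp only [Fin.addCases_left]
    split_ifs
    · first
        | exact hf _
        | exact hg _
    · exact IntV_zero
  · simp only [Fin.addCases_right]
    split_ifs
    · first
        | exact hf _
        | exact hg _
    · exact IntV_zero

lemma IntV.coeff_finSuccEquiv {p : MvPolynomial (Fin 3) K} (hp : IntV v p) (k : ℕ) :
    IntV v ((finSuccEquiv K 2 p).coeff k) := by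
  intro m
  rw [finSuccEquiv_coeff_coeff]
  exact hp _

lemma IntV.iterP (hv : IsNonarchimedean v) {F : Fin 3 → MvPolynomial (Fin 3) K}
    (hF : ∀ i, IntV v (F i)) (n : ℕ) (i : Fin 3) : IntV v (iterP F n i) := by
  induction n generalizing i with
  | zero => exact IntV.X i
  | succ n ih => exact (hF i).bind₁ hv ih

lemma IntV.cmp (hv : IsNonarchimedean v) {F : Fin 3 → MvPolynomial (Fin 3) K}
    (hF : ∀ i, IntV v (F i)) {f : MvPolynomial (Fin 3) K} (hf : IntV v f) (n : ℕ) :
    IntV v (cmp f F n) := by
  exact hf.bind₁ hv (fun i => IntV.iterP hv hF n i)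

/-- value of an integral homogeneous polynomial: at most `(max |z_i|)^e` -/
lemma IntV.eval_le (hv : IsNonarchimedean v) {p : MvPolynomial (Fin 3) K} (hp : IntV v p)
    {e : ℕ} (he : p.IsHomogeneous e) (z : Fin 3 → K) : v (eval z p) ≤ (⨆ i, v (z i)) ^ e := by
  have hle : ∀ i, v (z i) ≤ ⨆ i, v (z i) := fun i =>
    le_ciSup (Finite.bddAbove_range (fun i => v (z i))) i
  have h0 : 0 ≤ ⨆ i, v (z i) := (apply_nonneg v (z 0)).trans (hle 0)
  rw [eval_eq']
  refine IntV_sum_le hv _ (pow_nonneg h0 e) (fun d hd => ?_)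
  have hde : ∑ i, d i = e := by
    have h1 := he (mem_support_iff.1 hd)
    rw [← h1, Finsupp.weight_apply, Finsupp.sum_fintype _ _ (fun i => by simp)]
    simp
  rw [map_mul, map_prod]
  have h2 : ∏ i, v (z i ^ d i) ≤ (⨆ i, v (z i)) ^ e := by
    rw [← hde, ← Finset.prod_pow_eq_pow_sum]
    refine Finset.prod_le_prod (fun i _ => apply_nonneg v _) (fun i _ => ?_)
    rw [map_pow]
    exact pow_le_pow_left₀ (apply_nonneg v _) (hle i) _
  calc v (coeff d p) * ∏ i, v (z i ^ d i) ≤ 1 * ∏ i, v (z i ^ d i) :=
        mul_le_mul_of_nonneg_right (hp d) (Finset.prod_nonneg fun i _ => apply_nonneg v _)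
    _ = ∏ i, v (z i ^ d i) := one_mul _
    _ ≤ (⨆ i, v (z i)) ^ e := h2

end closure

end Pool.Agent.W_1502ea_h54
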