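import Mathlib
import Pool.Agent.W_1502ea_h54.Base

/-!
# Factorization of homogeneous polynomials into irreducible homogeneous polynomials
-/

set_option autoImplicit false

namespace Pool.Agent.W_1502ea_h54

open MvPolynomial

/-- substitution of `t X_i` for `X_i` -/
noncomputable def FactorPhi {σ : Type*} {R : Type*} [CommRing R] :
    MvPolynomial σ R →+* Polynomial (MvPolynomial σ R) :=
  eval₂Hom (Polynomial.C.comp (C : R →+* MvPolynomial σ R))
    (fun i => Polynomial.X * Polynomial.C (X i))

lemma Factor_phi_homog {σ : Type*} {R : Type*} [CommRing R] {p : MvPolynomial σ R} {n : ℕ}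
    (h : p.IsHomogeneous n) : FactorPhi p = Polynomial.X ^ n * Polynomial.C p := by
  have h1 : FactorPhi p = eval₂ (Polynomial.C.comp (C : R →+* MvPolynomial σ R))
      (fun i => Polynomial.X * Polynomial.C (X i)) p := rfl
  rw [h1, Base_eval₂_smul h]
  have h2 : eval₂ (Polynomial.C.comp (C : R →+* MvPolynomial σ R))
      (fun i => Polynomial.C (X i)) p = Polynomial.C (eval₂ (C : R →+* MvPolynomial σ R) X p) := by
    rw [eval₂_comp_left]
    rfl
  rw [h2, eval₂_eta]

lemma Factor_phi_coeff {σ : Type*} {R : Type*} [CommRing R] (p : MvPolynomial σ R) (i : ℕ) :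
    (FactorPhi p).coeff i = homogeneousComponent i p := by
  conv_lhs => rw [← sum_homogeneousComponent p]
  rw [map_sum, Polynomial.finsetSum_coeff]
  have h1 : ∀ j ∈ Finset.range (p.totalDegree + 1),
      (FactorPhi (homogeneousComponent j p)).coeff i =
        if j = i then homogeneousComponent i p else 0 := by
    intro j _
    rw [Factor_phi_homog (homogeneousComponent_isHomogeneous j p), mul_comm,
      Polynomial.coeff_C_mul, Polynomial.coeff_X_pow]
    by_cases hij : j = i
    · subst hij
      simp
    · rw [if_neg hij, if_neg (fun h => hij h.symm), mul_zero]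
  rw [Finset.sum_congr rfl h1, Finset.sum_ite_eq' (Finset.range (p.totalDegree + 1)) i]
  split_ifs with hi
  · rfl
  · rw [homogeneousComponent_eq_zero]
    simpa using hi

lemma Factor_of_deg {σ : Type*} {R : Type*} [CommRing R] {p : MvPolynomial σ R}
    (h : (FactorPhi p).natTrailingDegree = (FactorPhi p).natDegree) :
    p.IsHomogeneous (FactorPhi p).natDegree := by
  set a := (FactorPhi p).natDegree with ha
  have h1 : p = homogeneousComponent a p := by
    conv_lhs => rw [← sum_homogeneousComponent p]
    rw [Finset.sum_eq_single a]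
    · intro b _ hb
      rw [← Factor_phi_coeff]
      rcases lt_or_gt_of_ne hb with hb | hb
      · exact Polynomial.coeff_eq_zero_of_lt_natTrailingDegree (by rw [h]; exact hb)
      · exact Polynomial.coeff_eq_zero_of_natDegree_lt (by rw [← ha]; exact hb)
    · intro hn
      apply homogeneousComponent_eq_zero
      simpa using hn
  rw [h1]
  exact homogeneousComponent_isHomogeneous a p

lemma Factor_phi_ne {σ : Type*} {R : Type*} [CommRing R] {p : MvPolynomial σ R}
    (h : p ≠ 0) : FactorPhi p ≠ 0 := by
  intro h0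
  apply h
  rw [← sum_homogeneousComponent p]
  apply Finset.sum_eq_zero
  intro i _
  rw [← Factor_phi_coeff, h0, Polynomial.coeff_zero]

/-- a factor of a nonzero homogeneous polynomial over a domain is homogeneous (compare the lowest
and the highest homogeneous components of the two factors) -/
lemma isHomogeneous_of_mul {σ : Type*} {R : Type*} [CommRing R] [IsDomain R]
    {p q : MvPolynomial σ R} {m : ℕ} (h : (p * q).IsHomogeneous m) (h0 : p * q ≠ 0) :
    ∃ a b : ℕ, p.IsHomogeneous a ∧ q.IsHomogeneous b ∧ a + b = m := by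
  have hp : p ≠ 0 := left_ne_zero_of_mul h0
  have hq : q ≠ 0 := right_ne_zero_of_mul h0
  have hP := Factor_phi_ne hp
  have hQ := Factor_phi_ne hq
  have hm : FactorPhi p * FactorPhi q = Polynomial.C (p * q) * Polynomial.X ^ m := by
    rw [← map_mul, Factor_phi_homog h, mul_comm]
  have e1 : (FactorPhi p).natDegree + (FactorPhi q).natDegree = m := by
    rw [← Polynomial.natDegree_mul hP hQ, hm, Polynomial.natDegree_C_mul_X_pow m _ h0]
  have e2 : (FactorPhi p).natTrailingDegree + (FactorPhi q).natTrailingDegree = m := by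
    rw [← Polynomial.natTrailingDegree_mul hP hQ, hm, Polynomial.C_mul_X_pow_eq_monomial,
      Polynomial.natTrailingDegree_monomial h0]
  have l1 := (FactorPhi p).natTrailingDegree_le_natDegree
  have l2 := (FactorPhi q).natTrailingDegree_le_natDegree
  exact ⟨_, _, Factor_of_deg (by omega), Factor_of_deg (by omega), e1⟩

/-- factorization into irreducible homogeneous factors of positive degree -/
theorem exists_factor {L : Type*} [Field L] {F : MvPolynomial (Fin 3) L} {m : ℕ}
    (hF : F.IsHomogeneous m) (h0 : F ≠ 0) :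
    ∃ (k : ℕ) (g : Fin k → MvPolynomial (Fin 3) L) (e : Fin k → ℕ) (u : L), u ≠ 0 ∧
      (∀ i, Irreducible (g i) ∧ (g i).IsHomogeneous (e i) ∧ 1 ≤ e i) ∧
      F = C u * ∏ i, g i := by
  obtain ⟨s, hs, hsF⟩ := WfDvdMonoid.exists_factors F h0
  obtain ⟨w, hw⟩ := hsF
  have hu : IsUnit (w : MvPolynomial (Fin 3) L) := w.isUnit
  rw [isUnit_iff_eq_C_of_isReduced] at hu
  obtain ⟨u, hu1, hu2⟩ := hu
  have key : ∀ g ∈ s.toList, Irreducible g ∧ ∃ e : ℕ, g.IsHomogeneous e ∧ 1 ≤ e := by
    intro g hg
    have hg' : g ∈ s := Multiset.mem_toList.mp hg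
    have hirr := hs g hg'
    refine ⟨hirr, ?_⟩
    have hd : g ∣ F := by
      rw [← hw]
      exact Dvd.dvd.mul_right (Multiset.dvd_prod hg') _
    obtain ⟨c, hc⟩ := hd
    obtain ⟨a, b, ha, _, _⟩ := isHomogeneous_of_mul (p := g) (q := c) (m := m)
      (by rw [← hc]; exact hF) (by rw [← hc]; exact h0)
    refine ⟨a, ha, ?_⟩
    by_contra hlt
    have ha0 : a = 0 := by omega
    subst ha0
    have h2 : g = C (coeff 0 g) := by
      have := totalDegree_eq_zero_iff_eq_C.mp (by
        have := ha.totalDegree_le
        omega : g.totalDegree = 0)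
      exact this
    apply hirr.not_isUnit
    rw [isUnit_iff_eq_C_of_isReduced]
    refine ⟨coeff 0 g, ?_, h2⟩
    apply isUnit_iff_ne_zero.mpr
    intro h3
    apply hirr.ne_zero
    rw [h2, h3, C_0]
  choose hi e he using fun i : Fin s.toList.length => key (s.toList.get i) (List.get_mem _ i)
  refine ⟨s.toList.length, fun i => s.toList.get i, e, u, hu1.ne_zero, fun i =>
    ⟨hi i, (he i).1, (he i).2⟩, ?_⟩
  have hprod : ∏ i : Fin s.toList.length, s.toList.get i = s.prod := by
    rw [← Multiset.prod_toList s]
    conv_rhs => rw [← List.ofFn_get s.toList]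
    rw [List.prod_ofFn]
  rw [hprod, ← hw, ← hu2, mul_comm]

end Pool.Agent.W_1502ea_h54
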