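import Mathlib
import Pool.Agent.W_1502ea_h54.Base

/-!
# Growth of heights along an orbit
-/

set_option autoImplicit false

namespace Pool.Agent.W_1502ea_h54

open MvPolynomial Height

/-- the relations which say that `F` has no common zero -/
def NullRel {K : Type*} [CommRing K] (F : Fin 3 → MvPolynomial (Fin 3) K) (d : ℕ) : Prop :=
  ∃ (M : ℕ) (q : Fin 3 × Fin 3 → MvPolynomial (Fin 3) K), (∀ a, (q a).IsHomogeneous M) ∧
    ∀ k, ∑ j, q (k, j) * F j = X k ^ (M + d)

lemma pmap_ne_zero {K : Type*} [Field K] {F : Fin 3 → MvPolynomial (Fin 3) K} {d : ℕ}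
    (hd : 1 ≤ d) (h : NullRel F d) {z : Fin 3 → K} (hz : z ≠ 0) : pmap F z ≠ 0 := by
  obtain ⟨M, q, _, hr⟩ := h
  intro h0
  apply hz
  funext k
  have h1 : ∀ j, eval z (F j) = 0 := fun j => congrFun h0 j
  have h2 := congrArg (eval z) (hr k)
  rw [map_sum, map_pow, eval_X] at h2
  have h3 : z k ^ (M + d) = 0 := by
    rw [← h2]
    refine Finset.sum_eq_zero fun j _ => ?_
    rw [map_mul, h1, mul_zero]
  exact eq_zero_of_pow_eq_zero h3

lemma iter_ne_zero {K : Type*} [Field K] {F : Fin 3 → MvPolynomial (Fin 3) K} {d : ℕ}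
    (hd : 1 ≤ d) (h : NullRel F d) {z : Fin 3 → K} (hz : z ≠ 0) (n : ℕ) :
    (pmap F)^[n] z ≠ 0 := by
  induction n with
  | zero => exact hz
  | succ n ih =>
    rw [Function.iterate_succ_apply']
    exact pmap_ne_zero hd h ih

/-- relations are preserved by ring homomorphisms -/
lemma NullRel.map {R S : Type*} [CommRing R] [CommRing S] (φ : R →+* S)
    {F : Fin 3 → MvPolynomial (Fin 3) R} {d : ℕ} (h : NullRel F d) :
    NullRel (fun i => MvPolynomial.map φ (F i)) d := by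
  obtain ⟨M, q, hq, hr⟩ := h
  refine ⟨M, fun a => MvPolynomial.map φ (q a), fun a => (hq a).map φ, fun k => ?_⟩
  have h1 := congrArg (MvPolynomial.map φ) (hr k)
  rw [map_sum, map_pow, map_X] at h1
  rw [← h1]
  refine Finset.sum_congr rfl fun j _ => ?_
  rw [map_mul]

/-- from `Height.logHeight_eval_ge` -/
lemma height_grow {K : Type*} [Field K] [AdmissibleAbsValues K]
    {F : Fin 3 → MvPolynomial (Fin 3) K} {d : ℕ} (h : NullRel F d) :
    ∃ C : ℝ, 0 ≤ C ∧ ∀ z : Fin 3 → K, d * logHeight z - C ≤ logHeight (pmap F z) := by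
  obtain ⟨M, q, hq, hr⟩ := h
  obtain ⟨C, hC⟩ := logHeight_eval_ge' (N := d) hq
  refine ⟨|C|, abs_nonneg C, fun z => ?_⟩
  have h1 := hC F (x := z) (fun k => by
    have h2 := congrArg (eval z) (hr k)
    rw [map_sum, map_pow, eval_X] at h2
    rw [← h2]
    refine Finset.sum_congr rfl fun j _ => ?_
    rw [map_mul])
  have h3 : logHeight (pmap F z) = logHeight (fun j => eval z (F j)) := rfl
  have h4 := neg_abs_le C
  rw [h3]
  linarith

lemma seq_grow {h : ℕ → ℝ} {d : ℕ} (hd : 2 ≤ d) {C : ℝ} (hC : 0 ≤ C)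
    (hh : ∀ n, d * h n - C ≤ h (n + 1)) {n₀ : ℕ} (h0 : C + 1 ≤ h n₀) (m : ℕ) :
    (d : ℝ) ^ m ≤ h (n₀ + m) := by
  have hd' : (2 : ℝ) ≤ d := by exact_mod_cast hd
  have key : ∀ m : ℕ, (d : ℝ) ^ m + C ≤ h (n₀ + m) := by
    intro m
    induction m with
    | zero =>
      rw [pow_zero, add_zero]
      linarith
    | succ m ih =>
      have h1 := hh (n₀ + m)
      have h2 : (d : ℝ) * ((d : ℝ) ^ m + C) ≤ d * h (n₀ + m) :=
        mul_le_mul_of_nonneg_left ih (by linarith)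
      have h3 : 2 * C ≤ (d : ℝ) * C := mul_le_mul_of_nonneg_right hd' hC
      rw [pow_succ, ← add_assoc]
      nlinarith
  have := key m
  linarith

/-- **growth**: if the heights along the orbit are unbounded, then they grow like `d^m` -/
theorem orbit_grow {K : Type*} [Field K] [AdmissibleAbsValues K]
    {F : Fin 3 → MvPolynomial (Fin 3) K} {d : ℕ} (hd : 2 ≤ d) (h : NullRel F d) {z : Fin 3 → K}
    (hub : ∀ B : ℝ, ∃ n, B < logHeight ((pmap F)^[n] z)) :
    ∃ n₀ : ℕ, ∀ m : ℕ, (d : ℝ) ^ m ≤ logHeight ((pmap F)^[n₀ + m] z) := by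
  obtain ⟨C, hC, hg⟩ := height_grow (K := K) h
  obtain ⟨n₀, hn⟩ := hub (C + 1)
  refine ⟨n₀, fun m => ?_⟩
  exact seq_grow (h := fun n => logHeight ((pmap F)^[n] z)) hd hC (fun n => by
    show (d : ℝ) * logHeight ((pmap F)^[n] z) - C ≤ logHeight ((pmap F)^[n + 1] z)
    rw [Function.iterate_succ_apply']
    exact hg _) hn.le m

end Pool.Agent.W_1502ea_h54
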