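import Mathlib
import Pool.Agent.W_1502ea_h54.Base

/-!
# Combinatorics: closed sets are finite unions of progressions, preperiodic points, counting
-/

set_option autoImplicit false

namespace Pool.Agent.W_1502ea_h54

open MvPolynomial

/-- a set closed under `+ j`, `j ≥ 1`, is a finite union of progressions (one for each residue
class modulo `j` which meets it) -/
lemma isAPU_of_add_closed {A : Set ℕ} {j : ℕ} (hj : 1 ≤ j) (h : ∀ n ∈ A, n + j ∈ A) :
    IsAPU A := by
  classical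
  have hmul : ∀ k : ℕ, ∀ n ∈ A, n + k * j ∈ A := by
    intro k
    induction k with
    | zero => intro n hn; simpa using hn
    | succ k ih =>
      intro n hn
      have h1 := h _ (ih n hn)
      have h2 : n + k * j + j = n + (k + 1) * j := by ring
      rwa [h2] at h1
  refine ⟨((Finset.range j).filter (fun r => ∃ n, n ∈ A ∧ n % j = r)).image
    (fun r => (sInf {n | n ∈ A ∧ n % j = r}, j)), ?_⟩
  ext n
  simp only [Set.mem_iUnion, Finset.mem_image, Finset.mem_filter, Finset.mem_range, exists_prop]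
  constructor
  · intro hn
    have hne : {m | m ∈ A ∧ m % j = n % j}.Nonempty := ⟨n, hn, rfl⟩
    have h1 := Nat.sInf_mem hne
    have h2 : sInf {m | m ∈ A ∧ m % j = n % j} ≤ n := Nat.sInf_le ⟨hn, rfl⟩
    refine ⟨_, ⟨n % j, ⟨Nat.mod_lt _ (by omega), n, hn, rfl⟩, rfl⟩, ?_⟩
    set a := sInf {m | m ∈ A ∧ m % j = n % j} with ha
    have h3 : a % j = n % j := h1.2
    have h4 : j ∣ n - a := (Nat.modEq_iff_dvd' h2).1 h3
    obtain ⟨k, hk⟩ := h4
    refine ⟨k, ?_⟩
    show n = a + k * j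
    rw [mul_comm k j]
    omega
  · rintro ⟨q, ⟨r, ⟨_, m, hm, hr⟩, rfl⟩, k, hk⟩
    have hne : {m | m ∈ A ∧ m % j = r}.Nonempty := ⟨m, hm, hr⟩
    have h1 := Nat.sInf_mem hne
    rw [hk]
    exact hmul k _ h1.1

lemma IsAPU.union {A B : Set ℕ} (hA : IsAPU A) (hB : IsAPU B) : IsAPU (A ∪ B) := by
  classical
  obtain ⟨S, hS⟩ := hA
  obtain ⟨T, hT⟩ := hB
  refine ⟨S ∪ T, ?_⟩
  rw [Finset.set_biUnion_union, hS, hT]

lemma isAPU_empty : IsAPU ∅ := ⟨∅, by simp⟩

lemma isAPU_of_finite {A : Set ℕ} (hA : A.Finite) : IsAPU A := by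
  classical
  refine ⟨hA.toFinset.image (fun n => (n, 0)), ?_⟩
  ext n
  simp

/-- eventually periodic membership: finite union of progressions -/
lemma isAPU_of_eventually {A : Set ℕ} {m j : ℕ} (hj : 1 ≤ j)
    (h : ∀ n, m ≤ n → (n ∈ A ↔ n + j ∈ A)) : IsAPU A := by
  have h1 : A = (A ∩ Set.Iio m) ∪ (A ∩ Set.Ici m) := by
    ext n
    constructor
    · intro hn
      rcases lt_or_ge n m with hlt | hge
      · exact Or.inl ⟨hn, hlt⟩
      · exact Or.inr ⟨hn, hge⟩
    · rintro (hn | hn)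
      · exact hn.1
      · exact hn.1
  rw [h1]
  apply IsAPU.union
  · exact isAPU_of_finite ((Set.finite_Iio m).subset Set.inter_subset_right)
  · apply isAPU_of_add_closed hj
    rintro n ⟨hn, hm⟩
    refine ⟨(h n hm).1 hn, ?_⟩
    have : m ≤ n := hm
    show m ≤ n + j
    omega

lemma isAPU_iUnion {k : ℕ} {A : Fin k → Set ℕ} (h : ∀ i, IsAPU (A i)) : IsAPU (⋃ i, A i) := by
  classical
  choose T hT using h
  refine ⟨Finset.univ.biUnion T, ?_⟩
  rw [Finset.set_biUnion_biUnion]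
  ext n
  simp only [Set.mem_iUnion, Finset.mem_univ, exists_prop, true_and]
  constructor
  · rintro ⟨i, hi⟩
    rw [hT i] at hi
    simp only [Set.mem_iUnion, exists_prop] at hi
    exact ⟨i, hi⟩
  · rintro ⟨i, hi⟩
    refine ⟨i, ?_⟩
    rw [hT i]
    simp only [Set.mem_iUnion, exists_prop]
    exact hi

/-- periodic curve -/
lemma isAPU_ret_of_dvd {R : Type*} [CommRing R] {F : Fin 3 → MvPolynomial (Fin 3) R}
    {f : MvPolynomial (Fin 3) R} {j : ℕ} (hj : 1 ≤ j) (h : f ∣ cmp f F j) (z : Fin 3 → R) :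
    IsAPU (ret F f z) := by
  apply isAPU_of_add_closed hj
  intro n hn
  have hn' : eval ((pmap F)^[n] z) f = 0 := hn
  show eval ((pmap F)^[n + j] z) f = 0
  rw [add_comm n j, Function.iterate_add_apply, ← eval_cmp]
  obtain ⟨g, hg⟩ := h
  rw [hg, map_mul, hn', zero_mul]

/-- preperiodic point -/
lemma isAPU_ret_of_prePer {K : Type*} [Field K] {F : Fin 3 → MvPolynomial (Fin 3) K} {d : ℕ}
    (hF : ∀ i, (F i).IsHomogeneous d) {f : MvPolynomial (Fin 3) K} {e : ℕ}
    (hf : f.IsHomogeneous e) {z : Fin 3 → K} (hp : PrePer F z) : IsAPU (ret F f z) := by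
  obtain ⟨m, n, hmn, c, hc, hz⟩ := hp
  apply isAPU_of_eventually (m := m) (j := n - m) (by omega)
  intro k hk
  have h1 : (pmap F)^[k + (n - m)] z = c ^ (d ^ (k - m)) • (pmap F)^[k] z := by
    have e1 : k + (n - m) = (k - m) + n := by omega
    have e2 : (pmap F)^[k] z = (pmap F)^[k - m] ((pmap F)^[m] z) := by
      rw [← Function.iterate_add_apply]
      congr 2
      omega
    rw [e1, Function.iterate_add_apply, hz, iter_smul hF, e2]
  show eval ((pmap F)^[k] z) f = 0 ↔ eval ((pmap F)^[k + (n - m)] z) f = 0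
  rw [h1, eval_smul_homog hf]
  constructor
  · intro h
    rw [h, mul_zero]
  · intro h
    exact (mul_eq_zero.1 h).resolve_left (pow_ne_zero _ (pow_ne_zero _ hc))

/-- a set with doubling gaps has at most `C + 2 + log₂ N` elements up to `N` -/
lemma gap_count {A : Set ℕ} {C : ℕ} (h : ∀ n ∈ A, ∀ n' ∈ A, n < n' → 2 * n ≤ n' + C) (N : ℕ) :
    (A ∩ Set.Iic N).ncard ≤ C + 2 + Nat.log 2 N := by
  have hsub : A ∩ Set.Iic N ⊆ (↑(Finset.Iic C) : Set ℕ) ∪ (A ∩ Set.Ioc C N) := by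
    rintro n ⟨hn, hN⟩
    rcases le_or_gt n C with hle | hgt
    · exact Or.inl (by simpa using hle)
    · exact Or.inr ⟨hn, hgt, hN⟩
  have hfin : (A ∩ Set.Ioc C N).Finite := (Set.finite_Ioc C N).subset Set.inter_subset_right
  have h1 : (A ∩ Set.Iic N).ncard ≤ ((↑(Finset.Iic C) : Set ℕ) ∪ (A ∩ Set.Ioc C N)).ncard :=
    Set.ncard_le_ncard hsub ((Finset.finite_toSet _).union hfin)
  have h2 := Set.ncard_union_le (↑(Finset.Iic C) : Set ℕ) (A ∩ Set.Ioc C N)
  have h3 : (↑(Finset.Iic C) : Set ℕ).ncard = C + 1 := by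
    rw [Set.ncard_coe_finset, Nat.card_Iic]
  have hmono : ∀ n ∈ A ∩ Set.Ioc C N, ∀ n' ∈ A ∩ Set.Ioc C N, n < n' →
      Nat.log 2 (n - C) < Nat.log 2 (n' - C) := by
    intro n hn n' hn' hlt
    have h4 := h n hn.1 n' hn'.1 hlt
    have h5 : C < n := hn.2.1
    have h6 : 2 * (n - C) ≤ n' - C := by omega
    have h7 : Nat.log 2 (2 * (n - C)) = Nat.log 2 (n - C) + 1 := by
      rw [mul_comm, Nat.log_mul_base (by norm_num) (by omega)]
    have h8 := Nat.log_mono_right (b := 2) h6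
    omega
  have h4 : (A ∩ Set.Ioc C N).ncard ≤ (↑(Finset.Iic (Nat.log 2 N)) : Set ℕ).ncard := by
    apply Set.ncard_le_ncard_of_injOn (fun n => Nat.log 2 (n - C))
    · intro n hn
      rw [Finset.mem_coe, Finset.mem_Iic]
      apply Nat.log_mono_right
      have : n ≤ N := hn.2.2
      omega
    · intro n hn n' hn' heq
      rcases lt_trichotomy n n' with hlt | rfl | hgt
      · exact absurd heq (ne_of_lt (hmono n hn n' hn' hlt))
      · rfl
      · exact absurd heq.symm (ne_of_lt (hmono n' hn' n hn hgt))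
  have h5 : (↑(Finset.Iic (Nat.log 2 N)) : Set ℕ).ncard = Nat.log 2 N + 1 := by
    rw [Set.ncard_coe_finset, Nat.card_Iic]
  omega

/-- counting for a finite union -/
lemma gap_count_iUnion {k : ℕ} {G : Fin k → Set ℕ} (h : ∀ i, IsGap (G i)) :
    ∃ C : ℕ, ∀ N : ℕ, ((⋃ i, G i) ∩ Set.Iic N).ncard ≤ C * (1 + Nat.log 2 N) := by
  choose C hC using h
  refine ⟨∑ i, (C i + 2), fun N => ?_⟩
  rw [Set.iUnion_inter]
  refine (Set.ncard_iUnion_le_of_fintype _).trans ?_
  rw [Finset.sum_mul]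
  apply Finset.sum_le_sum
  intro i _
  refine (gap_count (hC i) N).trans ?_
  nlinarith [Nat.zero_le (C i * Nat.log 2 N), Nat.zero_le (Nat.log 2 N)]

end Pool.Agent.W_1502ea_h54
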