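import Mathlib
import Pool.Agent.W_1502ea_h54.Comb

/-!
# Tame sets: finite unions of progressions and of sets with doubling gaps
-/

set_option autoImplicit false

namespace Pool.Agent.W_1502ea_h54

/-- union of a finite union of arithmetic progressions and of finitely many sets with doubling
gaps -/
def IsTame (S : Set ℕ) : Prop :=
  ∃ (A : Set ℕ) (k : ℕ) (G : Fin k → Set ℕ), IsAPU A ∧ (∀ i, IsGap (G i)) ∧ S = A ∪ ⋃ i, G i

lemma IsGap.subset {A B : Set ℕ} (hA : IsGap A) (h : B ⊆ A) : IsGap B := by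
  obtain ⟨C, hC⟩ := hA
  exact ⟨C, fun n hn n' hn' hlt => hC n (h hn) n' (h hn') hlt⟩

lemma Tame_isAPU_biUnion {ι : Type*} (s : Finset ι) {S : ι → Set ℕ} (h : ∀ i ∈ s, IsAPU (S i)) :
    IsAPU (⋃ i ∈ s, S i) := by
  classical
  induction s using Finset.induction_on with
  | empty => simpa using isAPU_empty
  | insert a s ha ih =>
    rw [Finset.set_biUnion_insert]
    exact (h a (Finset.mem_insert_self _ _)).union
      (ih fun i hi => h i (Finset.mem_insert_of_mem hi))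

lemma Tame_inter_progression (p q : ℕ × ℕ) :
    IsAPU ({n : ℕ | ∃ k : ℕ, n = p.1 + k * p.2} ∩ {n : ℕ | ∃ k : ℕ, n = q.1 + k * q.2}) := by
  rcases Nat.eq_zero_or_pos p.2 with hp | hp
  · apply isAPU_of_finite
    refine (Set.finite_singleton p.1).subset ?_
    rintro n ⟨⟨k, hk⟩, _⟩
    rw [hp] at hk
    simpa using hk
  · rcases Nat.eq_zero_or_pos q.2 with hq | hq
    · apply isAPU_of_finite
      refine (Set.finite_singleton q.1).subset ?_
      rintro n ⟨_, ⟨k, hk⟩⟩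
      rw [hq] at hk
      simpa using hk
    · apply isAPU_of_add_closed (j := p.2 * q.2) (Nat.mul_pos hp hq)
      rintro n ⟨⟨k, hk⟩, ⟨l, hl⟩⟩
      refine ⟨⟨k + q.2, ?_⟩, ⟨l + p.2, ?_⟩⟩
      · rw [hk]
        ring
      · rw [hl]
        ring

/-- for two progressions with positive differences `d, d'` the intersection is closed under
`+ d d'`; otherwise it is finite -/
lemma IsAPU.inter {A B : Set ℕ} (hA : IsAPU A) (hB : IsAPU B) : IsAPU (A ∩ B) := by
  obtain ⟨S, rfl⟩ := hA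
  obtain ⟨T, rfl⟩ := hB
  have h : ((⋃ p ∈ S, {n : ℕ | ∃ k : ℕ, n = p.1 + k * p.2}) ∩
      (⋃ q ∈ T, {n : ℕ | ∃ k : ℕ, n = q.1 + k * q.2})) =
      ⋃ p ∈ S, ⋃ q ∈ T, ({n : ℕ | ∃ k : ℕ, n = p.1 + k * p.2} ∩
        {n : ℕ | ∃ k : ℕ, n = q.1 + k * q.2}) := by
    ext n
    simp only [Set.mem_inter_iff, Set.mem_iUnion, exists_prop]
    constructor
    · rintro ⟨⟨p, hp, h1⟩, ⟨q, hq, h2⟩⟩
      exact ⟨p, hp, q, hq, h1, h2⟩
    · rintro ⟨p, hp, q, hq, h1, h2⟩
      exact ⟨⟨p, hp, h1⟩, ⟨q, hq, h2⟩⟩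
  rw [h]
  exact Tame_isAPU_biUnion S fun p _ => Tame_isAPU_biUnion T fun q _ =>
    Tame_inter_progression p q

lemma Tame_of_fintype {ι : Type*} [Fintype ι] {A : Set ℕ} {G : ι → Set ℕ} (hA : IsAPU A)
    (hG : ∀ i, IsGap (G i)) : IsTame (A ∪ ⋃ i, G i) := by
  refine ⟨A, Fintype.card ι, fun i => G ((Fintype.equivFin ι).symm i), hA,
    fun i => hG _, ?_⟩
  congr 1
  exact ((Fintype.equivFin ι).symm.surjective.iUnion_comp G).symm

lemma IsAPU.isTame {A : Set ℕ} (hA : IsAPU A) : IsTame A :=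
  ⟨A, 0, fun _ => ∅, hA, fun i => i.elim0, by simp⟩

lemma IsGap.isTame {A : Set ℕ} (hA : IsGap A) : IsTame A :=
  ⟨∅, 1, fun _ => A, isAPU_empty, fun _ => hA, by rw [Set.empty_union, Set.iUnion_const]⟩

lemma isTame_empty : IsTame ∅ := isAPU_empty.isTame

lemma isTame_univ : IsTame Set.univ := by
  apply IsAPU.isTame
  refine ⟨{(0, 1)}, ?_⟩
  ext n
  simp

lemma IsTame.union {S S' : Set ℕ} (h : IsTame S) (h' : IsTame S') : IsTame (S ∪ S') := by
  obtain ⟨A, k, G, hA, hG, rfl⟩ := h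
  obtain ⟨A', k', G', hA', hG', rfl⟩ := h'
  have h1 : (A ∪ ⋃ i, G i) ∪ (A' ∪ ⋃ i, G' i) =
      (A ∪ A') ∪ ⋃ i : Fin k ⊕ Fin k', Sum.elim G G' i := by
    ext n
    simp only [Set.mem_union, Set.mem_iUnion, Sum.exists, Sum.elim_inl, Sum.elim_inr]
    tauto
  rw [h1]
  refine Tame_of_fintype (hA.union hA') ?_
  rintro (i | i)
  · exact hG i
  · exact hG' i

/-- `(A ∪ G) ∩ (A' ∪ G') = (A ∩ A') ∪ (A ∩ G') ∪ (G ∩ A') ∪ (G ∩ G')` -/
lemma IsTame.inter {S S' : Set ℕ} (h : IsTame S) (h' : IsTame S') : IsTame (S ∩ S') := by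
  obtain ⟨A, k, G, hA, hG, rfl⟩ := h
  obtain ⟨A', k', G', hA', hG', rfl⟩ := h'
  have h1 : (A ∪ ⋃ i, G i) ∩ (A' ∪ ⋃ i, G' i) =
      (A ∩ A') ∪ ⋃ i : Fin k ⊕ Fin k',
        Sum.elim (fun i => G i ∩ (A' ∪ ⋃ j, G' j)) (fun j => G' j ∩ A) i := by
    ext n
    simp only [Set.mem_union, Set.mem_iUnion, Sum.exists, Sum.elim_inl, Sum.elim_inr,
      Set.mem_inter_iff]
    constructor
    · rintro ⟨h1 | ⟨i, h1⟩, h2⟩
      · rcases h2 with h2 | ⟨j, h2⟩
        · exact Or.inl ⟨h1, h2⟩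
        · exact Or.inr (Or.inr ⟨j, h2, h1⟩)
      · exact Or.inr (Or.inl ⟨i, h1, h2⟩)
    · rintro (⟨h1, h2⟩ | ⟨i, h1, h2⟩ | ⟨j, h1, h2⟩)
      · exact ⟨Or.inl h1, Or.inl h2⟩
      · exact ⟨Or.inr ⟨i, h1⟩, h2⟩
      · exact ⟨Or.inl h2, Or.inr ⟨j, h1⟩⟩
  rw [h1]
  refine Tame_of_fintype (hA.inter hA') ?_
  rintro (i | i)
  · exact (hG i).subset Set.inter_subset_left
  · exact (hG' i).subset Set.inter_subset_left

lemma isTame_biUnion {ι : Type*} (s : Finset ι) {S : ι → Set ℕ} (h : ∀ i ∈ s, IsTame (S i)) :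
    IsTame (⋃ i ∈ s, S i) := by
  classical
  induction s using Finset.induction_on with
  | empty => simpa using isTame_empty
  | insert a s ha ih =>
    rw [Finset.set_biUnion_insert]
    exact (h a (Finset.mem_insert_self _ _)).union
      (ih fun i hi => h i (Finset.mem_insert_of_mem hi))

lemma isTame_biInter {ι : Type*} (s : Finset ι) {S : ι → Set ℕ} (h : ∀ i ∈ s, IsTame (S i)) :
    IsTame (⋂ i ∈ s, S i) := by
  classical
  induction s using Finset.induction_on with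
  | empty => simpa using isTame_univ
  | insert a s ha ih =>
    rw [Finset.set_biInter_insert]
    exact (h a (Finset.mem_insert_self _ _)).inter
      (ih fun i hi => h i (Finset.mem_insert_of_mem hi))

end Pool.Agent.W_1502ea_h54
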