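import Mathlib
import Pool.Agent.W_1502ea_h54.Tame
import Pool.Agent.W_1502ea_h54.Factor
import Pool.Agent.W_1502ea_h54.Grow

/-!
# The property `PL K`: all return sets over the field `K` are tame
-/

set_option autoImplicit false

namespace Pool.Agent.W_1502ea_h54

open MvPolynomial

/-- all return sets of endomorphisms of degree at least `2` of the projective plane over `K` to
curves over `K` are tame -/
def PL (K : Type*) [Field K] : Prop :=
  ∀ d : ℕ, 2 ≤ d → ∀ F : Fin 3 → MvPolynomial (Fin 3) K, (∀ i, (F i).IsHomogeneous d) →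
    NullRel F d → ∀ (f : MvPolynomial (Fin 3) K) (m : ℕ), f.IsHomogeneous m → f ≠ 0 →
      ∀ z : Fin 3 → K, z ≠ 0 → IsTame (ret F f z)

/-- it suffices to treat irreducible curves which are not periodic (`exists_factor`,
`isAPU_ret_of_dvd`; the return set of a product is the union of the return sets) -/
theorem PL_of_irreducible {K : Type*} [Field K]
    (h : ∀ d : ℕ, 2 ≤ d → ∀ F : Fin 3 → MvPolynomial (Fin 3) K, (∀ i, (F i).IsHomogeneous d) →
      NullRel F d → ∀ (f : MvPolynomial (Fin 3) K) (e : ℕ), f.IsHomogeneous e → 1 ≤ e →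
        Irreducible f → (∀ j, 1 ≤ j → ¬ f ∣ cmp f F j) →
          ∀ z : Fin 3 → K, z ≠ 0 → IsTame (ret F f z)) : PL K := by
  intro d hd F hF hN f m hf hf0 z hz
  obtain ⟨k, g, e, u, hu, hg, hfac⟩ := exists_factor hf hf0
  have h1 : ret F f z = ⋃ i ∈ (Finset.univ : Finset (Fin k)), ret F (g i) z := by
    ext n
    simp only [Finset.mem_univ, Set.iUnion_true, Set.mem_iUnion]
    show eval ((pmap F)^[n] z) f = 0 ↔ ∃ i, eval ((pmap F)^[n] z) (g i) = 0
    rw [hfac, map_mul, map_prod, eval_C, mul_eq_zero, or_iff_right hu, Finset.prod_eq_zero_iff]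
    simp
  rw [h1]
  refine isTame_biUnion _ fun i _ => ?_
  by_cases hj : ∀ j, 1 ≤ j → ¬ g i ∣ cmp (g i) F j
  · exact h d hd F hF hN (g i) (e i) (hg i).2.1 (hg i).2.2 (hg i).1 hj z hz
  · push Not at hj
    obtain ⟨j, hj1, hj2⟩ := hj
    exact (isAPU_ret_of_dvd hj1 hj2 z).isTame

/-- the property is local: it holds for `L` if every finite subset of `L` lies in a subfield for
which it holds (apply it to the coefficients of the `F i`, of `f`, of the relations `NullRel`, and
to the coordinates of `z`; `ret_map`) -/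
theorem PL_of_local {L : Type*} [Field L]
    (h : ∀ s : Set L, s.Finite → ∃ K : Subfield L, s ⊆ K ∧ PL K) : PL L := by
  classical
  intro d hd F hF hN f m hf hf0 z hz
  obtain ⟨M, q, hq, hr⟩ := hN
  obtain ⟨K, hsK, hK⟩ := h ((⋃ i, ((F i).coeffs : Set L)) ∪ (⋃ a, ((q a).coeffs : Set L)) ∪
      (f.coeffs : Set L) ∪ Set.range z)
    ((((Set.finite_iUnion fun i => Finset.finite_toSet _).union
      (Set.finite_iUnion fun a => Finset.finite_toSet _)).union (Finset.finite_toSet _)).union
        (Set.finite_range z))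
  have hinj : Function.Injective (K.subtype : K →+* L) := Subtype.val_injective
  have lift : ∀ p : MvPolynomial (Fin 3) L, (p.coeffs : Set L) ⊆ K →
      ∃ p' : MvPolynomial (Fin 3) K, map K.subtype p' = p := by
    intro p hp
    have h1 : p ∈ Set.range (map (σ := Fin 3) (K.subtype : K →+* L)) := by
      rw [mem_range_map_iff_coeffs_subset]
      intro c hc
      exact ⟨⟨c, hp hc⟩, rfl⟩
    exact h1
  have hF' : ∀ i, ∃ p' : MvPolynomial (Fin 3) K, map K.subtype p' = F i := fun i =>
    lift (F i) (fun c hc => hsK (Or.inl (Or.inl (Or.inl (Set.mem_iUnion.mpr ⟨i, hc⟩)))))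
  have hq' : ∀ a, ∃ p' : MvPolynomial (Fin 3) K, map K.subtype p' = q a := fun a =>
    lift (q a) (fun c hc => hsK (Or.inl (Or.inl (Or.inr (Set.mem_iUnion.mpr ⟨a, hc⟩)))))
  obtain ⟨f', hf'⟩ := lift f (fun c hc => hsK (Or.inl (Or.inr hc)))
  choose F' hF' using hF'
  choose q' hq' using hq'
  have hz' : ∀ i, z i ∈ K := fun i => hsK (Or.inr ⟨i, rfl⟩)
  have hFe : F = fun i => map K.subtype (F' i) := funext fun i => (hF' i).symm
  have hze : z = fun i => K.subtype (⟨z i, hz' i⟩ : K) := rfl
  have hret : ret F f z = ret F' f' (fun i => (⟨z i, hz' i⟩ : K)) := by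
    have h1 := ret_map K.subtype hinj f' F' (fun i => (⟨z i, hz' i⟩ : K))
    rw [hf', ← hFe] at h1
    exact h1
  rw [hret]
  apply hK d hd F' (fun i => IsHomogeneous.of_map hinj (by rw [hF' i]; exact hF i)) ?_ f' m
    (IsHomogeneous.of_map hinj (by rw [hf']; exact hf)) ?_ _ ?_
  · refine ⟨M, q', fun a => IsHomogeneous.of_map hinj (by rw [hq' a]; exact hq a), fun k => ?_⟩
    apply map_injective K.subtype hinj
    rw [map_sum, map_pow, map_X, ← hr k]
    refine Finset.sum_congr rfl fun j _ => ?_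
    rw [map_mul, hq', hF']
  · rintro rfl
    apply hf0
    rw [← hf', map_zero]
  · intro h0
    apply hz
    funext i
    have h1 := congrFun h0 i
    exact congrArg Subtype.val h1

end Pool.Agent.W_1502ea_h54
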