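import Mathlib

/-!
# Residue field of a nonarchimedean absolute value on a function field in one variable
-/

set_option autoImplicit false

namespace Pool.Agent.W_1502ea_h54

/-- the subring of elements of absolute value at most `1` -/
def vint {K : Type*} [Field K] (v : AbsoluteValue K ℝ) (hv : IsNonarchimedean v) : Subring K where
  carrier := {x | v x ≤ 1}
  mul_mem' := by
    intro a b ha hb
    simp only [Set.mem_setOf_eq] at ha hb ⊢
    rw [map_mul]
    exact mul_le_one₀ ha (v.nonneg b) hb
  one_mem' := by simp
  add_mem' := by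
    intro a b ha hb
    exact (hv a b).trans (max_le ha hb)
  zero_mem' := by simp
  neg_mem' := by
    intro a ha
    simpa using ha

/-- exchange: if `K` is algebraic over `L(t)` and `x` is transcendental over `L`, then `K` is
algebraic over `L(x)` -/
lemma Res_exchange {L K : Type*} [Field L] [Field K] [Algebra L K] (t x : K)
    (halg : ∀ y : K, IsAlgebraic (IntermediateField.adjoin L ({t} : Set K)) y)
    (hx : Transcendental L x) (y : K) :
    IsAlgebraic (IntermediateField.adjoin L ({x} : Set K)) y := by
  have h1 : Algebra.IsAlgebraic (IntermediateField.adjoin L ({t} : Set K)) K := ⟨halg⟩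
  have h2 : Algebra.IsAlgebraic (Algebra.adjoin L ({t} : Set K)) K := by
    open scoped IntermediateField.algebraAdjoinAdjoin in
    exact (IsFractionRing.comap_isAlgebraic_iff (A := Algebra.adjoin L ({t} : Set K))
      (K := IntermediateField.adjoin L ({t} : Set K)) (C := K)).mpr h1
  have h3 : Algebra.trdeg L K ≤ 1 := by
    simpa using Algebra.IsAlgebraic.trdeg_le_cardinalMk L ({t} : Set K)
  have h4 : AlgebraicIndependent L (fun _ : Unit => x) := by simpa using hx
  have h5 : IsTranscendenceBasis L (fun _ : Unit => x) :=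
    h4.isTranscendenceBasis_of_lift_trdeg_le_of_finite (by simpa using h3)
  have h6 := h5.isAlgebraic_field
  have h7 : Set.range (fun _ : Unit => x) = {x} := by
    ext z; simp [eq_comm]
  rw [h7] at h6
  exact h6.isAlgebraic y

/-- an absolute value trivial on a subfield is at most `1` on elements algebraic over it -/
lemma Res_le_one {L K : Type*} [Field L] [Field K] [Algebra L K] (F : IntermediateField L K)
    (v : AbsoluteValue K ℝ) (hv : IsNonarchimedean v) (hF : ∀ c ∈ F, c ≠ 0 → v c = 1) (y : K)
    (hy : IsAlgebraic F y) : v y ≤ 1 := by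
  by_contra hcon
  push Not at hcon
  have hint : IsIntegral F y := hy.isIntegral
  set q := minpoly F y with hq
  have hmon : q.Monic := minpoly.monic hint
  have h0 : Polynomial.aeval y q = 0 := minpoly.aeval F y
  rw [Polynomial.aeval_eq_sum_range] at h0
  have h1 : v (∑ i ∈ Finset.range (q.natDegree + 1), q.coeff i • y ^ i) =
      v (q.coeff q.natDegree • y ^ q.natDegree) := by
    refine IsNonarchimedean.apply_sum_eq_of_lt hv (fun a => (v.map_neg a).symm)
      (Finset.mem_range.mpr (Nat.lt_succ_self _)) ?_
    intro j hj hjn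
    have hj' : j < q.natDegree := by
      have := Finset.mem_range.mp hj
      omega
    rw [hmon.coeff_natDegree, one_smul, Algebra.smul_def, map_mul, map_pow, map_pow]
    have h2 : v (algebraMap F K (q.coeff j)) ≤ 1 := by
      by_cases h : q.coeff j = 0
      · rw [h, map_zero, map_zero]; exact zero_le_one
      · refine (hF _ (q.coeff j).2 ?_).le
        intro h'
        exact h (Subtype.ext h')
    calc v (algebraMap F K (q.coeff j)) * v y ^ j ≤ 1 * v y ^ j :=
          mul_le_mul_of_nonneg_right h2 (pow_nonneg (v.nonneg y) j)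
      _ = v y ^ j := one_mul _
      _ < v y ^ q.natDegree := pow_lt_pow_right₀ hcon hj'
  rw [h0, map_zero, hmon.coeff_natDegree, one_smul, map_pow] at h1
  have h3 : 0 < v y ^ q.natDegree := pow_pos (zero_lt_one.trans hcon) _
  exact absurd h1 h3.ne

/-- if `v (x - c) = 1` for all constants `c`, then `v (p (x)) = 1` for all nonzero `p` -/
lemma Res_poly {L K : Type*} [Field L] [IsAlgClosed L] [Field K] [Algebra L K]
    (v : AbsoluteValue K ℝ) (hL : ∀ c : L, c ≠ 0 → v (algebraMap L K c) = 1) (x : K)
    (hx : ∀ c : L, v (x - algebraMap L K c) = 1) :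
    ∀ (n : ℕ) (p : Polynomial L), p.natDegree = n → p ≠ 0 → v (Polynomial.aeval x p) = 1 := by
  intro n
  induction n with
  | zero =>
    intro p hp hp0
    rw [Polynomial.eq_C_of_natDegree_eq_zero hp] at hp0 ⊢
    rw [Polynomial.aeval_C]
    exact hL _ (fun h => hp0 (by rw [h, Polynomial.C_0]))
  | succ n ih =>
    intro p hp hp0
    obtain ⟨c, hc⟩ := IsAlgClosed.exists_root p (by
      intro h
      have := Polynomial.natDegree_eq_zero_iff_degree_le_zero.mpr h.le
      omega)
    obtain ⟨q, hq⟩ := Polynomial.dvd_iff_isRoot.mpr hc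
    have hq0 : q ≠ 0 := by
      rintro rfl
      exact hp0 (by rw [hq, mul_zero])
    have hdeg : q.natDegree = n := by
      have := Polynomial.natDegree_mul (Polynomial.X_sub_C_ne_zero c) hq0
      rw [← hq, hp, Polynomial.natDegree_X_sub_C] at this
      omega
    rw [hq, map_mul, map_mul, ih q hdeg hq0, mul_one, map_sub, Polynomial.aeval_X,
      Polynomial.aeval_C]
    exact hx c

/-- the residue class of every integral element is a constant -/
lemma Res_exists {L K : Type*} [Field L] [IsAlgClosed L] [Field K] [Algebra L K] (t : K)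
    (halg : ∀ x : K, IsAlgebraic (IntermediateField.adjoin L ({t} : Set K)) x)
    (v : AbsoluteValue K ℝ) (hv : IsNonarchimedean v)
    (hL : ∀ c : L, c ≠ 0 → v (algebraMap L K c) = 1) (hnt : ∃ x, x ≠ 0 ∧ v x ≠ 1)
    (x : K) (hx : v x ≤ 1) : ∃ c : L, v (x - algebraMap L K c) < 1 := by
  by_contra hcon
  push Not at hcon
  have hL' : ∀ c : L, v (algebraMap L K c) ≤ 1 := by
    intro c
    by_cases h : c = 0
    · rw [h, map_zero, map_zero]; exact zero_le_one
    · exact (hL c h).le
  have h1 : ∀ c : L, v (x - algebraMap L K c) = 1 := by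
    intro c
    refine le_antisymm ?_ (hcon c)
    rw [sub_eq_add_neg]
    refine (hv _ _).trans (max_le hx ?_)
    rw [v.map_neg]
    exact hL' c
  have h2 : ∀ p : Polynomial L, p ≠ 0 → v (Polynomial.aeval x p) = 1 :=
    fun p hp => Res_poly v hL x h1 _ p rfl hp
  have htr : Transcendental L x := by
    rintro ⟨p, hp, hpx⟩
    have := h2 p hp
    rw [hpx, map_zero] at this
    exact zero_ne_one this
  have h3 : ∀ c ∈ IntermediateField.adjoin L ({x} : Set K), c ≠ 0 → v c = 1 := by
    intro c hc hc0
    obtain ⟨r, s, hrs⟩ := IntermediateField.mem_adjoin_simple_iff L c |>.mp hc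
    have hr : r ≠ 0 := by
      rintro rfl
      exact hc0 (by rw [hrs, map_zero, zero_div])
    have hs : s ≠ 0 := by
      rintro rfl
      exact hc0 (by rw [hrs, map_zero, div_zero])
    rw [hrs, map_div₀, h2 r hr, h2 s hs, div_one]
  have h4 : ∀ y : K, v y ≤ 1 := fun y =>
    Res_le_one _ v hv h3 y (Res_exchange t x halg htr y)
  obtain ⟨y, hy0, hy1⟩ := hnt
  refine hy1 (le_antisymm (h4 y) ?_)
  have h5 := h4 y⁻¹
  rw [map_inv₀] at h5
  exact (inv_le_one_iff₀.mp h5).resolve_left (not_le.mpr (v.pos hy0))

/-- `L` algebraically closed, `K` an algebraic extension of `L(t)`, `v` trivial on `L` and not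
trivial on `K`: then the residue field of `v` is `L`.
(Residue field = `vint v / {v < 1}`; if the class of `x` were transcendental over `L`, then `v`
would be trivial on `L(x)`, hence on `K`, which is algebraic over `L(x)`; so the residue field is
algebraic over `L`, i.e. equal to `L`.) -/
theorem exists_residue {L K : Type*} [Field L] [IsAlgClosed L] [Field K] [Algebra L K] (t : K)
    (halg : ∀ x : K, IsAlgebraic (IntermediateField.adjoin L ({t} : Set K)) x)
    (v : AbsoluteValue K ℝ) (hv : IsNonarchimedean v)
    (hL : ∀ c : L, c ≠ 0 → v (algebraMap L K c) = 1) (hnt : ∃ x, x ≠ 0 ∧ v x ≠ 1) :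
    ∃ φ : vint v hv →+* L, ∀ x, φ x = 0 ↔ v (x : K) < 1 := by
  have hex : ∀ x : vint v hv, ∃ c : L, v ((x : K) - algebraMap L K c) < 1 := fun x =>
    Res_exists t halg v hv hL hnt x x.2
  choose f hf using hex
  have huniq : ∀ (x : K) (c c' : L), v (x - algebraMap L K c) < 1 →
      v (x - algebraMap L K c') < 1 → c = c' := by
    intro x c c' h h'
    by_contra hne
    have h1 : v (algebraMap L K (c - c')) = 1 := hL _ (sub_ne_zero.mpr hne)
    have h2 : algebraMap L K (c - c') =
        (x - algebraMap L K c') + -(x - algebraMap L K c) := by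
      rw [map_sub]; ring
    rw [h2] at h1
    have h3 := hv (x - algebraMap L K c') (-(x - algebraMap L K c))
    rw [v.map_neg] at h3
    have h4 := h3.trans_lt (max_lt h' h)
    rw [h1] at h4
    exact lt_irrefl _ h4
  have hadd : ∀ a b : K, v a < 1 → v b < 1 → v (a + b) < 1 := fun a b ha hb =>
    (hv a b).trans_lt (max_lt ha hb)
  have hmul : ∀ a b : K, v a < 1 → v b ≤ 1 → v (a * b) < 1 := by
    intro a b ha hb
    rw [map_mul]
    calc v a * v b ≤ v a * 1 := mul_le_mul_of_nonneg_left hb (v.nonneg a)
      _ = v a := mul_one _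
      _ < 1 := ha
  have hL' : ∀ c : L, v (algebraMap L K c) ≤ 1 := by
    intro c
    by_cases h : c = 0
    · rw [h, map_zero, map_zero]; exact zero_le_one
    · exact (hL c h).le
  refine ⟨{ toFun := f, map_one' := ?_, map_mul' := ?_, map_zero' := ?_, map_add' := ?_ }, ?_⟩
  · refine huniq _ _ _ (hf 1) ?_
    rw [map_one]
    simp
  · intro a b
    refine huniq _ _ _ (hf (a * b)) ?_
    have : ((a * b : vint v hv) : K) - algebraMap L K (f a * f b) =
        ((a : K) - algebraMap L K (f a)) * (b : K) +
          ((b : K) - algebraMap L K (f b)) * algebraMap L K (f a) := by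
      rw [map_mul]; push_cast; ring
    rw [this]
    exact hadd _ _ (hmul _ _ (hf a) b.2) (hmul _ _ (hf b) (hL' _))
  · refine huniq _ _ _ (hf 0) ?_
    simp
  · intro a b
    refine huniq _ _ _ (hf (a + b)) ?_
    have : ((a + b : vint v hv) : K) - algebraMap L K (f a + f b) =
        ((a : K) - algebraMap L K (f a)) + ((b : K) - algebraMap L K (f b)) := by
      rw [map_add]; push_cast; ring
    rw [this]
    exact hadd _ _ (hf a) (hf b)
  · intro x
    constructor
    · intro h
      have h1 := hf x
      have h2 : f x = 0 := h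
      rw [h2, map_zero, sub_zero] at h1
      exact h1
    · intro h
      refine huniq x _ _ (hf x) ?_
      rw [map_zero, sub_zero]
      exact h

end Pool.Agent.W_1502ea_h54
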