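import Mathlib
import Pool.Agent.W_1502ea_h54.PL
import Pool.Agent.W_1502ea_h54.IntV
import Pool.Agent.W_1502ea_h54.Res

/-!
# Reduction of return sets at a place of good reduction
-/

set_option autoImplicit false

namespace Pool.Agent.W_1502ea_h54

open MvPolynomial

/-- all nonzero coefficients of `p` are units at `v` -/
def UnitCoeff {σ K : Type*} [Field K] (v : AbsoluteValue K ℝ) (p : MvPolynomial σ K) : Prop :=
  ∀ s, coeff s p ≠ 0 → v (coeff s p) = 1

lemma UnitCoeff.intV {σ K : Type*} [Field K] {v : AbsoluteValue K ℝ} {p : MvPolynomial σ K}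
    (h : UnitCoeff v p) : IntV v p := by
  intro m
  by_cases hm : coeff m p = 0
  · rw [hm, map_zero]
    exact zero_le_one
  · exact (h m hm).le

/-- the value of an integral polynomial at an integral point is integral -/
lemma CaseB1_eval_le {σ K : Type*} [Field K] {v : AbsoluteValue K ℝ} (hv : IsNonarchimedean v)
    {p : MvPolynomial σ K} (hp : IntV v p) {w : σ → K} (hw : ∀ k, v (w k) ≤ 1) :
    v (eval w p) ≤ 1 := by
  rw [eval_eq]
  refine IntV_sum_le hv _ zero_le_one (fun m _ => ?_)
  rw [map_mul, map_prod]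
  refine mul_le_one₀ (hp m) (Finset.prod_nonneg fun i _ => apply_nonneg v _) ?_
  refine Finset.prod_le_one (fun i _ => apply_nonneg v _) (fun i _ => ?_)
  rw [map_pow]
  exact pow_le_one₀ (apply_nonneg v _) (hw i)

/-- a finite sum of terms of absolute value less than one -/
lemma CaseB1_sum_lt {ι K : Type*} [Field K] {v : AbsoluteValue K ℝ} (hv : IsNonarchimedean v)
    (s : Finset ι) {g : ι → K} (h : ∀ i ∈ s, v (g i) < 1) : v (∑ i ∈ s, g i) < 1 := by
  classical
  induction s using Finset.induction_on with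
  | empty =>
    rw [Finset.sum_empty, map_zero]
    exact zero_lt_one
  | insert a s ha ih =>
    rw [Finset.sum_insert ha]
    exact (hv _ _).trans_lt (max_lt (h a (Finset.mem_insert_self a s))
      (ih (fun i hi => h i (Finset.mem_insert_of_mem hi))))

section

variable {K : Type*} [Field K] {v : AbsoluteValue K ℝ} (hv : IsNonarchimedean v)
  {d M : ℕ} {F : Fin 3 → MvPolynomial (Fin 3) K} {q : Fin 3 × Fin 3 → MvPolynomial (Fin 3) K}
  (hr : ∀ k, ∑ j, q (k, j) * F j = X k ^ (M + d))
  (hFv : ∀ i, IntV v (F i)) (hqv : ∀ a, IntV v (q a))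

include hv hr hFv hqv

/-- one step: unimodular vectors stay unimodular (`1 = v (w_k)^(M+d) ≤ max_j v (F_j w)`) -/
lemma unimod_pmap {w : Fin 3 → K} (h1 : ∀ k, v (w k) ≤ 1) (h2 : ∃ k, v (w k) = 1) :
    (∀ k, v (pmap F w k) ≤ 1) ∧ ∃ k, v (pmap F w k) = 1 := by
  have hle : ∀ k, v (pmap F w k) ≤ 1 := fun k => CaseB1_eval_le hv (hFv k) h1
  refine ⟨hle, ?_⟩
  obtain ⟨k, hk⟩ := h2
  by_contra hcon
  push Not at hcon
  have hlt : ∀ j, v (pmap F w j) < 1 := fun j => lt_of_le_of_ne (hle j) (hcon j)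
  have h3 := congrArg (eval w) (hr k)
  rw [map_sum, map_pow, eval_X] at h3
  have h4 : v (∑ j, eval w (q (k, j) * F j)) < 1 := by
    refine CaseB1_sum_lt hv _ (fun j _ => ?_)
    rw [map_mul, map_mul]
    calc v (eval w (q (k, j))) * v (eval w (F j)) ≤ 1 * v (eval w (F j)) :=
          mul_le_mul_of_nonneg_right (CaseB1_eval_le hv (hqv (k, j)) h1) (apply_nonneg v _)
      _ = v (eval w (F j)) := one_mul _
      _ < 1 := hlt j
  rw [h3, map_pow, hk, one_pow] at h4
  exact lt_irrefl _ h4

lemma unimod_iter {z : Fin 3 → K} (h1 : ∀ k, v (z k) ≤ 1) (h2 : ∃ k, v (z k) = 1) (n : ℕ) :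
    (∀ k, v ((pmap F)^[n] z k) ≤ 1) ∧ ∃ k, v ((pmap F)^[n] z k) = 1 := by
  induction n with
  | zero => exact ⟨h1, h2⟩
  | succ n ih =>
    rw [Function.iterate_succ_apply']
    exact unimod_pmap hv hr hFv hqv ih.1 ih.2

end

/-- integral polynomials come from polynomials over the subring `vint` -/
lemma exists_vint_lift {σ K : Type*} [Field K] {v : AbsoluteValue K ℝ} (hv : IsNonarchimedean v)
    {p : MvPolynomial σ K} (hp : IntV v p) :
    ∃ p' : MvPolynomial σ (vint v hv), MvPolynomial.map (vint v hv).subtype p' = p := by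
  have h1 : p ∈ Set.range (MvPolynomial.map (σ := σ) ((vint v hv).subtype)) := by
    rw [mem_range_map_iff_coeffs_subset]
    intro c hc
    obtain ⟨m, _, hm⟩ := mem_coeffs_iff.mp hc
    refine ⟨⟨c, ?_⟩, rfl⟩
    show v c ≤ 1
    rw [hm]
    exact hp m
  exact h1

/-- reduction modulo `v`: the return set is contained in a return set over the residue field
(`exists_vint_lift`, `NullRel.map`, `map_pmap_iter`) -/
theorem good_red {L K : Type*} [Field L] [Field K] {v : AbsoluteValue K ℝ}
    (hv : IsNonarchimedean v) (φ : vint v hv →+* L) (hφ : ∀ x, φ x = 0 ↔ v (x : K) < 1)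
    (hL : PL L) {d : ℕ} (hd : 2 ≤ d) {F : Fin 3 → MvPolynomial (Fin 3) K}
    (hF : ∀ i, (F i).IsHomogeneous d) {M : ℕ} {q : Fin 3 × Fin 3 → MvPolynomial (Fin 3) K}
    (hq : ∀ a, (q a).IsHomogeneous M) (hr : ∀ k, ∑ j, q (k, j) * F j = X k ^ (M + d))
    {f : MvPolynomial (Fin 3) K} {m : ℕ} (hf : f.IsHomogeneous m) (hf0 : f ≠ 0)
    {z : Fin 3 → K} (hz : z ≠ 0) (hFv : ∀ i, UnitCoeff v (F i)) (hqv : ∀ a, UnitCoeff v (q a))
    (hfv : UnitCoeff v f) (hzv : ∀ k, z k ≠ 0 → v (z k) = 1) :
    ∃ S' : Set ℕ, IsTame S' ∧ ret F f z ⊆ S' ∧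
      ∀ n ∈ S', v (eval ((pmap F)^[n] z) f) < 1 := by
  have hinj : Function.Injective ((vint v hv).subtype : vint v hv →+* K) :=
    Subtype.val_injective
  have hF' : ∀ i, ∃ p' : MvPolynomial (Fin 3) (vint v hv),
      MvPolynomial.map (vint v hv).subtype p' = F i := fun i => exists_vint_lift hv (hFv i).intV
  have hq' : ∀ a, ∃ p' : MvPolynomial (Fin 3) (vint v hv),
      MvPolynomial.map (vint v hv).subtype p' = q a := fun a => exists_vint_lift hv (hqv a).intV
  obtain ⟨f', hf'⟩ := exists_vint_lift hv hfv.intV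
  choose F' hF' using hF'
  choose q' hq' using hq'
  have hzi : ∀ k, v (z k) ≤ 1 := by
    intro k
    by_cases h : z k = 0
    · rw [h, map_zero]
      exact zero_le_one
    · exact (hzv k h).le
  set z' : Fin 3 → vint v hv := fun k => ⟨z k, hzi k⟩ with hz'
  have hFe : F = fun i => MvPolynomial.map (vint v hv).subtype (F' i) :=
    funext fun i => (hF' i).symm
  have hze : z = fun k => (vint v hv).subtype (z' k) := rfl
  have hF'h : ∀ i, (F' i).IsHomogeneous d := fun i =>
    IsHomogeneous.of_map hinj (by rw [hF' i]; exact hF i)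
  have hf'h : f'.IsHomogeneous m := IsHomogeneous.of_map hinj (by rw [hf']; exact hf)
  have hN : NullRel F' d := by
    refine ⟨M, q', fun a => IsHomogeneous.of_map hinj (by rw [hq' a]; exact hq a), fun k => ?_⟩
    apply map_injective _ hinj
    rw [map_sum, map_pow, map_X, ← hr k]
    refine Finset.sum_congr rfl fun j _ => ?_
    rw [map_mul, hq', hF']
  have hval : ∀ n, (vint v hv).subtype (eval ((pmap F')^[n] z') f') =
      eval ((pmap F)^[n] z) f := by
    intro n
    have h1 := map_pmap_iter (vint v hv).subtype F' n z'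
    rw [← hFe, ← hze] at h1
    rw [h1, ← hf', eval_map]
    rw [eval₂_comp]
    rfl
  have hvalφ : ∀ n, φ (eval ((pmap F')^[n] z') f') =
      eval ((pmap fun i => MvPolynomial.map φ (F' i))^[n] (fun k => φ (z' k)))
        (MvPolynomial.map φ f') := by
    intro n
    rw [map_pmap_iter, eval_map, eval₂_comp]
    rfl
  refine ⟨ret (fun i => MvPolynomial.map φ (F' i)) (MvPolynomial.map φ f') (fun k => φ (z' k)),
    ?_, ?_, ?_⟩
  · refine hL d hd _ (fun i => (hF'h i).map φ) (hN.map φ) _ m (hf'h.map φ) ?_ _ ?_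
    · intro h0
      obtain ⟨s, hs⟩ := MvPolynomial.ne_zero_iff.mp hf0
      have h1 : φ (coeff s f') = 0 := by
        rw [← coeff_map, h0, coeff_zero]
      rw [hφ] at h1
      have h2 : ((coeff s f' : vint v hv) : K) = coeff s f := by
        rw [← hf', coeff_map]
        rfl
      rw [h2, hfv s hs] at h1
      exact lt_irrefl _ h1
    · intro h0
      apply hz
      funext k
      by_contra hk
      have h1 : φ (z' k) = 0 := congrFun h0 k
      rw [hφ] at h1
      have h2 : ((z' k : vint v hv) : K) = z k := rfl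
      rw [h2, hzv k hk] at h1
      exact lt_irrefl _ h1
  · intro n hn
    have h1 : eval ((pmap F)^[n] z) f = 0 := hn
    rw [← hval n, map_eq_zero_iff _ hinj] at h1
    show eval ((pmap fun i => MvPolynomial.map φ (F' i))^[n] (fun k => φ (z' k)))
      (MvPolynomial.map φ f') = 0
    rw [← hvalφ n, h1, map_zero]
  · intro n hn
    have h1 : eval ((pmap fun i => MvPolynomial.map φ (F' i))^[n] (fun k => φ (z' k)))
      (MvPolynomial.map φ f') = 0 := hn
    rw [← hvalφ n, hφ] at h1
    rw [← hval n]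
    exact h1

end Pool.Agent.W_1502ea_h54
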