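import Mathlib
import Pool.Agent.W_1502ea_h54.CaseB1

/-!
# Bounded heights: the return set is a finite intersection of return sets over the residue field
-/

set_option autoImplicit false

namespace Pool.Agent.W_1502ea_h54

open MvPolynomial Height AdmissibleAbsValues

/-- the nonzero coefficients of finitely many polynomials are units at almost all places -/
lemma finite_bad {K : Type*} [Field K] [AdmissibleAbsValues K] {ι σ : Type*} [Finite ι]
    (p : ι → MvPolynomial σ K) :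
    {v : AbsoluteValue K ℝ | v ∈ nonarchAbsVal ∧ ¬ ∀ i, UnitCoeff v (p i)}.Finite := by
  have h1 : ∀ i, ∀ m ∈ (p i).support,
      {v : nonarchAbsVal (K := K) | v.val (coeff m (p i)) ≠ 1}.Finite := by
    intro i m hm
    exact hasFiniteMulSupport (mem_support_iff.mp hm)
  have h2 : (⋃ i, ⋃ m ∈ (p i).support,
      {v : nonarchAbsVal (K := K) | v.val (coeff m (p i)) ≠ 1}).Finite :=
    Set.finite_iUnion fun i => (p i).support.finite_toSet.biUnion fun m hm => h1 i m hm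
  refine (h2.image Subtype.val).subset ?_
  rintro v ⟨hv, hv2⟩
  simp only [UnitCoeff, not_forall] at hv2
  obtain ⟨i, m, hm, hne⟩ := hv2
  refine ⟨⟨v, hv⟩, ?_, rfl⟩
  simp only [Set.mem_iUnion]
  exact ⟨i, m, mem_support_iff.mpr hm, hne⟩

lemma finite_bad_coord {K : Type*} [Field K] [AdmissibleAbsValues K] (z : Fin 3 → K) :
    {v : AbsoluteValue K ℝ | v ∈ nonarchAbsVal ∧ ¬ ∀ k, z k ≠ 0 → v (z k) = 1}.Finite := by
  have h1 : ∀ k, {v : nonarchAbsVal (K := K) | z k ≠ 0 ∧ v.val (z k) ≠ 1}.Finite := by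
    intro k
    by_cases hk : z k = 0
    · simp [hk]
    · refine Set.Finite.subset (hasFiniteMulSupport hk) ?_
      rintro v ⟨-, hv⟩
      exact hv
  refine ((Set.finite_iUnion h1).image Subtype.val).subset ?_
  rintro v ⟨hv, hv2⟩
  simp only [not_forall] at hv2
  obtain ⟨k, hk, hne⟩ := hv2
  refine ⟨⟨v, hv⟩, ?_, rfl⟩
  simp only [Set.mem_iUnion]
  exact ⟨k, hk, hne⟩

/-- an ultrametric sum is bounded by a bound for the terms -/
lemma CaseB2_sum_le {K : Type*} [Field K] {v : AbsoluteValue K ℝ} (hv : IsNonarchimedean v)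
    {ι : Type*} (s : Finset ι) {g : ι → K} {B : ℝ} (hB : 0 ≤ B) (h : ∀ i ∈ s, v (g i) ≤ B) :
    v (∑ i ∈ s, g i) ≤ B := by
  classical
  induction s using Finset.induction_on with
  | empty => simpa using hB
  | insert a s ha ih =>
    rw [Finset.sum_insert ha]
    refine (hv _ _).trans (max_le (h a (Finset.mem_insert_self _ _))
      (ih fun i hi => h i (Finset.mem_insert_of_mem hi)))

/-- the maximum of the absolute values of the coefficients -/
noncomputable def cmaxB {K : Type*} [Field K] (v : AbsoluteValue K ℝ)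
    (f : MvPolynomial (Fin 3) K) : ℝ := ⨆ s : f.support, v (coeff s.1 f)

lemma cmaxB_ge {K : Type*} [Field K] (v : AbsoluteValue K ℝ) (f : MvPolynomial (Fin 3) K)
    {s : Fin 3 →₀ ℕ} (hs : s ∈ f.support) : v (coeff s f) ≤ cmaxB v f :=
  le_ciSup (f := fun s : f.support => v (coeff s.1 f)) (Finite.bddAbove_range _) ⟨s, hs⟩

lemma cmaxB_pos {K : Type*} [Field K] (v : AbsoluteValue K ℝ) {f : MvPolynomial (Fin 3) K}
    (hf : f ≠ 0) : 0 < cmaxB v f := by
  obtain ⟨s, hs⟩ := support_nonempty.mpr hf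
  exact (v.pos (mem_support_iff.mp hs)).trans_le (cmaxB_ge v f hs)

lemma cmaxB_eq_one {K : Type*} [Field K] {v : AbsoluteValue K ℝ} {f : MvPolynomial (Fin 3) K}
    (hf : f ≠ 0) (h : UnitCoeff v f) : cmaxB v f = 1 := by
  obtain ⟨s, hs⟩ := support_nonempty.mpr hf
  have : Nonempty f.support := ⟨⟨s, hs⟩⟩
  have h1 : (fun s : f.support => v (coeff s.1 f)) = fun _ => 1 := by
    funext s
    exact h s.1 (mem_support_iff.mp s.2)
  unfold cmaxB
  rw [h1, ciSup_const]

lemma CaseB2_eval_le {K : Type*} [Field K] {v : AbsoluteValue K ℝ} (hv : IsNonarchimedean v)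
    {f : MvPolynomial (Fin 3) K} {m : ℕ} (hf : f.IsHomogeneous m) (hf0 : f ≠ 0)
    (w : Fin 3 → K) : v (eval w f) ≤ cmaxB v f * (⨆ i, v (w i)) ^ m := by
  have hle : ∀ i, v (w i) ≤ ⨆ i, v (w i) := fun i =>
    le_ciSup (Finite.bddAbove_range (fun i => v (w i))) i
  have h0 : 0 ≤ ⨆ i, v (w i) := (apply_nonneg v (w 0)).trans (hle 0)
  rw [eval_eq']
  refine CaseB2_sum_le hv _ (mul_nonneg (cmaxB_pos v hf0).le (pow_nonneg h0 m)) (fun d hd => ?_)
  have hde : ∑ i, d i = m := by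
    have h1 := hf (mem_support_iff.1 hd)
    rw [← h1, Finsupp.weight_apply, Finsupp.sum_fintype _ _ (fun i => by simp)]
    simp
  rw [map_mul, map_prod]
  have h2 : ∏ i, v (w i ^ d i) ≤ (⨆ i, v (w i)) ^ m := by
    rw [← hde, ← Finset.prod_pow_eq_pow_sum]
    refine Finset.prod_le_prod (fun i _ => apply_nonneg v _) (fun i _ => ?_)
    rw [map_pow]
    exact pow_le_pow_left₀ (apply_nonneg v _) (hle i) _
  exact mul_le_mul (cmaxB_ge v f hd) h2 (Finset.prod_nonneg fun i _ => apply_nonneg v _)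
    (cmaxB_pos v hf0).le

/-- consequence of the product formula: `1 = ∏ v(x) ≤ exp(-|W|) ∏ |f|_v ‖w‖_v^m` for
`x = f(w) ≠ 0`, where `|f|_v` is the maximum of the absolute values of the coefficients (or use
`g v = v(x)⁻¹ |f|_v ‖w‖_v^m`, which is at least `1` everywhere and at least `e` on `W`) -/
theorem card_places_le {K : Type*} [Field K] [AdmissibleAbsValues K]
    (harch : archAbsVal (K := K) = 0) {f : MvPolynomial (Fin 3) K} {m : ℕ}
    (hf : f.IsHomogeneous m) (hf0 : f ≠ 0) :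
    ∃ C : ℝ, ∀ (w : Fin 3 → K), eval w f ≠ 0 → ∀ W : Finset (AbsoluteValue K ℝ),
      (∀ v ∈ W, v ∈ nonarchAbsVal ∧ UnitCoeff v f ∧ (∃ k, v (w k) = 1) ∧
        v (eval w f) ≤ Real.exp (-1)) → (W.card : ℝ) ≤ C + m * logHeight w := by
  classical
  set cc : nonarchAbsVal (K := K) → ℝ := fun v => cmaxB v.1 f with hcc
  have hccfin : cc.HasFiniteMulSupport := by
    have h1 := finite_bad (K := K) (fun _ : Unit => f)
    refine Set.Finite.subset (h1.preimage (f := Subtype.val) Subtype.val_injective.injOn) ?_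
    intro v hv
    refine ⟨v.2, fun h => hv ?_⟩
    exact cmaxB_eq_one hf0 (h ())
  refine ⟨max 0 (Real.log (∏ᶠ v, cc v)), ?_⟩
  intro w hx W hW
  by_cases hw : w = 0
  · have hWe : W = ∅ := by
      rw [Finset.eq_empty_iff_forall_notMem]
      intro v hv
      obtain ⟨-, -, ⟨k, hk⟩, -⟩ := hW v hv
      rw [hw] at hk
      simp at hk
    subst hWe
    rw [hw, logHeight_zero]
    simp
  set aa : nonarchAbsVal (K := K) → ℝ := fun v => v.1 (eval w f) with haa
  have haafin : aa.HasFiniteMulSupport := hasFiniteMulSupport hx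
  have haaprod : ∏ᶠ v, aa v = 1 := by
    have h := product_formula hx
    rw [harch] at h
    simpa using h
  set hh : nonarchAbsVal (K := K) → ℝ := fun v => ⨆ i, v.1 (w i) with hhh
  have hhfin : hh.HasFiniteMulSupport := by
    have h1 := finite_bad_coord (K := K) w
    refine Set.Finite.subset (h1.preimage (f := Subtype.val) Subtype.val_injective.injOn) ?_
    intro v hv
    refine ⟨v.2, fun h => hv ?_⟩
    obtain ⟨k, hk⟩ := Function.ne_iff.mp hw
    refine le_antisymm (ciSup_le fun i => ?_) ?_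
    · by_cases hi : w i = 0
      · rw [hi]; simp
      · exact (h i hi).le
    · rw [← h k hk]
      exact le_ciSup (Finite.bddAbove_range (fun i => v.1 (w i))) k
  have hhprod : mulHeight w = ∏ᶠ v, hh v := by
    rw [mulHeight_eq hw, harch]
    simp [hhh]
  have hhpos : ∀ v, 0 < hh v := by
    intro v
    obtain ⟨k, hk⟩ := Function.ne_iff.mp hw
    exact (v.1.pos hk).trans_le (le_ciSup (Finite.bddAbove_range (fun i => v.1 (w i))) k)
  set gg : nonarchAbsVal (K := K) → ℝ := fun v => (aa v)⁻¹ * (cc v * hh v ^ m) with hgg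
  have hggprod : ∏ᶠ v, gg v = (∏ᶠ v, cc v) * mulHeight w ^ m := by
    have e1 : ∏ᶠ v, gg v = (∏ᶠ v, (aa v)⁻¹) * ∏ᶠ v, (cc v * hh v ^ m) := by
      refine finprod_mul_distrib ?_ ?_
      · exact haafin.inv
      · exact hccfin.mul (hhfin.pow m)
    have e2 : ∏ᶠ v, (cc v * hh v ^ m) = (∏ᶠ v, cc v) * ∏ᶠ v, hh v ^ m :=
      finprod_mul_distrib hccfin (hhfin.pow m)
    have e3 : ∏ᶠ v, hh v ^ m = (∏ᶠ v, hh v) ^ m := (finprod_pow hhfin m).symm
    have e4 : ∏ᶠ v, (aa v)⁻¹ = (∏ᶠ v, aa v)⁻¹ := finprod_inv_distrib _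
    rw [e1, e2, e3, e4, haaprod, hhprod]
    simp
  have hgg1 : ∀ v, 1 ≤ gg v := by
    intro v
    have h1 : 0 < aa v := v.1.pos hx
    have h2 : aa v ≤ cc v * hh v ^ m :=
      CaseB2_eval_le (AdmissibleAbsValues.isNonarchimedean v.1 v.2) hf hf0 w
    show 1 ≤ (aa v)⁻¹ * (cc v * hh v ^ m)
    rw [inv_mul_eq_div, one_le_div h1]
    exact h2
  have hggW : ∀ v : nonarchAbsVal (K := K), v.1 ∈ W → Real.exp 1 ≤ gg v := by
    intro v hv
    obtain ⟨-, hu, ⟨k, hk⟩, hle⟩ := hW v.1 hv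
    have h1 : 0 < aa v := v.1.pos hx
    have h2 : cc v = 1 := cmaxB_eq_one hf0 hu
    have h3 : 1 ≤ hh v := by
      rw [← hk]
      exact le_ciSup (Finite.bddAbove_range (fun i => v.1 (w i))) k
    show Real.exp 1 ≤ (aa v)⁻¹ * (cc v * hh v ^ m)
    rw [h2, one_mul]
    have h4 : Real.exp 1 ≤ (aa v)⁻¹ := by
      have h5 : aa v ≤ (Real.exp 1)⁻¹ := by
        rw [← Real.exp_neg]; exact hle
      exact (le_inv_comm₀ (Real.exp_pos 1) h1).mpr h5
    calc Real.exp 1 = Real.exp 1 * 1 := (mul_one _).symm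
      _ ≤ (aa v)⁻¹ * hh v ^ m :=
        mul_le_mul h4 (one_le_pow₀ h3) zero_le_one (inv_nonneg.mpr h1.le)
  have hggfin : gg.HasFiniteMulSupport := haafin.inv.mul (hccfin.mul (hhfin.pow m))
  -- the finite set of places
  set W' : Finset (nonarchAbsVal (K := K)) := W.attach.image (fun v => ⟨v.1, (hW v.1 v.2).1⟩)
    with hW'
  have hW'card : W'.card = W.card := by
    rw [hW', Finset.card_image_of_injective, Finset.card_attach]
    intro a b hab
    apply Subtype.ext
    exact congrArg (fun x : nonarchAbsVal (K := K) => x.1) hab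
  have hW'mem : ∀ v ∈ W', v.1 ∈ W := by
    intro v hv
    rw [hW', Finset.mem_image] at hv
    obtain ⟨u, -, rfl⟩ := hv
    exact u.2
  have hbig : Real.exp 1 ^ W.card ≤ ∏ᶠ v, gg v := by
    have hsub : Function.mulSupport gg ⊆ ((hggfin.toFinset ∪ W' : Finset _) : Set _) := by
      intro v hv
      rw [Finset.coe_union]
      left
      exact (Set.Finite.mem_toFinset hggfin).mpr hv
    rw [finprod_eq_prod_of_mulSupport_subset _ hsub, ← hW'card]
    calc Real.exp 1 ^ W'.card = ∏ _v ∈ W', Real.exp 1 := by rw [Finset.prod_const]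
      _ ≤ ∏ v ∈ W', gg v := Finset.prod_le_prod (fun _ _ => (Real.exp_pos 1).le)
          fun v hv => hggW v (hW'mem v hv)
      _ ≤ ∏ v ∈ hggfin.toFinset ∪ W', gg v := by
          rw [← Finset.prod_sdiff (Finset.subset_union_right : W' ⊆ hggfin.toFinset ∪ W')]
          refine le_mul_of_one_le_left (Finset.prod_nonneg fun v _ =>
            zero_le_one.trans (hgg1 v)) (Finset.one_le_prod fun v _ => hgg1 v)
  rw [hggprod] at hbig
  have hcpos : 0 < ∏ᶠ v, cc v := by
    rw [finprod_eq_prod _ hccfin]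
    exact Finset.prod_pos fun v _ => cmaxB_pos v.1 hf0
  have hlog := Real.log_le_log (pow_pos (Real.exp_pos 1) _) hbig
  rw [Real.log_pow, Real.log_exp, mul_one, Real.log_mul hcpos.ne'
    (pow_pos (mulHeight_pos w) m).ne', Real.log_pow, ← logHeight_eq_log_mulHeight] at hlog
  linarith [le_max_right 0 (Real.log (∏ᶠ v, cc v))]

/-- bounded heights -/
theorem caseB {L K : Type*} [Field L] [Field K] [AdmissibleAbsValues K]
    (harch : archAbsVal (K := K) = 0) (hinf : (nonarchAbsVal (K := K)).Infinite)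
    (hdisc : ∀ v ∈ nonarchAbsVal (K := K), ∀ x, v x < 1 → v x ≤ Real.exp (-1))
    (hres : ∀ (v : AbsoluteValue K ℝ) (hv : v ∈ nonarchAbsVal),
      ∃ φ : vint v (isNonarchimedean v hv) →+* L, ∀ x, φ x = 0 ↔ v (x : K) < 1)
    (hL : PL L) {d : ℕ} (hd : 2 ≤ d) {F : Fin 3 → MvPolynomial (Fin 3) K}
    (hF : ∀ i, (F i).IsHomogeneous d) (hN : NullRel F d)
    {f : MvPolynomial (Fin 3) K} {m : ℕ} (hf : f.IsHomogeneous m) (hf0 : f ≠ 0)
    {z : Fin 3 → K} (hz : z ≠ 0) {B : ℝ} (hB : ∀ n, logHeight ((pmap F)^[n] z) ≤ B) :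
    IsTame (ret F f z) := by
  classical
  obtain ⟨M, q, hq, hr⟩ := hN
  obtain ⟨C, hC⟩ := card_places_le harch hf hf0
  -- the bad places
  set bad : Set (AbsoluteValue K ℝ) :=
    {v | v ∈ nonarchAbsVal ∧ ¬ ∀ i, UnitCoeff v (F i)} ∪
    {v | v ∈ nonarchAbsVal ∧ ¬ ∀ i, UnitCoeff v (q i)} ∪
    {v | v ∈ nonarchAbsVal ∧ ¬ ∀ i : Unit, UnitCoeff v ((fun _ => f) i)} ∪
    {v | v ∈ nonarchAbsVal ∧ ¬ ∀ k, z k ≠ 0 → v (z k) = 1} with hbad
  have hbadfin : bad.Finite :=
    (((finite_bad F).union (finite_bad q)).union (finite_bad (fun _ : Unit => f))).union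
      (finite_bad_coord z)
  have hgoodinf : (nonarchAbsVal (K := K) \ bad).Infinite := hinf.sdiff hbadfin
  obtain ⟨N, hN⟩ := exists_nat_gt (C + m * B)
  obtain ⟨V, hV, hVcard⟩ := hgoodinf.exists_subset_card_eq N
  have hgood : ∀ v ∈ V, v ∈ nonarchAbsVal (K := K) ∧ (∀ i, UnitCoeff v (F i)) ∧
      (∀ a, UnitCoeff v (q a)) ∧ UnitCoeff v f ∧ (∀ k, z k ≠ 0 → v (z k) = 1) := by
    intro v hv
    have h1 := hV hv
    obtain ⟨hv1, hv2⟩ := h1
    have h2 : ¬ (v ∈ nonarchAbsVal ∧ ¬ ∀ i, UnitCoeff v (F i)) := fun h =>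
      hv2 (Or.inl (Or.inl (Or.inl h)))
    have h3 : ¬ (v ∈ nonarchAbsVal ∧ ¬ ∀ i, UnitCoeff v (q i)) := fun h =>
      hv2 (Or.inl (Or.inl (Or.inr h)))
    have h4 : ¬ (v ∈ nonarchAbsVal ∧ ¬ ∀ i : Unit, UnitCoeff v ((fun _ => f) i)) := fun h =>
      hv2 (Or.inl (Or.inr h))
    have h5 : ¬ (v ∈ nonarchAbsVal ∧ ¬ ∀ k, z k ≠ 0 → v (z k) = 1) := fun h =>
      hv2 (Or.inr h)
    refine ⟨hv1, ?_, ?_, ?_, ?_⟩
    · by_contra h; exact h2 ⟨hv1, h⟩
    · by_contra h; exact h3 ⟨hv1, h⟩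
    · by_contra h; exact h4 ⟨hv1, fun h' => h (h' ())⟩
    · by_contra h; exact h5 ⟨hv1, h⟩
  have hS : ∀ v ∈ V, ∃ S' : Set ℕ, IsTame S' ∧ ret F f z ⊆ S' ∧
      ∀ n ∈ S', v (eval ((pmap F)^[n] z) f) < 1 := by
    intro v hv
    obtain ⟨hv1, hvF, hvq, hvf, hvz⟩ := hgood v hv
    obtain ⟨φ, hφ⟩ := hres v hv1
    exact good_red (isNonarchimedean v hv1) φ hφ hL hd hF hq hr hf hf0 hz hvF hvq hvf hvz
  choose! S hS1 hS2 hS3 using hS
  have hret : ret F f z = ⋂ v ∈ V, S v := by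
    apply Set.Subset.antisymm
    · exact Set.subset_iInter₂ hS2
    · intro n hn
      by_contra hx
      have hx' : eval ((pmap F)^[n] z) f ≠ 0 := hx
      have h1 := hC ((pmap F)^[n] z) hx' V (by
        intro v hv
        obtain ⟨hv1, hvF, hvq, hvf, hvz⟩ := hgood v hv
        have hna := isNonarchimedean v hv1
        refine ⟨hv1, hvf, ?_, hdisc v hv1 _ (hS3 v hv n (Set.mem_iInter₂.mp hn v hv))⟩
        obtain ⟨k, hk⟩ := Function.ne_iff.mp hz
        exact (unimod_iter hna hr (fun i => (hvF i).intV) (fun a => (hvq a).intV)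
          (fun i => by
            by_cases hi : z i = 0
            · rw [hi]; simp
            · exact (hvz i hi).le) ⟨k, hvz k hk⟩ n).2)
      rw [hVcard] at h1
      have h2 := mul_le_mul_of_nonneg_left (hB n) (Nat.cast_nonneg (α := ℝ) m)
      linarith
  rw [hret]
  exact isTame_biInter V hS1

end Pool.Agent.W_1502ea_h54
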