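import Mathlib

/-!
# Gauss lemma: the resultant of an irreducible polynomial and a polynomial it does not divide
-/

set_option autoImplicit false

namespace Pool.Agent.W_1502ea_h54

open MvPolynomial

variable {K : Type*} [Field K]

/-- GAUSS LEMMA PART.  `f` irreducible in `K[x_0,x_1,x_2] = K[x_1,x_2][x_0]`, `f` does not divide `g`
and `f` really involves `x_0`: then the resultant with respect to `x_0` is nonzero.
(`f` is primitive and irreducible over the fraction field of `K[x_1,x_2]` by Gauss, does not divide
`g` there (`Polynomial.IsPrimitive.dvd_of_fraction_map_dvd_fraction_map` or content arguments), so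
the two are coprime there; `Polynomial.resultant_eq_zero_iff`, `Polynomial.resultant_map_map`.) -/
lemma resultant_ne_zero {f g : MvPolynomial (Fin 3) K} (hf : Irreducible f) (hfg : ¬ f ∣ g)
    (h0 : (finSuccEquiv K 2 f).natDegree ≠ 0) :
    Polynomial.resultant (finSuccEquiv K 2 f) (finSuccEquiv K 2 g)
      (finSuccEquiv K 2 f).natDegree (finSuccEquiv K 2 g).natDegree ≠ 0 := by
  classical
  obtain ⟨F, hF⟩ : ∃ F, F = finSuccEquiv K 2 f := ⟨_, rfl⟩
  obtain ⟨G, hG⟩ : ∃ G, G = finSuccEquiv K 2 g := ⟨_, rfl⟩
  have hFi : Irreducible F := by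
    rw [hF]
    exact (MulEquiv.irreducible_iff (finSuccEquiv K 2)).mpr hf
  have hFG : ¬ F ∣ G := by
    intro h
    apply hfg
    rw [hF, hG] at h
    exact (map_dvd_iff (finSuccEquiv K 2)).mp h
  rw [← hF] at h0
  rw [← hF, ← hG]
  have hprim : F.IsPrimitive := hFi.isPrimitive h0
  let L := FractionRing (MvPolynomial (Fin 2) K)
  have hFi' : Irreducible (F.map (algebraMap (MvPolynomial (Fin 2) K) L)) :=
    (hprim.irreducible_iff_irreducible_map_fraction_map (K := L)).mp hFi
  intro hres
  have hinj : Function.Injective (algebraMap (MvPolynomial (Fin 2) K) L) :=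
    IsFractionRing.injective _ _
  have h1 : Polynomial.resultant (F.map (algebraMap (MvPolynomial (Fin 2) K) L))
      (G.map (algebraMap (MvPolynomial (Fin 2) K) L)) = 0 := by
    rw [Polynomial.natDegree_map_eq_of_injective hinj, Polynomial.natDegree_map_eq_of_injective hinj,
      Polynomial.resultant_map_map, hres, map_zero]
  rw [Polynomial.resultant_eq_zero_iff] at h1
  have h2 : ¬ IsCoprime (F.map (algebraMap (MvPolynomial (Fin 2) K) L))
      (G.map (algebraMap (MvPolynomial (Fin 2) K) L)) := by
    exact h1.2
  apply hFG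
  apply hprim.dvd_of_fraction_map_dvd_fraction_map (K := L)
  exact hFi'.dvd_iff_not_isCoprime.mpr h2

end Pool.Agent.W_1502ea_h54
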