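import Mathlib

/-!
# The `ℓ¹` norm of a polynomial for an absolute value, and its behaviour under composition
-/

set_option autoImplicit false

namespace Pool.Agent.W_1502ea_h54

open MvPolynomial

variable {R : Type*} [CommRing R] (v : AbsoluteValue R ℝ) {σ τ : Type*}

/-- sum of the absolute values of the coefficients -/
noncomputable def nrm (p : MvPolynomial σ R) : ℝ := ∑ m ∈ p.support, v (coeff m p)

lemma nrm_nonneg (p : MvPolynomial σ R) : 0 ≤ nrm v p :=
  Finset.sum_nonneg fun _ _ => v.nonneg _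

/-- the sum may be taken over any finite set containing the support -/
lemma nrm_eq_sum {p : MvPolynomial σ R} {s : Finset (σ →₀ ℕ)} (h : p.support ⊆ s) :
    nrm v p = ∑ m ∈ s, v (coeff m p) := by
  apply Finset.sum_subset h
  intro m _ hm
  rw [notMem_support_iff.mp hm, v.map_zero]

lemma nrm_zero : nrm v (0 : MvPolynomial σ R) = 0 := by
  simp [nrm]

lemma nrm_monomial (m : σ →₀ ℕ) (c : R) : nrm v (monomial m c) = v c := by
  classical
  rw [nrm_eq_sum v (support_monomial_subset (s := m) (a := c)), Finset.sum_singleton,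
    coeff_monomial, if_pos rfl]

lemma nrm_C (c : R) : nrm v (C c : MvPolynomial σ R) = v c :=
  nrm_monomial v 0 c

lemma nrm_X [Nontrivial R] (i : σ) : nrm v (X i : MvPolynomial σ R) = 1 := by
  rw [X, nrm_monomial, v.map_one]

lemma nrm_neg (p : MvPolynomial σ R) : nrm v (-p) = nrm v p := by
  rw [nrm, nrm, support_neg]
  exact Finset.sum_congr rfl fun m _ => by rw [coeff_neg, v.map_neg]

lemma nrm_add_le (p q : MvPolynomial σ R) : nrm v (p + q) ≤ nrm v p + nrm v q := by
  classical
  rw [nrm_eq_sum v (support_add (p := p) (q := q)),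
    nrm_eq_sum v (Finset.subset_union_left : p.support ⊆ p.support ∪ q.support),
    nrm_eq_sum v (Finset.subset_union_right : q.support ⊆ p.support ∪ q.support),
    ← Finset.sum_add_distrib]
  exact Finset.sum_le_sum fun m _ => by rw [coeff_add]; exact v.add_le _ _

lemma nrm_sum_le {ι : Type*} (s : Finset ι) (p : ι → MvPolynomial σ R) :
    nrm v (∑ i ∈ s, p i) ≤ ∑ i ∈ s, nrm v (p i) := by
  classical
  induction s using Finset.induction_on with
  | empty => simp [nrm_zero]
  | insert a s ha ih =>
    rw [Finset.sum_insert ha, Finset.sum_insert ha]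
    exact (nrm_add_le v _ _).trans (add_le_add le_rfl ih)

lemma Nrm_monomial_mul_le (m : σ →₀ ℕ) (c : R) (q : MvPolynomial σ R) :
    nrm v (monomial m c * q) ≤ v c * nrm v q := by
  conv_lhs => rw [as_sum q, Finset.mul_sum]
  refine (nrm_sum_le v _ _).trans ?_
  rw [nrm, Finset.mul_sum]
  apply Finset.sum_le_sum
  intro m' _
  rw [monomial_mul, nrm_monomial, v.map_mul]

lemma nrm_mul_le (p q : MvPolynomial σ R) : nrm v (p * q) ≤ nrm v p * nrm v q := by
  conv_lhs => rw [as_sum p, Finset.sum_mul]
  refine (nrm_sum_le v _ _).trans ?_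
  conv_rhs => rw [nrm, Finset.sum_mul]
  exact Finset.sum_le_sum fun m _ => Nrm_monomial_mul_le v m _ q

lemma nrm_C_mul (c : R) (p : MvPolynomial σ R) : nrm v (C c * p) = v c * nrm v p := by
  have h1 : (C c * p).support ⊆ p.support := by
    intro m hm
    rw [mem_support_iff, coeff_C_mul] at hm
    rw [mem_support_iff]
    intro h0
    rw [h0, mul_zero] at hm
    exact hm rfl
  rw [nrm_eq_sum v h1, nrm, Finset.mul_sum]
  exact Finset.sum_congr rfl fun m _ => by rw [coeff_C_mul, v.map_mul]

lemma nrm_prod_le [Nontrivial R] {ι : Type*} (s : Finset ι)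
    (p : ι → MvPolynomial σ R) : nrm v (∏ i ∈ s, p i) ≤ ∏ i ∈ s, nrm v (p i) := by
  classical
  induction s using Finset.induction_on with
  | empty =>
    rw [Finset.prod_empty, Finset.prod_empty, ← C_1, nrm_C, v.map_one]
  | insert a s ha ih =>
    rw [Finset.prod_insert ha, Finset.prod_insert ha]
    exact (nrm_mul_le v _ _).trans (mul_le_mul_of_nonneg_left ih (nrm_nonneg v _))

lemma nrm_pow_le [Nontrivial R] (p : MvPolynomial σ R) (n : ℕ) :
    nrm v (p ^ n) ≤ nrm v p ^ n := by
  have h1 := nrm_prod_le v (Finset.range n) (fun _ => p)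
  rwa [Finset.prod_const, Finset.prod_const, Finset.card_range] at h1

lemma nrm_rename_equiv (e : σ ≃ τ) (p : MvPolynomial σ R) : nrm v (rename e p) = nrm v p := by
  classical
  rw [nrm, support_rename_of_injective e.injective, Finset.sum_image]
  · exact Finset.sum_congr rfl fun m _ => by
      rw [coeff_rename_mapDomain _ e.injective]
  · intro a _ b _ hab
    exact Finsupp.mapDomain_injective e.injective hab

lemma coeff_le_nrm (p : MvPolynomial σ R) (m : σ →₀ ℕ) : v (coeff m p) ≤ nrm v p := by
  by_cases hm : m ∈ p.support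
  · exact Finset.single_le_sum (f := fun m => v (coeff m p)) (fun _ _ => v.nonneg _) hm
  · rw [notMem_support_iff.mp hm, v.map_zero]
    exact nrm_nonneg v p

/-- composition: if `f` is homogeneous of degree `e` and all `P i` have norm at most `A`, then
`f(P)` has norm at most `nrm f * A ^ e` -/
lemma nrm_bind₁_le [Nontrivial R] {f : MvPolynomial σ R} {e : ℕ}
    (hf : f.IsHomogeneous e) (P : σ → MvPolynomial τ R) {A : ℝ} (h0 : 0 ≤ A)
    (hA : ∀ i, nrm v (P i) ≤ A) :
    nrm v (bind₁ P f) ≤ nrm v f * A ^ e := by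
  have h1 : bind₁ P f = ∑ m ∈ f.support, C (coeff m f) * ∏ i ∈ m.support, P i ^ m i :=
    eval₂_eq (algebraMap R (MvPolynomial τ R)) P f
  rw [h1]
  refine (nrm_sum_le v _ _).trans ?_
  rw [nrm, Finset.sum_mul]
  apply Finset.sum_le_sum
  intro m hm
  rw [nrm_C_mul]
  apply mul_le_mul_of_nonneg_left _ (v.nonneg _)
  have h2 : ∏ i ∈ m.support, A ^ m i = A ^ e := by
    rw [Finset.prod_pow_eq_pow_sum]
    congr 1
    have h2 : Finsupp.weight 1 m = e := hf (mem_support_iff.mp hm)
    rw [← h2, Finsupp.weight_apply, Finsupp.sum]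
    simp
  rw [← h2]
  refine (nrm_prod_le v _ _).trans ?_
  apply Finset.prod_le_prod (fun i _ => nrm_nonneg v _)
  intro i _
  exact (nrm_pow_le v _ _).trans (pow_le_pow_left₀ (nrm_nonneg v _) (hA i) _)

end Pool.Agent.W_1502ea_h54
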