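import Mathlib
import Pool.Agent.W_1502ea_h54.Nrm

/-!
# Norm of a determinant and of a resultant
-/

set_option autoImplicit false

namespace Pool.Agent.W_1502ea_h54

open MvPolynomial

variable {R : Type*} [CommRing R] [Nontrivial R] (v : AbsoluteValue R ℝ) {σ : Type*}

/-- the `ℓ¹` norm of a determinant is at most the product over the columns of the sums of the norms
of the entries (expand the product of sums and keep only the permutations; `nrm_neg` for signs) -/
lemma nrm_det_le {n : ℕ} (M : Matrix (Fin n) (Fin n) (MvPolynomial σ R)) :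
    nrm v M.det ≤ ∏ j, ∑ i, nrm v (M i j) := by
  classical
  have hs : ∀ (s : Equiv.Perm (Fin n)),
      nrm v (Equiv.Perm.sign s • ∏ i, M (s i) i) ≤ ∏ i, nrm v (M (s i) i) := by
    intro s
    refine le_trans (le_of_eq ?_) (nrm_prod_le v Finset.univ fun i => M (s i) i)
    rcases Int.units_eq_one_or (Equiv.Perm.sign s) with h | h
    · rw [h, one_smul]
    · rw [h, Units.neg_smul, one_smul, nrm_neg]
  have h0 : ∀ f : Fin n → Fin n, 0 ≤ ∏ i, nrm v (M (f i) i) := fun f =>
    Finset.prod_nonneg fun i _ => nrm_nonneg v _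
  calc nrm v M.det = nrm v (∑ s : Equiv.Perm (Fin n),
        Equiv.Perm.sign s • ∏ i, M (s i) i) := by rw [Matrix.det_apply]
    _ ≤ ∑ s : Equiv.Perm (Fin n), nrm v (Equiv.Perm.sign s • ∏ i, M (s i) i) :=
        nrm_sum_le v _ _
    _ ≤ ∑ s : Equiv.Perm (Fin n), ∏ i, nrm v (M (s i) i) :=
        Finset.sum_le_sum fun s _ => hs s
    _ = ∑ f ∈ (Finset.univ : Finset (Equiv.Perm (Fin n))).image
          (fun s : Equiv.Perm (Fin n) => (s : Fin n → Fin n)),
          ∏ i, nrm v (M (f i) i) := by
        rw [Finset.sum_image]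
        intro a _ b _ h
        exact Equiv.coe_fn_injective h
    _ ≤ ∑ f : Fin n → Fin n, ∏ i, nrm v (M (f i) i) :=
        Finset.sum_le_sum_of_subset_of_nonneg (Finset.subset_univ _) fun f _ _ => h0 f
    _ = ∏ j, ∑ i, nrm v (M i j) := by
        rw [Finset.prod_univ_sum]
        rw [Fintype.piFinset_univ]

lemma Sylv_col (h : ℕ → MvPolynomial σ R) (N a n : ℕ) (ha : a + n < N) :
    ∑ i : Fin N, nrm v (if (i : ℕ) ∈ Set.Icc a (a + n) then h ((i : ℕ) - a) else 0) =
      ∑ k ∈ Finset.range (n + 1), nrm v (h k) := by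
  classical
  rw [Fin.sum_univ_eq_sum_range
    (fun i => nrm v (if i ∈ Set.Icc a (a + n) then h (i - a) else 0)) N]
  have h1 : ∀ i, nrm v (if i ∈ Set.Icc a (a + n) then h (i - a) else 0) =
      if i ∈ Finset.Icc a (a + n) then nrm v (h (i - a)) else 0 := by
    intro i
    by_cases hi : i ∈ Set.Icc a (a + n)
    · rw [if_pos hi, if_pos (Finset.mem_Icc.2 hi)]
    · rw [if_neg hi, if_neg (fun h2 => hi (Finset.mem_Icc.1 h2)), nrm_zero]
  rw [Finset.sum_congr rfl fun i _ => h1 i, ← Finset.sum_filter]
  symm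
  refine Finset.sum_bij (fun k _ => a + k) ?_ ?_ ?_ ?_
  · intro k hk
    rw [Finset.mem_range] at hk
    rw [Finset.mem_filter, Finset.mem_range, Finset.mem_Icc]
    omega
  · intro k _ l _ hkl
    omega
  · intro i hi
    rw [Finset.mem_filter, Finset.mem_range, Finset.mem_Icc] at hi
    exact ⟨i - a, Finset.mem_range.2 (by omega), by omega⟩
  · intro k _
    rw [Nat.add_sub_cancel_left]

/-- columns of the Sylvester matrix contain the coefficients of `g` (`m` times) and of `f`
(`n` times), each coefficient at most once -/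
lemma nrm_resultant_le (f g : Polynomial (MvPolynomial σ R)) (m n : ℕ)
    (hf : f.natDegree ≤ m) (hg : g.natDegree ≤ n) :
    nrm v (Polynomial.resultant f g m n) ≤
      (∑ k ∈ Finset.range (n + 1), nrm v (g.coeff k)) ^ m *
        (∑ k ∈ Finset.range (m + 1), nrm v (f.coeff k)) ^ n := by
  classical
  refine (nrm_det_le v (Polynomial.sylvester f g m n)).trans (le_of_eq ?_)
  rw [Fin.prod_univ_add]
  congr 1
  · rw [Finset.prod_congr rfl (g := fun _ => ∑ k ∈ Finset.range (n + 1), nrm v (g.coeff k)),
      Finset.prod_const, Finset.card_univ, Fintype.card_fin]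
    intro j _
    rw [← Sylv_col v (fun k => g.coeff k) (m + n) j n (by omega)]
    refine Finset.sum_congr rfl fun i _ => ?_
    unfold Polynomial.sylvester
    rw [Matrix.of_apply, Fin.addCases_left]
  · rw [Finset.prod_congr rfl (g := fun _ => ∑ k ∈ Finset.range (m + 1), nrm v (f.coeff k)),
      Finset.prod_const, Finset.card_univ, Fintype.card_fin]
    intro j _
    rw [← Sylv_col v (fun k => f.coeff k) (m + n) j m (by omega)]
    refine Finset.sum_congr rfl fun i _ => ?_
    unfold Polynomial.sylvester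
    rw [Matrix.of_apply, Fin.addCases_right]

/-- the norms of the coefficients with respect to the variable `0` add up to the norm -/
lemma sum_nrm_coeff_finSuccEquiv (p : MvPolynomial (Fin 3) R) (N : ℕ)
    (hN : (finSuccEquiv R 2 p).natDegree ≤ N) :
    ∑ k ∈ Finset.range (N + 1), nrm v ((finSuccEquiv R 2 p).coeff k) = nrm v p := by
  classical
  have h1 : ∀ x ∈ p.support, x 0 ∈ Finset.range (N + 1) := by
    intro x hx
    rw [Finset.mem_range]
    have h2 : x 0 ≤ degreeOf 0 p := monomial_le_degreeOf 0 hx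
    rw [natDegree_finSuccEquiv] at hN
    omega
  unfold nrm
  rw [← Finset.sum_fiberwise_of_maps_to h1 (fun x => v (coeff x p))]
  refine Finset.sum_congr rfl fun k _ => ?_
  refine Finset.sum_bij (fun m _ => m.cons k) ?_ ?_ ?_ ?_
  · intro m hm
    rw [Finset.mem_filter]
    exact ⟨mem_support_coeff_finSuccEquiv.1 hm, Finsupp.cons_zero k m⟩
  · intro m _ m' _ h
    exact (Finsupp.cons_right_injective k) h
  · intro x hx
    obtain ⟨hx1, hx2⟩ := Finset.mem_filter.1 hx
    have h2 : (Finsupp.tail x).cons k = x := by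
      rw [← hx2]
      exact Finsupp.cons_tail x
    refine ⟨Finsupp.tail x, ?_, h2⟩
    rw [mem_support_coeff_finSuccEquiv, h2]
    exact hx1
  · intro m _
    rw [finSuccEquiv_coeff_coeff]

end Pool.Agent.W_1502ea_h54
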