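import Mathlib
import Pool.Agent.W_1502ea_h54.IntV
import Pool.Agent.W_1502ea_h54.Sylv
import Pool.Agent.W_1502ea_h54.Gauss

/-!
# Elimination of one variable from two homogeneous polynomials without common factor
-/

set_option autoImplicit false

namespace Pool.Agent.W_1502ea_h54

open MvPolynomial

variable {K : Type*} [Field K]

lemma Elim_eval (z : Fin 3 → K) (f : MvPolynomial (Fin 3) K) :
    eval z f = Polynomial.eval (z 0)
      (Polynomial.map (eval fun i : Fin 2 => z i.succ) (finSuccEquiv K 2 f)) := by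
  have h : z = Fin.cons (z 0) (fun i : Fin 2 => z i.succ) := by
    funext i
    refine Fin.cases ?_ (fun j => ?_) i
    · rfl
    · rfl
  conv_lhs => rw [h]
  rw [eval_eq_eval_mv_eval']

lemma Elim_deg {f : MvPolynomial (Fin 3) K} {e : ℕ} (hfe : f.IsHomogeneous e) :
    (finSuccEquiv K 2 f).natDegree ≤ e := by
  rw [natDegree_finSuccEquiv]
  exact (degreeOf_le_totalDegree f 0).trans hfe.totalDegree_le

/-- elimination of `x_0`.  If `f` involves `x_0` take the resultant
(`Polynomial.exists_mul_add_mul_eq_C_resultant`, `MvPolynomial.eval_eq_eval_mv_eval'`,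
`nrm_resultant_le`, `sum_nrm_coeff_finSuccEquiv`; the `x_0`-degrees are at most the degrees `e`,
`D`); otherwise take `f` itself, regarded as a polynomial in `x_1, x_2` (then `max 1 _ ^ (D+1)`
bounds its norm). -/
lemma exists_elim {f g : MvPolynomial (Fin 3) K} (hf : Irreducible f) (hfg : ¬ f ∣ g) {e D : ℕ}
    (hfe : f.IsHomogeneous e) (hgD : g.IsHomogeneous D) :
    ∃ ρ : MvPolynomial (Fin 2) K, ρ ≠ 0 ∧
      (∀ v : AbsoluteValue K ℝ, nrm v ρ ≤ max 1 (nrm v f) ^ (D + 1) * max 1 (nrm v g) ^ e) ∧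
      (∀ v : AbsoluteValue K ℝ, IsNonarchimedean v → IntV v f → IntV v g → IntV v ρ) ∧
      ∀ z : Fin 3 → K, eval z f = 0 → eval z g = 0 → eval (fun i : Fin 2 => z i.succ) ρ = 0 := by
  obtain ⟨m, hm⟩ : ∃ m, m = (finSuccEquiv K 2 f).natDegree := ⟨_, rfl⟩
  obtain ⟨n, hn⟩ : ∃ n, n = (finSuccEquiv K 2 g).natDegree := ⟨_, rfl⟩
  have hme : m ≤ e := hm ▸ Elim_deg hfe
  have hnD : n ≤ D := hn ▸ Elim_deg hgD
  by_cases h0 : m = 0
  · have hC : finSuccEquiv K 2 f = Polynomial.C ((finSuccEquiv K 2 f).coeff 0) :=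
      Polynomial.eq_C_of_natDegree_eq_zero (by rw [← hm, h0])
    refine ⟨(finSuccEquiv K 2 f).coeff 0, ?_, ?_, ?_, ?_⟩
    · intro hc
      rw [hc, map_zero] at hC
      exact hf.ne_zero ((map_eq_zero_iff _ (finSuccEquiv K 2).injective).1 hC)
    · intro v
      have h1 := sum_nrm_coeff_finSuccEquiv v f 0 (by rw [← hm, h0])
      rw [zero_add, Finset.sum_range_one] at h1
      rw [h1]
      have h2 : (1 : ℝ) ≤ max 1 (nrm v f) := le_max_left _ _
      have h3 : (1 : ℝ) ≤ max 1 (nrm v g) := le_max_left _ _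
      calc nrm v f ≤ max 1 (nrm v f) := le_max_right _ _
        _ = max 1 (nrm v f) ^ 1 * 1 := by rw [pow_one, mul_one]
        _ ≤ max 1 (nrm v f) ^ (D + 1) * max 1 (nrm v g) ^ e := by
            apply mul_le_mul (pow_le_pow_right₀ h2 (by omega)) (one_le_pow₀ h3) zero_le_one
            positivity
    · intro v hv h1 h2
      exact h1.coeff_finSuccEquiv 0
    · intro z hz _
      rw [Elim_eval, hC, Polynomial.map_C, Polynomial.eval_C] at hz
      exact hz
  · refine ⟨Polynomial.resultant (finSuccEquiv K 2 f) (finSuccEquiv K 2 g) m n, ?_, ?_, ?_, ?_⟩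
    · have := resultant_ne_zero hf hfg (by rw [← hm]; exact h0)
      rw [hm, hn]
      exact this
    · intro v
      refine (nrm_resultant_le v _ _ m n (le_of_eq hm.symm) (le_of_eq hn.symm)).trans ?_
      rw [sum_nrm_coeff_finSuccEquiv v f m (le_of_eq hm.symm),
        sum_nrm_coeff_finSuccEquiv v g n (le_of_eq hn.symm), mul_comm]
      have h2 : (1 : ℝ) ≤ max 1 (nrm v f) := le_max_left _ _
      have h3 : (1 : ℝ) ≤ max 1 (nrm v g) := le_max_left _ _
      have h4 : nrm v f ^ n ≤ max 1 (nrm v f) ^ (D + 1) :=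
        (pow_le_pow_left₀ (nrm_nonneg v f) (le_max_right _ _) n).trans
          (pow_le_pow_right₀ h2 (by omega))
      have h5 : nrm v g ^ m ≤ max 1 (nrm v g) ^ e :=
        (pow_le_pow_left₀ (nrm_nonneg v g) (le_max_right _ _) m).trans
          (pow_le_pow_right₀ h3 hme)
      exact mul_le_mul h4 h5 (pow_nonneg (nrm_nonneg v g) m) (by positivity)
    · intro v hv h1 h2
      exact IntV.resultant hv (fun k => h1.coeff_finSuccEquiv k) (fun k => h2.coeff_finSuccEquiv k) m n
    · intro z hz1 hz2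
      rw [Elim_eval] at hz1 hz2
      obtain ⟨p, q, -, -, hpq⟩ := Polynomial.exists_mul_add_mul_eq_C_resultant
        (finSuccEquiv K 2 f) (finSuccEquiv K 2 g) (m := m) (n := n) (le_of_eq hm.symm) (le_of_eq hn.symm) (Or.inl h0)
      have h1 := congrArg (fun r => Polynomial.eval (z 0)
        (Polynomial.map (eval fun i : Fin 2 => z i.succ) r)) hpq
      simp only [Polynomial.map_add, Polynomial.map_mul, Polynomial.eval_add, Polynomial.eval_mul,
        hz1, hz2, zero_mul, add_zero, Polynomial.map_C, Polynomial.eval_C] at h1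
      exact h1.symm

end Pool.Agent.W_1502ea_h54
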