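import Mathlib

/-!
# Height of a root of a polynomial

`K` is a field with an admissible family of absolute values (number fields, function fields);
`W` is a finite set of nonarchimedean absolute values which are treated like archimedean ones.
-/

set_option autoImplicit false

namespace Pool.Agent.W_1502ea_h54

open MvPolynomial Height

/-- local estimate, all absolute values: if `∑_{i ≤ N} c_i t^i = 0`, then
`max |t| 1 * |c_N| ≤ ∑ |c_i|` -/
lemma local_arch {K : Type*} [Field K] (v : AbsoluteValue K ℝ) (N : ℕ) (c : ℕ → K) (t : K)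
    (h : ∑ i ∈ Finset.range (N + 1), c i * t ^ i = 0) :
    max (v t) 1 * v (c N) ≤ ∑ i ∈ Finset.range (N + 1), v (c i) := by
  rcases le_or_gt (v t) 1 with h1 | h1
  · rw [max_eq_right h1, one_mul]
    exact Finset.single_le_sum (f := fun i => v (c i)) (fun i _ => v.nonneg _)
      (Finset.self_mem_range_succ N)
  · rw [max_eq_left h1.le]
    rcases N with _ | n
    · simp at h
      simp [h]
    · rw [Finset.sum_range_succ] at h
      have h2 : c (n + 1) * t ^ (n + 1) = - ∑ i ∈ Finset.range (n + 1), c i * t ^ i := by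
        linear_combination h
      have h3 : v (c (n + 1)) * v t ^ (n + 1) ≤ ∑ i ∈ Finset.range (n + 1), v (c i) * v t ^ n := by
        rw [← map_pow, ← map_mul, h2, AbsoluteValue.map_neg]
        refine (v.sum_le _ _).trans (Finset.sum_le_sum fun i hi => ?_)
        rw [map_mul, map_pow]
        have hi' : i ≤ n := Nat.lt_succ_iff.mp (Finset.mem_range.mp hi)
        exact mul_le_mul_of_nonneg_left (pow_le_pow_right₀ h1.le hi') (v.nonneg _)
      rw [← Finset.sum_mul, pow_succ, ← mul_assoc, mul_right_comm] at h3
      have h4 : 0 < v t ^ n := pow_pos (lt_trans one_pos h1) n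
      have h5 := le_of_mul_le_mul_right h3 h4
      rw [Finset.sum_range_succ]
      calc v t * v (c (n + 1)) = v (c (n + 1)) * v t := mul_comm _ _
        _ ≤ ∑ i ∈ Finset.range (n + 1), v (c i) := h5
        _ ≤ _ := le_add_of_nonneg_right (v.nonneg _)

lemma RootA_sum_le {K : Type*} [Field K] (v : AbsoluteValue K ℝ) (hv : IsNonarchimedean v)
    (B : ℝ) (hB : 0 ≤ B) (a : ℕ → K) (n : ℕ) (ha : ∀ i, i < n → v (a i) ≤ B) :
    v (∑ i ∈ Finset.range n, a i) ≤ B := by
  induction n with
  | zero => simpa using hB
  | succ n ih =>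
    rw [Finset.sum_range_succ]
    refine (hv _ _).trans (max_le (ih fun i hi => ha i (by omega)) (ha n (by omega)))

/-- local estimate, nonarchimedean absolute values and integral coefficients -/
lemma local_nonarch {K : Type*} [Field K] (v : AbsoluteValue K ℝ) (hv : IsNonarchimedean v)
    (N : ℕ) (c : ℕ → K) (t : K) (hc : ∀ i, v (c i) ≤ 1)
    (h : ∑ i ∈ Finset.range (N + 1), c i * t ^ i = 0) :
    max (v t) 1 * v (c N) ≤ 1 := by
  rcases le_or_gt (v t) 1 with h1 | h1
  · rw [max_eq_right h1, one_mul]
    exact hc N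
  · rw [max_eq_left h1.le]
    rcases N with _ | n
    · simp at h
      simp [h]
    · rw [Finset.sum_range_succ] at h
      have h2 : c (n + 1) * t ^ (n + 1) = - ∑ i ∈ Finset.range (n + 1), c i * t ^ i := by
        linear_combination h
      have h4 : 0 < v t ^ n := pow_pos (lt_trans one_pos h1) n
      have h3 : v (c (n + 1)) * v t ^ (n + 1) ≤ v t ^ n := by
        rw [← map_pow, ← map_mul, h2, AbsoluteValue.map_neg]
        refine RootA_sum_le v hv _ h4.le _ _ fun i hi => ?_
        rw [map_mul, map_pow]
        have h6 : v t ^ i ≤ v t ^ n := pow_le_pow_right₀ h1.le (by omega)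
        calc v (c i) * v t ^ i ≤ 1 * v t ^ i :=
              mul_le_mul_of_nonneg_right (hc i) (pow_nonneg (v.nonneg _) _)
          _ ≤ v t ^ n := by rw [one_mul]; exact h6
      rw [pow_succ, ← mul_assoc, mul_right_comm] at h3
      have h5 : v (c (n + 1)) * v t ≤ 1 := by
        refine le_of_mul_le_mul_right ?_ h4
        rw [one_mul]
        exact h3
      rw [mul_comm]
      exact h5

lemma RootA_fin_max {K : Type*} [Field K] [AdmissibleAbsValues K] (t : K) :
    (fun v : AdmissibleAbsValues.nonarchAbsVal (K := K) => max (v.val t) 1).HasFiniteMulSupport := by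
  rcases eq_or_ne t 0 with rfl | ht
  · simp [Function.HasFiniteMulSupport]
  · have h := AdmissibleAbsValues.hasFiniteMulSupport ht
    refine Set.Finite.subset h ?_
    intro v hv
    simp only [Function.mem_mulSupport] at hv ⊢
    intro h1
    apply hv
    rw [h1, max_self]

/-- global estimate for a root of a polynomial whose coefficients are integral outside `W`
(multiply `mulHeight₁ t` by the product formula for `c_N`) -/
lemma mulHeight₁_le_of_root {K : Type*} [Field K] [AdmissibleAbsValues K]
    (W : Finset (AbsoluteValue K ℝ))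
    (hW : ∀ v ∈ W, v ∈ AdmissibleAbsValues.nonarchAbsVal (K := K))
    (N : ℕ) (c : ℕ → K) (t : K)
    (hc : ∀ v ∈ AdmissibleAbsValues.nonarchAbsVal (K := K), v ∉ W → ∀ i, v (c i) ≤ 1)
    (hN : c N ≠ 0) (h : ∑ i ∈ Finset.range (N + 1), c i * t ^ i = 0) :
    mulHeight₁ t ≤ (AdmissibleAbsValues.archAbsVal.map fun v : AbsoluteValue K ℝ =>
      ∑ i ∈ Finset.range (N + 1), v (c i)).prod *
        ∏ v ∈ W, ∑ i ∈ Finset.range (N + 1), v (c i) := by
  classical
  set S : AbsoluteValue K ℝ → ℝ := fun v => ∑ i ∈ Finset.range (N + 1), v (c i) with hS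
  have hS0 : ∀ v, 0 ≤ S v := fun v => Finset.sum_nonneg fun i _ => v.nonneg _
  set g : AbsoluteValue K ℝ → ℝ := fun v => if v ∈ W then S v else 1 with hg
  have hpf := AdmissibleAbsValues.product_formula hN
  have h1 : mulHeight₁ t = (AdmissibleAbsValues.archAbsVal.map fun v : AbsoluteValue K ℝ =>
      max (v t) 1 * v (c N)).prod *
      ∏ᶠ v : AdmissibleAbsValues.nonarchAbsVal (K := K), (max (v.val t) 1 * v.val (c N)) := by
    rw [finprod_mul_distrib (RootA_fin_max t) (AdmissibleAbsValues.hasFiniteMulSupport hN),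
      Multiset.prod_map_mul, mul_mul_mul_comm, hpf, mul_one, mulHeight₁_eq]
  have h2 : ∏ᶠ v : AdmissibleAbsValues.nonarchAbsVal (K := K), g v.val = ∏ v ∈ W, S v := by
    rw [finprod_set_coe_eq_finprod_mem (AdmissibleAbsValues.nonarchAbsVal (K := K)) (f := g)]
    have h3 : ∏ v ∈ W, S v = ∏ v ∈ W, g v := by
      refine Finset.prod_congr rfl fun v hv => ?_
      rw [hg]
      simp [hv]
    rw [h3]
    refine finprod_mem_eq_prod_of_inter_mulSupport_eq g ?_
    ext v
    simp only [Set.mem_inter_iff, Function.mem_mulSupport, Finset.mem_coe]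
    constructor
    · rintro ⟨_, hv⟩
      refine ⟨?_, hv⟩
      by_contra hvW
      apply hv
      rw [hg]
      simp [hvW]
    · rintro ⟨hv, hv'⟩
      exact ⟨hW v hv, hv'⟩
  rw [h1]
  refine mul_le_mul ?_ ?_ ?_ ?_
  · exact Multiset.prod_map_le_prod_map₀ _ _
      (fun v _ => mul_nonneg (le_max_of_le_right zero_le_one) (v.nonneg _))
      (fun v _ => local_arch v N c t h)
  · rw [← h2]
    refine finprod_le_finprod ?_ (fun v => mul_nonneg (le_max_of_le_right zero_le_one)
      (v.val.nonneg _)) ?_ ?_
    · exact (RootA_fin_max t).mul (AdmissibleAbsValues.hasFiniteMulSupport hN)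
    · refine Set.Finite.subset (Set.Finite.preimage (Subtype.val_injective.injOn)
        (W : Set (AbsoluteValue K ℝ)).toFinite) ?_
      intro v hv
      simp only [Function.mem_mulSupport] at hv
      simp only [Set.mem_preimage, Finset.mem_coe]
      by_contra hvW
      apply hv
      rw [hg]
      simp [hvW]
    · intro v
      by_cases hv : v.val ∈ W
      · simp only [hg, hv, if_true]
        exact local_arch v.val N c t h
      · simp only [hg, hv, if_false]
        exact local_nonarch v.val (AdmissibleAbsValues.isNonarchimedean v.val v.2) N c t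
          (hc v.val v.2 hv) h
  · exact finprod_nonneg fun v => mul_nonneg (le_max_of_le_right zero_le_one) (v.val.nonneg _)
  · exact Multiset.prod_map_nonneg fun v _ => hS0 v

end Pool.Agent.W_1502ea_h54
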