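import Mathlib
import Pool.Agent.W_1502ea_h54.RootA
import Pool.Agent.W_1502ea_h54.IntV
import Pool.Agent.W_1502ea_h54.Nrm

/-!
# Height of a zero of a binary form
-/

set_option autoImplicit false

namespace Pool.Agent.W_1502ea_h54

open MvPolynomial Height

variable {K : Type*} [Field K] [Infinite K] [AdmissibleAbsValues K]

/-- The exponent of `x^i y^(m-i)`. -/
noncomputable def Root_e (m i : ℕ) : Fin 2 →₀ ℕ := Finsupp.single 0 i + Finsupp.single 1 (m - i)

lemma Root_e_zero (m i : ℕ) : Root_e m i 0 = i := by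
  simp [Root_e]

lemma Root_e_one (m i : ℕ) : Root_e m i 1 = m - i := by
  simp [Root_e]

lemma Root_e_injective (m : ℕ) : Function.Injective (Root_e m) := by
  intro i j h
  have h1 := congrArg (fun d : Fin 2 →₀ ℕ => d 0) h
  simpa [Root_e_zero] using h1

lemma Root_e_eq {m : ℕ} {d : Fin 2 →₀ ℕ} (h : d 0 + d 1 = m) : Root_e m (d 0) = d := by
  ext i
  fin_cases i
  · exact Root_e_zero m (d 0)
  · show Root_e m (d 0) 1 = d 1
    rw [Root_e_one]
    omega

omit [Infinite K] [AdmissibleAbsValues K] in
lemma Root_aeval (ρ : MvPolynomial (Fin 2) K) (a b : K) (m : ℕ) :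
    (MvPolynomial.aeval (fun i => Polynomial.C (![a, b] i) * Polynomial.X) ρ :
      Polynomial K).coeff m =
      ∑ d ∈ ρ.support.filter (fun d => d 0 + d 1 = m), coeff d ρ * (a ^ d 0 * b ^ d 1) := by
  classical
  rw [MvPolynomial.aeval_def, MvPolynomial.eval₂_eq, Polynomial.finsetSum_coeff,
    Finset.sum_filter]
  apply Finset.sum_congr rfl
  intro d _
  have h1 : ∏ i ∈ d.support, (Polynomial.C ((![a, b] : Fin 2 → K) i) * Polynomial.X) ^ d i =
      Polynomial.C (a ^ d 0 * b ^ d 1) * Polynomial.X ^ (d 0 + d 1) := by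
    have h2 : ∏ i ∈ d.support, (Polynomial.C ((![a, b] : Fin 2 → K) i) * Polynomial.X) ^ d i =
        ∏ i : Fin 2, (Polynomial.C ((![a, b] : Fin 2 → K) i) * Polynomial.X) ^ d i := by
      apply Finset.prod_subset (Finset.subset_univ _)
      intro i _ hi
      rw [Finsupp.notMem_support_iff.1 hi, pow_zero]
    rw [h2, Fin.prod_univ_two]
    simp only [Matrix.cons_val_zero, Matrix.cons_val_one, mul_pow, map_mul, map_pow]
    ring
  rw [h1, Polynomial.algebraMap_eq, ← mul_assoc, ← map_mul, Polynomial.coeff_C_mul_X_pow]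
  by_cases h : d 0 + d 1 = m
  · rw [if_pos h, if_pos h.symm]
  · rw [if_neg h, if_neg (Ne.symm h)]

omit [AdmissibleAbsValues K] in
lemma Root_comp_zero {ρ : MvPolynomial (Fin 2) K} {a b : K}
    (h : ∀ s : K, eval ![s * a, s * b] ρ = 0) (m : ℕ) :
    ∑ d ∈ ρ.support.filter (fun d => d 0 + d 1 = m), coeff d ρ * (a ^ d 0 * b ^ d 1) = 0 := by
  rw [← Root_aeval]
  have h0 : (MvPolynomial.aeval (fun i => Polynomial.C (![a, b] i) * Polynomial.X) ρ :
      Polynomial K) = 0 := by
    apply Polynomial.funext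
    intro s
    rw [Polynomial.eval_zero, ← h s]
    have h1 : ∀ q : MvPolynomial (Fin 2) K,
        Polynomial.eval s (MvPolynomial.aeval
          (fun i => Polynomial.C ((![a, b] : Fin 2 → K) i) * Polynomial.X) q) =
        eval ![s * a, s * b] q := by
      intro q
      induction q using MvPolynomial.induction_on with
      | C c => simp
      | add p q hp hq => rw [map_add, Polynomial.eval_add, hp, hq, map_add]
      | mul_X p i hp =>
        rw [map_mul, Polynomial.eval_mul, hp, map_mul, aeval_X, eval_X]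
        congr 1
        rw [Polynomial.eval_mul, Polynomial.eval_C, Polynomial.eval_X, mul_comm]
        fin_cases i
        · rfl
        · rfl
    exact h1 ρ
  rw [h0, Polynomial.coeff_zero]

omit [Infinite K] [AdmissibleAbsValues K] in
lemma Root_sum_le (v : AbsoluteValue K ℝ) (ρ : MvPolynomial (Fin 2) K) (m : ℕ) :
    ∑ i ∈ Finset.range (m + 1), v (coeff (Root_e m i) ρ) ≤ nrm v ρ := by
  classical
  rw [nrm_eq_sum v (Finset.subset_union_left (s₁ := ρ.support)
    (s₂ := (Finset.range (m + 1)).image (Root_e m)))]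
  have h1 : ∑ i ∈ Finset.range (m + 1), v (coeff (Root_e m i) ρ) =
      ∑ d ∈ (Finset.range (m + 1)).image (Root_e m), v (coeff d ρ) := by
    rw [Finset.sum_image (fun i _ j _ hij => Root_e_injective m hij)]
  rw [h1]
  exact Finset.sum_le_sum_of_subset_of_nonneg Finset.subset_union_right
    (fun _ _ _ => v.nonneg _)

/-- If the nonzero polynomial `ρ` in two variables, integral outside `W`, vanishes on the line
through `(a, b)`, `b ≠ 0`, then the height of `a / b` is at most the product of the `ℓ¹` norms of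
`ρ` over the archimedean places and `W`.  (Each homogeneous component of `ρ` vanishes at `(a,b)`:
`K` is infinite; take a nonzero one, `∑ c_i x^i y^(m-i)`, and apply `mulHeight₁_le_of_root` to
`t = a / b`, `N` = the largest `i` with `c_i ≠ 0`; the `c_i` are distinct coefficients of `ρ`.) -/
lemma mulHeight₁_div_le {ρ : MvPolynomial (Fin 2) K} (hρ : ρ ≠ 0)
    (W : Finset (AbsoluteValue K ℝ))
    (hW : ∀ v ∈ W, v ∈ AdmissibleAbsValues.nonarchAbsVal (K := K))
    (hi : ∀ v ∈ AdmissibleAbsValues.nonarchAbsVal (K := K), v ∉ W → IntV v ρ) {a b : K}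
    (hb : b ≠ 0) (h : ∀ s : K, eval ![s * a, s * b] ρ = 0) :
    mulHeight₁ (a / b) ≤
      (AdmissibleAbsValues.archAbsVal.map fun v : AbsoluteValue K ℝ => nrm v ρ).prod *
        ∏ v ∈ W, nrm v ρ := by
  classical
  obtain ⟨d₀, hd₀⟩ : ∃ d, coeff d ρ ≠ 0 := MvPolynomial.ne_zero_iff.1 hρ
  set m : ℕ := d₀ 0 + d₀ 1 with hm
  set c : ℕ → K := fun i => if i ≤ m then coeff (Root_e m i) ρ else 0 with hc
  have hcle : ∀ i, i ≤ m → c i = coeff (Root_e m i) ρ := fun i hi => if_pos hi
  have hc0 : c (d₀ 0) ≠ 0 := by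
    rw [hcle _ (by omega), Root_e_eq hm.symm]
    exact hd₀
  set N := Nat.findGreatest (fun i => c i ≠ 0) m with hN
  have hNm : N ≤ m := Nat.findGreatest_le m
  have hcN : c N ≠ 0 := Nat.findGreatest_spec (P := fun i => c i ≠ 0) (by omega : d₀ 0 ≤ m) hc0
  have hgt : ∀ i, N < i → i ≤ m → c i = 0 := by
    intro i h1 h2
    by_contra hne
    exact Nat.findGreatest_is_greatest (P := fun i => c i ≠ 0) h1 h2 hne
  have hsum1 : ∑ i ∈ Finset.range (m + 1), c i * (a / b) ^ i = 0 := by
    have h1 := Root_comp_zero h m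
    have h2 : ∑ i ∈ Finset.range (m + 1), coeff (Root_e m i) ρ * (a ^ i * b ^ (m - i)) = 0 := by
      rw [← h1]
      have h3 : ∑ i ∈ Finset.range (m + 1), coeff (Root_e m i) ρ * (a ^ i * b ^ (m - i)) =
          ∑ d ∈ (Finset.range (m + 1)).image (Root_e m), coeff d ρ * (a ^ d 0 * b ^ d 1) := by
        rw [Finset.sum_image (fun i _ j _ hij => Root_e_injective m hij)]
        apply Finset.sum_congr rfl
        intro i _
        rw [Root_e_zero, Root_e_one]
      rw [h3]
      symm
      apply Finset.sum_subset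
      · intro d hd
        rw [Finset.mem_filter] at hd
        rw [Finset.mem_image]
        refine ⟨d 0, ?_, Root_e_eq hd.2⟩
        rw [Finset.mem_range]
        have := hd.2
        omega
      · intro d hd hd'
        rw [Finset.mem_image] at hd
        obtain ⟨i, hi1, rfl⟩ := hd
        rw [Finset.mem_range] at hi1
        have h4 : Root_e m i 0 + Root_e m i 1 = m := by
          rw [Root_e_zero, Root_e_one]
          omega
        have h5 : Root_e m i ∉ ρ.support := by
          intro h6
          exact hd' (Finset.mem_filter.2 ⟨h6, h4⟩)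
        rw [notMem_support_iff.1 h5, zero_mul]
    have h3 : ∑ i ∈ Finset.range (m + 1), coeff (Root_e m i) ρ * (a ^ i * b ^ (m - i)) =
        (∑ i ∈ Finset.range (m + 1), c i * (a / b) ^ i) * b ^ m := by
      rw [Finset.sum_mul]
      apply Finset.sum_congr rfl
      intro i hi1
      have hi2 : i ≤ m := by
        rw [Finset.mem_range] at hi1
        omega
      rw [hcle i hi2, div_pow, mul_assoc]
      congr 1
      have h4 : b ^ m = b ^ i * b ^ (m - i) := by
        rw [← pow_add]
        congr 1
        omega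
      rw [h4, ← mul_assoc, div_mul_cancel₀ _ (pow_ne_zero _ hb)]
    rw [h3] at h2
    exact (mul_eq_zero.1 h2).resolve_right (pow_ne_zero _ hb)
  have hsum2 : ∑ i ∈ Finset.range (N + 1), c i * (a / b) ^ i = 0 := by
    rw [← hsum1]
    apply Finset.sum_subset
    · intro i hi1
      rw [Finset.mem_range] at hi1 ⊢
      omega
    · intro i hi1 hi2
      rw [Finset.mem_range] at hi1 hi2
      rw [hgt i (by omega) (by omega), zero_mul]
  have hint : ∀ v ∈ AdmissibleAbsValues.nonarchAbsVal (K := K), v ∉ W → ∀ i, v (c i) ≤ 1 := by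
    intro v hv hvW i
    by_cases hi1 : i ≤ m
    · rw [hcle i hi1]
      exact hi v hv hvW _
    · have : c i = 0 := if_neg hi1
      rw [this, v.map_zero]
      exact zero_le_one
  have hle : ∀ v : AbsoluteValue K ℝ, ∑ i ∈ Finset.range (N + 1), v (c i) ≤ nrm v ρ := by
    intro v
    refine le_trans ?_ (Root_sum_le v ρ m)
    calc ∑ i ∈ Finset.range (N + 1), v (c i) =
        ∑ i ∈ Finset.range (N + 1), v (coeff (Root_e m i) ρ) := by
          apply Finset.sum_congr rfl
          intro i hi1
          rw [Finset.mem_range] at hi1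
          rw [hcle i (by omega)]
      _ ≤ ∑ i ∈ Finset.range (m + 1), v (coeff (Root_e m i) ρ) := by
          apply Finset.sum_le_sum_of_subset_of_nonneg
          · intro i hi1
            rw [Finset.mem_range] at hi1 ⊢
            omega
          · exact fun _ _ _ => v.nonneg _
  have h0 : ∀ v : AbsoluteValue K ℝ, 0 ≤ ∑ i ∈ Finset.range (N + 1), v (c i) :=
    fun v => Finset.sum_nonneg fun _ _ => v.nonneg _
  refine (mulHeight₁_le_of_root W hW N c (a / b) hint hcN hsum2).trans ?_
  apply mul_le_mul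
  · exact Multiset.prod_map_le_prod_map₀ _ _ (fun v _ => h0 v) (fun v _ => hle v)
  · exact Finset.prod_le_prod (fun v _ => h0 v) (fun v _ => hle v)
  · exact Finset.prod_nonneg fun v _ => h0 v
  · apply Multiset.prod_nonneg
    intro x hx
    rw [Multiset.mem_map] at hx
    obtain ⟨v, _, rfl⟩ := hx
    exact nrm_nonneg v ρ

end Pool.Agent.W_1502ea_h54
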