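import Mathlib
import Pool.Agent.W_1502ea_h54.IntV
import Pool.Agent.W_1502ea_h54.Nrm

/-!
# Preparations for the upper bound: heights of tuples, norms of iterates, bad places
-/

set_option autoImplicit false

namespace Pool.Agent.W_1502ea_h54

open MvPolynomial Height

/-- height of a tuple in terms of the heights of the quotients of the coordinates -/
lemma mulHeight_le_prod {K : Type*} [Field K] [AdmissibleAbsValues K] {z : Fin 3 → K}
    {k : Fin 3} (hk : z k ≠ 0) : mulHeight z ≤ ∏ i, mulHeight₁ (z i / z k) := by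
  have h1 : mulHeight z = mulHeight (fun i => z i / z k) := by
    rw [← mulHeight_smul_eq_mulHeight z (inv_ne_zero hk)]
    congr 1
    funext i
    rw [Pi.smul_apply, smul_eq_mul, div_eq_inv_mul]
  have h2 : ∀ i : Fin 3, mulHeight₁ (z i / z k) = mulHeight ![z i / z k, 1] := fun i =>
    mulHeight₁_eq_mulHeight _
  simp_rw [h2]
  have h3 : ∀ i : Fin 3, (![z i / z k, 1] : Fin 2 → K) ≠ 0 := fun i => by simp
  rw [← mulHeight_fun_prod_eq (x := fun i : Fin 3 => (![z i / z k, 1] : Fin 2 → K)) h3, h1]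
  refine le_trans (le_of_eq ?_) (mulHeight_comp_le
    (fun i : Fin 3 => (fun a : Fin 3 => if a = i then (0 : Fin 2) else 1)) _)
  congr 1
  funext i
  show z i / z k = ∏ a : Fin 3, (![z a / z k, 1] : Fin 2 → K) (if a = i then 0 else 1)
  rw [Finset.prod_eq_single i]
  · simp
  · intro b _ hb
    simp [hb]
  · intro h
    exact absurd (Finset.mem_univ i) h

/-- quotients of coordinates have height at most the height of the tuple -/
lemma mulHeight₁_div_le_mulHeight {K : Type*} [Field K] [AdmissibleAbsValues K]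
    (z : Fin 3 → K) (i k : Fin 3) (hk : z k ≠ 0) :
    mulHeight₁ (z i / z k) ≤ mulHeight z := by
  rw [mulHeight₁_div_eq_mulHeight]
  refine le_trans (le_of_eq ?_) (mulHeight_comp_le (![i, k] : Fin 2 → Fin 3) z)
  congr 1
  funext a
  fin_cases a <;> rfl

/-- norms of the iterates: exponent `d^j - 1` -/
lemma nrm_iterP_le {R : Type*} [CommRing R] [Nontrivial R] (v : AbsoluteValue R ℝ) {d : ℕ}
    (hd : 2 ≤ d) {F : Fin 3 → MvPolynomial (Fin 3) R} (hF : ∀ i, (F i).IsHomogeneous d) {A : ℝ}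
    (h1 : 1 ≤ A) (hA : ∀ i, nrm v (F i) ≤ A) (j : ℕ) (i : Fin 3) :
    nrm v (iterP F j i) ≤ A ^ (d ^ j - 1) := by
  induction j generalizing i with
  | zero =>
    show nrm v (X i : MvPolynomial (Fin 3) R) ≤ A ^ (d ^ 0 - 1)
    rw [nrm_X, pow_zero, Nat.sub_self, pow_zero]
  | succ j ih =>
    have h0 : 0 ≤ A := zero_le_one.trans h1
    have h2 : nrm v (iterP F (j + 1) i) ≤ nrm v (F i) * (A ^ (d ^ j - 1)) ^ d :=
      nrm_bind₁_le v (hF i) (iterP F j) (pow_nonneg h0 _) ih
    refine h2.trans ?_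
    calc nrm v (F i) * (A ^ (d ^ j - 1)) ^ d ≤ A * (A ^ (d ^ j - 1)) ^ d :=
          mul_le_mul_of_nonneg_right (hA i) (pow_nonneg (pow_nonneg h0 _) _)
      _ = A ^ (1 + (d ^ j - 1) * d) := by rw [← pow_mul, pow_add, pow_one]
      _ ≤ A ^ (d ^ (j + 1) - 1) := by
          apply pow_le_pow_right₀ h1
          have h3 : 1 ≤ d ^ j := Nat.one_le_pow _ _ (by omega)
          obtain ⟨m, hm⟩ := Nat.exists_eq_add_of_le h3
          rw [pow_succ, hm]
          have h4 : (1 + m) * d = d + m * d := by ring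
          rw [h4]
          have h5 : 1 + m - 1 = m := by omega
          rw [h5]
          omega

lemma nrm_cmp_le {R : Type*} [CommRing R] [Nontrivial R] (v : AbsoluteValue R ℝ) {d : ℕ}
    (hd : 2 ≤ d) {F : Fin 3 → MvPolynomial (Fin 3) R} (hF : ∀ i, (F i).IsHomogeneous d) {e : ℕ}
    (he : 1 ≤ e) {f : MvPolynomial (Fin 3) R} (hf : f.IsHomogeneous e) {A : ℝ} (h1 : 1 ≤ A)
    (hA : ∀ i, nrm v (F i) ≤ A) (hfA : nrm v f ≤ A) (j : ℕ) :
    nrm v (cmp f F j) ≤ A ^ (e * d ^ j) := by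
  have h0 : 0 ≤ A := zero_le_one.trans h1
  have h2 : nrm v (cmp f F j) ≤ nrm v f * (A ^ (d ^ j - 1)) ^ e :=
    nrm_bind₁_le v hf (iterP F j) (pow_nonneg h0 _) (nrm_iterP_le v hd hF h1 hA j)
  refine h2.trans ?_
  calc nrm v f * (A ^ (d ^ j - 1)) ^ e ≤ A * (A ^ (d ^ j - 1)) ^ e :=
        mul_le_mul_of_nonneg_right hfA (pow_nonneg (pow_nonneg h0 _) _)
    _ = A ^ (1 + (d ^ j - 1) * e) := by rw [← pow_mul, pow_add, pow_one]
    _ ≤ A ^ (e * d ^ j) := by
        apply pow_le_pow_right₀ h1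
        have h3 : 1 ≤ d ^ j := Nat.one_le_pow _ _ (by omega)
        obtain ⟨m, hm⟩ := Nat.exists_eq_add_of_le h3
        rw [hm]
        have h4 : e * (1 + m) = e + m * e := by ring
        rw [h4]
        have h5 : 1 + m - 1 = m := by omega
        rw [h5]
        omega

/-- finitely many polynomials are integral outside a finite set of places -/
lemma exists_bad_places {K : Type*} [Field K] [AdmissibleAbsValues K] {ι σ : Type*} [Finite ι]
    (p : ι → MvPolynomial σ K) : ∃ W : Finset (AbsoluteValue K ℝ),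
      (∀ v ∈ W, v ∈ AdmissibleAbsValues.nonarchAbsVal (K := K)) ∧
      ∀ v ∈ AdmissibleAbsValues.nonarchAbsVal (K := K), v ∉ W →
        ∀ i, ∀ m, coeff m (p i) ≠ 0 → v (coeff m (p i)) = 1 := by
  classical
  have h1 : ∀ i, ∀ m ∈ (p i).support,
      {v : AdmissibleAbsValues.nonarchAbsVal (K := K) | v.val (coeff m (p i)) ≠ 1}.Finite := by
    intro i m hm
    exact AdmissibleAbsValues.hasFiniteMulSupport (mem_support_iff.mp hm)
  have h2 : (⋃ i, ⋃ m ∈ (p i).support,
      {v : AdmissibleAbsValues.nonarchAbsVal (K := K) | v.val (coeff m (p i)) ≠ 1}).Finite :=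
    Set.finite_iUnion fun i => (p i).support.finite_toSet.biUnion fun m hm => h1 i m hm
  refine ⟨(h2.image Subtype.val).toFinset, ?_, ?_⟩
  · intro v hv
    rw [Set.Finite.mem_toFinset] at hv
    obtain ⟨w, -, rfl⟩ := hv
    exact w.2
  · intro v hv hW i m hm
    by_contra h
    apply hW
    rw [Set.Finite.mem_toFinset]
    refine ⟨⟨v, hv⟩, ?_, rfl⟩
    simp only [Set.mem_iUnion]
    exact ⟨i, m, mem_support_iff.mpr hm, h⟩

end Pool.Agent.W_1502ea_h54
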