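import Mathlib
import Pool.Agent.W_1502ea_h54.Elim
import Pool.Agent.W_1502ea_h54.Root
import Pool.Agent.W_1502ea_h54.UpA

/-!
# Upper bound for the height of a point on the curve which returns after `j` steps
-/

set_option autoImplicit false

namespace Pool.Agent.W_1502ea_h54

open MvPolynomial Height

variable {K : Type*} [Field K] [Infinite K] [AdmissibleAbsValues K]

lemma Upper_exists_perm {i k : Fin 3} (hik : i ≠ k) : ∃ s : Equiv.Perm (Fin 3), s 1 = i ∧ s 2 = k := by
  revert i k
  decide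

omit [Infinite K] in
/-- monotonicity of the products over the places -/
lemma Upper_prod_mono (W : Finset (AbsoluteValue K ℝ)) (p q : AbsoluteValue K ℝ → ℝ)
    (h0 : ∀ v, 0 ≤ p v) (h : ∀ v, p v ≤ q v) :
    (AdmissibleAbsValues.archAbsVal.map fun v : AbsoluteValue K ℝ => p v).prod * ∏ v ∈ W, p v ≤
      (AdmissibleAbsValues.archAbsVal.map fun v : AbsoluteValue K ℝ => q v).prod *
        ∏ v ∈ W, q v := by
  refine mul_le_mul (Multiset.prod_map_le_prod_map₀ _ _ (fun v _ => h0 v) fun v _ => h v)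
    (Finset.prod_le_prod (fun v _ => h0 v) fun v _ => h v)
    (Finset.prod_nonneg fun v _ => h0 v) ?_
  refine Multiset.prod_nonneg ?_
  intro x hx
  obtain ⟨v, -, rfl⟩ := Multiset.mem_map.mp hx
  exact (h0 v).trans (h v)

/-- two coordinates: for `i ≠ k`, `z k ≠ 0` the height of `z i / z k` is bounded.  Apply
`exists_elim` after the renaming of the variables by a permutation `s` with `s 1 = i`, `s 2 = k`
(`rename s.symm f`, `z ∘ s`; `nrm_rename_equiv`, `IntV.rename`), and `mulHeight₁_div_le`. -/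
lemma mulHeight₁_quot_le {f g : MvPolynomial (Fin 3) K} (hf : Irreducible f) (hfg : ¬ f ∣ g)
    {e D : ℕ} (hfe : f.IsHomogeneous e) (hgD : g.IsHomogeneous D)
    (W : Finset (AbsoluteValue K ℝ))
    (hW : ∀ v ∈ W, v ∈ AdmissibleAbsValues.nonarchAbsVal (K := K))
    (hfi : ∀ v ∈ AdmissibleAbsValues.nonarchAbsVal (K := K), v ∉ W → IntV v f)
    (hgi : ∀ v ∈ AdmissibleAbsValues.nonarchAbsVal (K := K), v ∉ W → IntV v g)
    {z : Fin 3 → K} (hzf : eval z f = 0) (hzg : eval z g = 0) {i k : Fin 3} (hik : i ≠ k)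
    (hk : z k ≠ 0) :
    mulHeight₁ (z i / z k) ≤ (AdmissibleAbsValues.archAbsVal.map fun v : AbsoluteValue K ℝ =>
      max 1 (nrm v f) ^ (D + 1) * max 1 (nrm v g) ^ e).prod *
        ∏ v ∈ W, (max 1 (nrm v f) ^ (D + 1) * max 1 (nrm v g) ^ e) := by
  classical
  obtain ⟨s, hs1, hs2⟩ := Upper_exists_perm hik
  have hdvd : ¬ rename s.symm f ∣ rename s.symm g := by
    intro hd
    apply hfg
    have h1 := map_dvd (renameEquiv K s).toRingEquiv hd
    have h2 : ∀ p : MvPolynomial (Fin 3) K, (renameEquiv K s).toRingEquiv (rename s.symm p) = p := by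
      intro p
      show rename s (rename s.symm p) = p
      rw [rename_rename]
      have h3 : (s : Fin 3 → Fin 3) ∘ (s.symm : Fin 3 → Fin 3) = id := by
        funext x
        simp
      rw [h3, rename_id_apply]
    rwa [h2, h2] at h1
  have hirr : Irreducible (rename s.symm f) := by
    have h1 : Irreducible (renameEquiv K s.symm f) :=
      (MulEquiv.irreducible_iff (renameEquiv K s.symm)).mpr hf
    exact h1
  obtain ⟨ρ, hρ0, hρ1, hρ2, hρ3⟩ := exists_elim hirr hdvd (hfe.rename_isHomogeneous)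
    (hgD.rename_isHomogeneous)
  have hev : ∀ (p : MvPolynomial (Fin 3) K) (w : Fin 3 → K),
      eval (fun x => w (s x)) (rename s.symm p) = eval w p := by
    intro p w
    rw [eval_rename]
    congr 1
    congr 1
    funext x
    simp
  have hmain := mulHeight₁_div_le hρ0 W hW
    (fun v hv hvW => hρ2 v (AdmissibleAbsValues.isNonarchimedean v hv)
      (IntV.rename (hfi v hv hvW) s.symm) (IntV.rename (hgi v hv hvW) s.symm))
    (a := z i) (b := z k) hk (by
      intro t
      have h1 := hρ3 (fun x => (t • z) (s x))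
        (by rw [hev, eval_smul_homog hfe, hzf, mul_zero])
        (by rw [hev, eval_smul_homog hgD, hzg, mul_zero])
      have h2 : (fun x : Fin 2 => (t • z) (s x.succ)) = ![t * z i, t * z k] := by
        funext x
        fin_cases x
        · show t * z (s 1) = t * z i
          rw [hs1]
        · show t * z (s 2) = t * z k
          rw [hs2]
      rw [h2] at h1
      exact h1)
  refine hmain.trans (Upper_prod_mono W _ _ (fun v => nrm_nonneg v ρ) fun v => ?_)
  have h1 := hρ1 v
  rwa [nrm_rename_equiv, nrm_rename_equiv] at h1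

/-- **upper bound** for the height: with `A_v = max (1, nrm_v F_i, nrm_v f)` and
`W` from `exists_bad_places`, `B = 2 (e² + e + 1) (∑ log A_v)` (sum over the archimedean places
and `W`); `nrm_cmp_le`, `cmp_homog`, `IntV.cmp`, `mulHeight_le_prod`. -/
theorem logHeight_le {d : ℕ} (hd : 2 ≤ d) {F : Fin 3 → MvPolynomial (Fin 3) K}
    (hF : ∀ i, (F i).IsHomogeneous d) {e : ℕ} (he : 1 ≤ e)
    {f : MvPolynomial (Fin 3) K} (hf : f.IsHomogeneous e) (hirr : Irreducible f) :
    ∃ B : ℝ, 0 ≤ B ∧ ∀ (j : ℕ) (z : Fin 3 → K), z ≠ 0 → ¬ f ∣ cmp f F j → eval z f = 0 →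
      eval z (cmp f F j) = 0 → logHeight z ≤ B * (d : ℝ) ^ j := by
  classical
  -- the bad places
  obtain ⟨W, hW, hWi⟩ := exists_bad_places (K := K)
    (fun i : Option (Fin 3) => Option.elim i f F)
  have hint : ∀ v ∈ AdmissibleAbsValues.nonarchAbsVal (K := K), v ∉ W →
      ∀ i : Option (Fin 3), IntV v (Option.elim i f F) := by
    intro v hv hvW i m
    by_cases hm : coeff m (Option.elim i f F) = 0
    · rw [hm, v.map_zero]
      exact zero_le_one
    · exact (hWi v hv hvW i m hm).le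
  -- the bounds at each place
  obtain ⟨A, hAdef⟩ : ∃ A : AbsoluteValue K ℝ → ℝ,
      ∀ v, A v = 1 + nrm v f + ∑ i, nrm v (F i) := ⟨_, fun _ => rfl⟩
  have hs0 : ∀ v : AbsoluteValue K ℝ, 0 ≤ ∑ i, nrm v (F i) := fun v =>
    Finset.sum_nonneg fun i _ => nrm_nonneg v _
  have hA1 : ∀ v, 1 ≤ A v := by
    intro v
    rw [hAdef]
    have := nrm_nonneg v f
    have := hs0 v
    linarith
  have hAf : ∀ v, nrm v f ≤ A v := by
    intro v
    rw [hAdef]
    have := hs0 v
    linarith
  have hAF : ∀ v i, nrm v (F i) ≤ A v := by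
    intro v i
    rw [hAdef]
    have h1 := nrm_nonneg v f
    have h2 : nrm v (F i) ≤ ∑ i, nrm v (F i) :=
      Finset.single_le_sum (f := fun i => nrm v (F i)) (fun i _ => nrm_nonneg v _)
        (Finset.mem_univ i)
    linarith
  obtain ⟨Q, hQ⟩ : ∃ Q : ℝ, Q = (AdmissibleAbsValues.archAbsVal.map
      fun v : AbsoluteValue K ℝ => A v).prod * ∏ v ∈ W, A v := ⟨_, rfl⟩
  have hQ1 : 1 ≤ Q := by
    have h1 := Upper_prod_mono W (fun _ => (1 : ℝ)) A (fun _ => zero_le_one) hA1
    rw [← hQ] at h1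
    simpa using h1
  have hlQ : 0 ≤ Real.log Q := Real.log_nonneg hQ1
  refine ⟨3 * ((e : ℝ) * (1 + e) + 1) * Real.log Q, by positivity, ?_⟩
  intro j z hz hfg hzf hzg
  obtain ⟨k, hk⟩ : ∃ k, z k ≠ 0 := by
    by_contra hcon
    push Not at hcon
    exact hz (funext hcon)
  obtain ⟨D, hD⟩ : ∃ D : ℕ, D = e * d ^ j := ⟨_, rfl⟩
  obtain ⟨N, hN⟩ : ∃ N : ℕ, N = D + 1 + D * e := ⟨_, rfl⟩
  have hquot : ∀ i, mulHeight₁ (z i / z k) ≤ Q ^ N := by
    intro i
    by_cases hik : i = k
    · rw [hik, div_self hk, mulHeight₁_one]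
      exact one_le_pow₀ hQ1
    · have h1 := mulHeight₁_quot_le hirr hfg hf (cmp_homog hF hf j) W hW
        (fun v hv hvW => hint v hv hvW none)
        (fun v hv hvW => IntV.cmp (AdmissibleAbsValues.isNonarchimedean v hv)
          (fun i => hint v hv hvW (some i)) (hint v hv hvW none) j) hzf hzg hik hk
      refine h1.trans ?_
      have h2 := Upper_prod_mono W
        (fun v => max 1 (nrm v f) ^ (e * d ^ j + 1) * max 1 (nrm v (cmp f F j)) ^ e)
        (fun v => A v ^ N) (fun v => by positivity) (fun v => by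
          have hg : nrm v (cmp f F j) ≤ A v ^ D := by
            rw [hD]
            exact nrm_cmp_le v hd hF he hf (hA1 v) (hAF v) (hAf v) j
          have h3 : max 1 (nrm v f) ≤ A v := max_le (hA1 v) (hAf v)
          have h4 : max 1 (nrm v (cmp f F j)) ≤ A v ^ D :=
            max_le (one_le_pow₀ (hA1 v)) hg
          have h5 : A v ^ N = A v ^ (e * d ^ j + 1) * (A v ^ D) ^ e := by
            rw [← pow_mul, ← pow_add, hN, hD]
          show max 1 (nrm v f) ^ (e * d ^ j + 1) * max 1 (nrm v (cmp f F j)) ^ e ≤ A v ^ N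
          rw [h5]
          have h0 : 0 ≤ A v := zero_le_one.trans (hA1 v)
          exact mul_le_mul (pow_le_pow_left₀ (by positivity) h3 _)
            (pow_le_pow_left₀ (by positivity) h4 _) (by positivity) (by positivity))
      refine h2.trans (le_of_eq ?_)
      rw [Multiset.prod_map_pow, Finset.prod_pow, ← mul_pow, ← hQ]
  have h3 : mulHeight z ≤ (Q ^ N) ^ 3 := by
    refine (mulHeight_le_prod hk).trans ?_
    rw [Fin.prod_univ_three, pow_succ, pow_succ, pow_one]
    have hQN : 0 ≤ Q ^ N := by positivity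
    have hm : ∀ i, 0 ≤ mulHeight₁ (z i / z k) := fun i => mulHeight₁_nonneg _
    exact mul_le_mul (mul_le_mul (hquot 0) (hquot 1) (hm 1) hQN) (hquot 2) (hm 2)
      (by positivity)
  have h4 : logHeight z ≤ 3 * (N * Real.log Q) := by
    rw [logHeight_eq_log_mulHeight]
    have h5 := Real.log_le_log (mulHeight_pos z) h3
    rw [Real.log_pow, Real.log_pow] at h5
    simpa using h5
  refine h4.trans ?_
  have hdj : (1 : ℝ) ≤ (d : ℝ) ^ j := one_le_pow₀ (by exact_mod_cast (by omega : 1 ≤ d))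
  have hNle : (N : ℝ) ≤ ((e : ℝ) * (1 + e) + 1) * (d : ℝ) ^ j := by
    rw [hN, hD]
    push_cast
    nlinarith
  calc 3 * (N * Real.log Q) ≤ 3 * ((((e : ℝ) * (1 + e) + 1) * (d : ℝ) ^ j) * Real.log Q) := by
        gcongr
    _ = 3 * ((e : ℝ) * (1 + e) + 1) * Real.log Q * (d : ℝ) ^ j := by ring

end Pool.Agent.W_1502ea_h54
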