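import Mathlib
import Pool.Agent.W_1502ea_h54.Upper
import Pool.Agent.W_1502ea_h54.Grow

/-!
# The gap principle over a field with heights
-/

set_option autoImplicit false

namespace Pool.Agent.W_1502ea_h54

open MvPolynomial Height

/-- **gap principle**: if the heights along the orbit are unbounded and `n < n'` are return times,
then with `j = n' - n`, `d^(n-n₀) ≤ logHeight (F^n z) ≤ B d^j`, so `n ≤ j + const`. -/
theorem core_gap {K : Type*} [Field K] [Infinite K] [AdmissibleAbsValues K] {d : ℕ}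
    (hd : 2 ≤ d) {F : Fin 3 → MvPolynomial (Fin 3) K}
    (hF : ∀ i, (F i).IsHomogeneous d) (hN : NullRel F d) {e : ℕ} (he : 1 ≤ e)
    {f : MvPolynomial (Fin 3) K} (hf : f.IsHomogeneous e) (hirr : Irreducible f)
    (hnp : ∀ j, 1 ≤ j → ¬ f ∣ cmp f F j) {z : Fin 3 → K} (hz : z ≠ 0)
    (hub : ∀ B : ℝ, ∃ n, B < logHeight ((pmap F)^[n] z)) :
    IsGap (ret F f z) := by
  obtain ⟨B, hB0, hB⟩ := logHeight_le hd hF he hf hirr
  obtain ⟨n₀, hn₀⟩ := orbit_grow hd hN hub
  have hd1 : (1 : ℝ) < d := by exact_mod_cast hd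
  obtain ⟨b, hb⟩ := pow_unbounded_of_one_lt B hd1
  refine ⟨n₀ + b, fun n hn n' hn' hlt => ?_⟩
  rcases Nat.lt_or_ge n n₀ with h | h
  · omega
  · obtain ⟨j, rfl⟩ : ∃ j, n' = n + j := ⟨n' - n, by omega⟩
    obtain ⟨m, rfl⟩ : ∃ m, n = n₀ + m := ⟨n - n₀, by omega⟩
    have hw : (pmap F)^[n₀ + m] z ≠ 0 := iter_ne_zero (by omega) hN hz _
    have h1 : eval ((pmap F)^[n₀ + m] z) (cmp f F j) = 0 := by
      rw [eval_cmp, ← Function.iterate_add_apply, Nat.add_comm j]
      exact hn'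
    have h2 := hB j _ hw (hnp j (by omega)) hn h1
    have h3 : (d : ℝ) ^ m ≤ (d : ℝ) ^ (b + j) := by
      refine (hn₀ m).trans (h2.trans ?_)
      rw [pow_add]
      exact mul_le_mul_of_nonneg_right hb.le (by positivity)
    have h4 : m ≤ b + j := (pow_le_pow_iff_right₀ hd1).1 h3
    omega

end Pool.Agent.W_1502ea_h54
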