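import Mathlib

/-!
# Function fields: the absolute value of a prime of the ring of integers
-/

set_option autoImplicit false

namespace Pool.Agent.W_1502ea_h54

open Polynomial IsDedekindDomain FunctionField

/-- the real number `e` as a base for absolute values -/
noncomputable def ebase : NNReal := ⟨Real.exp 1, (Real.exp_pos 1).le⟩

lemma one_lt_ebase : 1 < ebase := by
  rw [← NNReal.coe_lt_coe]
  exact Real.one_lt_exp_iff.2 one_pos

/-- order of vanishing at `0` of a rational function -/
noncomputable def ord0 {L : Type*} [Field L] (g : RatFunc L) : ℤ :=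
  (g.num.rootMultiplicity 0 : ℤ) - (g.denom.rootMultiplicity 0 : ℤ)

lemma ord0_mul {L : Type*} [Field L] {g h : RatFunc L} (hg : g ≠ 0) (hh : h ≠ 0) :
    ord0 (g * h) = ord0 g + ord0 h := by
  have hgn : g.num ≠ 0 := RatFunc.num_ne_zero hg
  have hhn : h.num ≠ 0 := RatFunc.num_ne_zero hh
  have hgh : (g * h).num ≠ 0 := RatFunc.num_ne_zero (mul_ne_zero hg hh)
  have hgd : g.denom ≠ 0 := g.denom_ne_zero
  have hhd : h.denom ≠ 0 := h.denom_ne_zero
  have hghd : (g * h).denom ≠ 0 := (g * h).denom_ne_zero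
  have key := RatFunc.num_denom_mul g h
  have h1 := congrArg (Polynomial.rootMultiplicity 0) key
  rw [Polynomial.rootMultiplicity_mul (mul_ne_zero hgh (mul_ne_zero hgd hhd)),
    Polynomial.rootMultiplicity_mul (mul_ne_zero hgd hhd),
    Polynomial.rootMultiplicity_mul (mul_ne_zero (mul_ne_zero hgn hhn) hghd),
    Polynomial.rootMultiplicity_mul (mul_ne_zero hgn hhn)] at h1
  unfold ord0
  omega

lemma ord0_algebraMap {L : Type*} [Field L] {p : L[X]} (hp : p ≠ 0) :
    ord0 (algebraMap L[X] (RatFunc L) p) = p.rootMultiplicity 0 := by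
  unfold ord0
  rw [RatFunc.num_algebraMap, RatFunc.denom_algebraMap]
  have : (1 : L[X]).rootMultiplicity 0 = 0 := by
    rw [← Polynomial.C_1, Polynomial.rootMultiplicity_C]
  rw [this]
  simp

lemma FFdef_aeval_inv {L : Type*} [Field L] (p : L[X]) :
    Polynomial.aeval (R := L) (RatFunc.X : RatFunc L)⁻¹ p =
      algebraMap L[X] (RatFunc L) p.reverse * (RatFunc.X : RatFunc L)⁻¹ ^ p.natDegree := by
  have hX : (RatFunc.X : RatFunc L) ≠ 0 := RatFunc.X_ne_zero
  let _ : Invertible ((RatFunc.X : RatFunc L)⁻¹) := invertibleOfNonzero (inv_ne_zero hX)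
  have h := Polynomial.eval₂_reverse_mul_pow (algebraMap L (RatFunc L)) (RatFunc.X : RatFunc L)⁻¹ p
  rw [Polynomial.aeval_def, ← h]
  congr 1
  rw [invOf_eq_inv, inv_inv]
  have h2 := Polynomial.aeval_algebraMap_apply (RatFunc L) (Polynomial.X : L[X]) p.reverse
  rw [RatFunc.algebraMap_X, Polynomial.aeval_X_left_apply, Polynomial.aeval_def] at h2
  exact h2

lemma FFdef_aeval_inv_ne_zero {L : Type*} [Field L] {p : L[X]} (hp : p ≠ 0) :
    Polynomial.aeval (R := L) (RatFunc.X : RatFunc L)⁻¹ p ≠ 0 := by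
  rw [FFdef_aeval_inv]
  refine mul_ne_zero ?_ (pow_ne_zero _ (inv_ne_zero RatFunc.X_ne_zero))
  exact RatFunc.algebraMap_ne_zero (fun h => hp (Polynomial.reverse_eq_zero.1 h))

/-- the automorphism `X ↦ 1 / X` of the field of rational functions -/
noncomputable def invX (L : Type*) [Field L] : RatFunc L →+* RatFunc L := by
  refine IsLocalization.lift (M := nonZeroDivisors L[X]) (S := RatFunc L)
    (g := (Polynomial.aeval (R := L) (RatFunc.X : RatFunc L)⁻¹ : L[X] →ₐ[L] RatFunc L).toRingHom)
    ?_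
  intro y
  exact isUnit_iff_ne_zero.2 (FFdef_aeval_inv_ne_zero (nonZeroDivisors.ne_zero y.2))

lemma FFdef_invX_algebraMap {L : Type*} [Field L] (p : L[X]) :
    invX L (algebraMap L[X] (RatFunc L) p) =
      Polynomial.aeval (R := L) (RatFunc.X : RatFunc L)⁻¹ p := by
  unfold invX
  exact IsLocalization.lift_eq _ p

lemma FFdef_invX_X {L : Type*} [Field L] :
    invX L (RatFunc.X : RatFunc L) = (RatFunc.X : RatFunc L)⁻¹ := by
  rw [← RatFunc.algebraMap_X, FFdef_invX_algebraMap, Polynomial.aeval_X, RatFunc.algebraMap_X]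

lemma FFdef_invX_C {L : Type*} [Field L] (c : L) : invX L (RatFunc.C c) = RatFunc.C c := by
  rw [← RatFunc.algebraMap_C, FFdef_invX_algebraMap, Polynomial.aeval_C, RatFunc.algebraMap_C]
  rfl

lemma invX_invX {L : Type*} [Field L] (g : RatFunc L) : invX L (invX L g) = g := by
  have h : (invX L).comp (invX L) = RingHom.id _ := by
    refine IsLocalization.ringHom_ext (nonZeroDivisors L[X]) ?_
    refine Polynomial.ringHom_ext ?_ ?_
    · intro a
      simp only [RingHom.comp_apply, RingHom.id_apply, RatFunc.algebraMap_C, FFdef_invX_C]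
    · simp only [RingHom.comp_apply, RingHom.id_apply, RatFunc.algebraMap_X, FFdef_invX_X,
        map_inv₀, inv_inv]
  exact congrArg (fun f : RatFunc L →+* RatFunc L => f g) h

lemma invX_X {L : Type*} [Field L] : invX L (RatFunc.X : RatFunc L) = (RatFunc.X : RatFunc L)⁻¹ := by
  exact FFdef_invX_X

lemma invX_C {L : Type*} [Field L] (c : L) : invX L (RatFunc.C c) = RatFunc.C c := by
  exact FFdef_invX_C c

lemma FFdef_ord0_one {L : Type*} [Field L] : ord0 (1 : RatFunc L) = 0 := by
  have h := ord0_mul (L := L) (g := 1) (h := 1) one_ne_zero one_ne_zero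
  rw [mul_one] at h
  omega

lemma FFdef_ord0_inv {L : Type*} [Field L] {g : RatFunc L} (hg : g ≠ 0) :
    ord0 g⁻¹ = - ord0 g := by
  have h := ord0_mul hg (inv_ne_zero hg)
  rw [mul_inv_cancel₀ hg, FFdef_ord0_one] at h
  omega

lemma FFdef_ord0_pow {L : Type*} [Field L] {g : RatFunc L} (hg : g ≠ 0) (n : ℕ) :
    ord0 (g ^ n) = n * ord0 g := by
  induction n with
  | zero => simp [FFdef_ord0_one]
  | succ n ih =>
    rw [pow_succ, ord0_mul (pow_ne_zero n hg) hg, ih]
    push_cast
    ring

lemma FFdef_ord0_invX_algebraMap {L : Type*} [Field L] {p : L[X]} (hp : p ≠ 0) :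
    ord0 (invX L (algebraMap L[X] (RatFunc L) p)) = - (p.natDegree : ℤ) := by
  have hX : (RatFunc.X : RatFunc L) ≠ 0 := RatFunc.X_ne_zero
  have hr : p.reverse ≠ 0 := fun h => hp (Polynomial.reverse_eq_zero.1 h)
  rw [FFdef_invX_algebraMap, FFdef_aeval_inv,
    ord0_mul (RatFunc.algebraMap_ne_zero hr) (pow_ne_zero _ (inv_ne_zero hX)),
    ord0_algebraMap hr, FFdef_ord0_pow (inv_ne_zero hX), FFdef_ord0_inv hX,
    ← RatFunc.algebraMap_X, ord0_algebraMap Polynomial.X_ne_zero]
  have h1 : p.reverse.rootMultiplicity 0 = 0 := by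
    refine Polynomial.rootMultiplicity_eq_zero ?_
    rw [Polynomial.IsRoot.def, ← Polynomial.coeff_zero_eq_eval_zero,
      Polynomial.coeff_zero_reverse]
    exact Polynomial.leadingCoeff_ne_zero.2 hp
  have h2 : (Polynomial.X : L[X]).rootMultiplicity 0 = 1 := by
    have h3 := Polynomial.rootMultiplicity_X_sub_C_self (R := L) (x := 0)
    rwa [Polynomial.C_0, sub_zero] at h3
  rw [h1, h2]
  push_cast
  ring

/-- the order at `0` of `g(1/X)` is minus the degree of `g` -/
lemma ord0_invX {L : Type*} [Field L] {g : RatFunc L} (hg : g ≠ 0) :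
    ord0 (invX L g) = - g.intDegree := by
  have hn : g.num ≠ 0 := RatFunc.num_ne_zero hg
  have hd : g.denom ≠ 0 := g.denom_ne_zero
  have hinj : Function.Injective (invX L) := (invX L).injective
  have h1 : g * algebraMap L[X] (RatFunc L) g.denom = algebraMap L[X] (RatFunc L) g.num := by
    have h2 := RatFunc.num_div_denom g
    rw [div_eq_iff (RatFunc.algebraMap_ne_zero hd)] at h2
    exact h2.symm
  have h3 := congrArg (fun y => ord0 (invX L y)) h1
  simp only [map_mul] at h3
  rw [ord0_mul ((_root_.map_ne_zero (invX L)).2 hg) ((_root_.map_ne_zero (invX L)).2 (RatFunc.algebraMap_ne_zero hd)),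
    FFdef_ord0_invX_algebraMap hd, FFdef_ord0_invX_algebraMap hn] at h3
  unfold RatFunc.intDegree
  omega

end Pool.Agent.W_1502ea_h54
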