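import Mathlib
import Pool.Agent.W_1502ea_h54.FFdef

/-!
# Function fields: the absolute values of the primes of the ring of integers
-/

set_option autoImplicit false

namespace Pool.Agent.W_1502ea_h54

open Polynomial IsDedekindDomain FunctionField

variable (L K : Type*) [Field L] [CharZero L] [IsAlgClosed L] [Field K] [Algebra L[X] K]
  [Algebra (RatFunc L) K] [IsScalarTower L[X] (RatFunc L) K] [FiniteDimensional (RatFunc L) K]

/-- the absolute value of a prime of the ring of integers -/
noncomputable def pabs (P : HeightOneSpectrum (ringOfIntegers L K)) : AbsoluteValue K ℝ :=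
  P.adicAbv one_lt_ebase

variable {L K}

lemma FF1_algebraMap (p : L[X]) :
    algebraMap (RatFunc L) K (algebraMap L[X] (RatFunc L) p) =
      algebraMap (ringOfIntegers L K) K (algebraMap L[X] (ringOfIntegers L K) p) := by
  rw [← IsScalarTower.algebraMap_apply, ← IsScalarTower.algebraMap_apply]

lemma FF1_C_notMem (P : HeightOneSpectrum (ringOfIntegers L K)) {c : L} (hc : c ≠ 0) :
    algebraMap L[X] (ringOfIntegers L K) (C c) ∉ P.asIdeal := by
  intro h
  refine P.isPrime.ne_top ((Ideal.eq_top_iff_one _).2 ?_)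
  have h1 := P.asIdeal.mul_mem_left (algebraMap L[X] (ringOfIntegers L K) (C c⁻¹)) h
  rwa [← map_mul, ← C_mul, inv_mul_cancel₀ hc, C_1, map_one] at h1

lemma pabs_nonarch (P : HeightOneSpectrum (ringOfIntegers L K)) :
    IsNonarchimedean (pabs L K P) := by
  exact P.isNonarchimedean_adicAbv one_lt_ebase

/-- nonzero constants are units of the ring of integers -/
lemma pabs_C (P : HeightOneSpectrum (ringOfIntegers L K)) {c : L} (hc : c ≠ 0) :
    pabs L K P (algebraMap (RatFunc L) K (RatFunc.C c)) = 1 := by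
  rw [← RatFunc.algebraMap_C, FF1_algebraMap]
  exact (P.adicAbv_coe_eq_one_iff one_lt_ebase _).2 (FF1_C_notMem P hc)

lemma pabs_X_le (P : HeightOneSpectrum (ringOfIntegers L K)) :
    pabs L K P (algebraMap (RatFunc L) K RatFunc.X) ≤ 1 := by
  rw [← RatFunc.algebraMap_X, FF1_algebraMap]
  exact P.adicAbv_coe_le_one one_lt_ebase _

lemma pabs_X_lt (P : HeightOneSpectrum (ringOfIntegers L K))
    (hP : algebraMap L[X] (ringOfIntegers L K) X ∈ P.asIdeal) :
    pabs L K P (algebraMap (RatFunc L) K RatFunc.X) < 1 := by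
  rw [← RatFunc.algebraMap_X, FF1_algebraMap]
  exact (P.adicAbv_coe_lt_one_iff one_lt_ebase _).2 hP

/-- values are powers of `e` -/
lemma pabs_discrete (P : HeightOneSpectrum (ringOfIntegers L K)) {x : K}
    (hx : pabs L K P x < 1) : pabs L K P x ≤ Real.exp (-1) := by
  by_cases h0 : x = 0
  · rw [h0, map_zero]
    exact (Real.exp_pos _).le
  have hv : P.valuation K x ≠ 0 := (Valuation.ne_zero_iff _).2 h0
  have he : pabs L K P x = ((WithZeroMulInt.toNNReal (ne_zero_of_lt one_lt_ebase)
      (P.valuation K x) : NNReal) : ℝ) := rfl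
  rw [WithZeroMulInt.toNNReal_neg_apply _ hv] at he
  have he2 : pabs L K P x = Real.exp 1 ^ (WithZero.unzero hv).toAdd := by
    rw [he, NNReal.coe_zpow]
    rfl
  rw [← Real.rpow_intCast, Real.exp_one_rpow] at he2
  rw [he2] at hx ⊢
  rw [Real.exp_lt_one_iff] at hx
  have h1 : (WithZero.unzero hv).toAdd < 0 := by exact_mod_cast hx
  have h2 : (WithZero.unzero hv).toAdd ≤ -1 := by omega
  exact Real.exp_le_exp.2 (by exact_mod_cast h2)

lemma pabs_nontrivial (P : HeightOneSpectrum (ringOfIntegers L K)) :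
    ∃ x, x ≠ 0 ∧ pabs L K P x ≠ 1 := by
  obtain ⟨r, hr, hr0⟩ := Submodule.exists_mem_ne_zero_of_ne_bot P.ne_bot
  refine ⟨algebraMap (ringOfIntegers L K) K r, ?_, ?_⟩
  · exact (map_ne_zero_iff _ (IsFractionRing.injective (ringOfIntegers L K) K)).2 hr0
  · exact ((P.adicAbv_coe_lt_one_iff one_lt_ebase r).2 hr).ne

/-- the prime is recovered as the set of integral elements with value less than `1` -/
lemma pabs_injective : Function.Injective (pabs L K) := by
  intro P Q h
  apply HeightOneSpectrum.ext
  apply Ideal.ext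
  intro r
  have h1 : pabs L K P (algebraMap (ringOfIntegers L K) K r) < 1 ↔ r ∈ P.asIdeal :=
    P.adicAbv_coe_lt_one_iff one_lt_ebase r
  have h2 : pabs L K Q (algebraMap (ringOfIntegers L K) K r) < 1 ↔ r ∈ Q.asIdeal :=
    Q.adicAbv_coe_lt_one_iff one_lt_ebase r
  rw [← h1, ← h2, h]

lemma pabs_finite {x : K} (hx : x ≠ 0) :
    {P : HeightOneSpectrum (ringOfIntegers L K) | pabs L K P x ≠ 1}.Finite := by
  obtain ⟨a, b, hb, rfl⟩ := IsFractionRing.div_surjective (A := ringOfIntegers L K) x
  have hb0 : b ≠ 0 := nonZeroDivisors.ne_zero hb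
  have ha0 : a ≠ 0 := by
    rintro rfl
    rw [map_zero, zero_div] at hx
    exact hx rfl
  have key : ∀ r : ringOfIntegers L K, r ≠ 0 →
      {P : HeightOneSpectrum (ringOfIntegers L K) | r ∈ P.asIdeal}.Finite := by
    intro r hr
    have h1 : Ideal.span {r} ≠ ⊥ := by
      rw [Ne, Ideal.span_singleton_eq_bot]
      exact hr
    refine (Ideal.finite_factors h1).subset ?_
    intro P hP
    rw [Set.mem_ofPred_eq] at hP ⊢
    rw [Ideal.dvd_span_singleton]
    exact hP
  refine ((key a ha0).union (key b hb0)).subset ?_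
  intro P hP
  rw [Set.mem_ofPred_eq] at hP
  by_contra hcon
  rw [Set.mem_union, not_or, Set.mem_ofPred_eq, Set.mem_ofPred_eq] at hcon
  apply hP
  have h1 : pabs L K P (algebraMap (ringOfIntegers L K) K a) = 1 :=
    (P.adicAbv_coe_eq_one_iff one_lt_ebase a).2 hcon.1
  have h2 : pabs L K P (algebraMap (ringOfIntegers L K) K b) = 1 :=
    (P.adicAbv_coe_eq_one_iff one_lt_ebase b).2 hcon.2
  rw [map_div₀, h1, h2, div_one]

/-- there is a prime above each `X - a` -/
lemma exists_prime (a : L) : ∃ P : HeightOneSpectrum (ringOfIntegers L K),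
    algebraMap L[X] (ringOfIntegers L K) (X - C a) ∈ P.asIdeal := by
  have hinj : Function.Injective (algebraMap L[X] (ringOfIntegers L K)) :=
    ringOfIntegers.algebraMap_injective L K
  have hmax : (Ideal.span {(X - C a : L[X])}).IsMaximal :=
    PrincipalIdealRing.isMaximal_of_irreducible (irreducible_X_sub_C a)
  obtain ⟨Q, hQ, hQ2⟩ := Ideal.exists_ideal_over_maximal_of_isIntegral
    (S := ringOfIntegers L K) (Ideal.span {(X - C a : L[X])}) (by
      rw [(RingHom.injective_iff_ker_eq_bot _).1 hinj]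
      exact bot_le)
  have hmem : algebraMap L[X] (ringOfIntegers L K) (X - C a) ∈ Q := by
    have h1 : (X - C a : L[X]) ∈ Q.comap (algebraMap L[X] (ringOfIntegers L K)) := by
      rw [hQ2]
      exact Ideal.mem_span_singleton_self _
    exact h1
  refine ⟨⟨Q, hQ.isPrime, ?_⟩, hmem⟩
  rintro rfl
  rw [Ideal.mem_bot] at hmem
  exact X_sub_C_ne_zero a (hinj (by rw [hmem, map_zero]))

/-- each prime lies above one `X - a` only -/
lemma prime_unique {P : HeightOneSpectrum (ringOfIntegers L K)} {a b : L}
    (ha : algebraMap L[X] (ringOfIntegers L K) (X - C a) ∈ P.asIdeal)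
    (hb : algebraMap L[X] (ringOfIntegers L K) (X - C b) ∈ P.asIdeal) : a = b := by
  by_contra hab
  have h1 := P.asIdeal.sub_mem ha hb
  rw [← map_sub] at h1
  have h2 : (X - C a - (X - C b) : L[X]) = C (b - a) := by
    rw [C_sub]
    ring
  rw [h2] at h1
  exact FF1_C_notMem P (sub_ne_zero.2 (Ne.symm hab)) h1

variable (L K) in
lemma infinite_primes : Infinite (HeightOneSpectrum (ringOfIntegers L K)) := by
  have hL : Infinite L := IsAlgClosed.instInfinite
  refine Infinite.of_injective
    (fun a : L => Classical.choose (exists_prime (L := L) (K := K) a)) ?_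
  intro a b hab
  have ha := Classical.choose_spec (exists_prime (L := L) (K := K) a)
  have hb := Classical.choose_spec (exists_prime (L := L) (K := K) b)
  dsimp only at hab
  rw [hab] at ha
  exact prime_unique ha hb

end Pool.Agent.W_1502ea_h54
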