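import Mathlib
import Pool.Agent.W_1502ea_h54.FF1

/-!
# Function fields: relative norms of primes and of principal ideals
-/

set_option autoImplicit false

namespace Pool.Agent.W_1502ea_h54

open Polynomial IsDedekindDomain FunctionField

variable (L K : Type*) [Field L] [CharZero L] [IsAlgClosed L] [Field K] [Algebra L[X] K]
  [Algebra (RatFunc L) K] [IsScalarTower L[X] (RatFunc L) K] [FiniteDimensional (RatFunc L) K]

instance ringOfIntegers_torsionFree : Module.IsTorsionFree L[X] (ringOfIntegers L K) := by
  exact Module.isTorsionFree_iff_algebraMap_injective.2 (ringOfIntegers.algebraMap_injective L K)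

/-- order of an integral element at a prime -/
noncomputable def pord (P : HeightOneSpectrum (ringOfIntegers L K)) (b : ringOfIntegers L K) : ℕ :=
  (Associates.mk P.asIdeal).count (Associates.mk (Ideal.span {b})).factors

variable {L K}

lemma exists_apt (P : HeightOneSpectrum (ringOfIntegers L K)) :
    ∃ a : L, algebraMap L[X] (ringOfIntegers L K) (X - C a) ∈ P.asIdeal := by
  have h1 : P.asIdeal.comap (algebraMap L[X] (ringOfIntegers L K)) ≠ ⊥ :=
    Ideal.IsIntegral.comap_ne_bot L[X] P.ne_bot
  obtain ⟨q, hq, hq0⟩ := Submodule.exists_mem_ne_zero_of_ne_bot h1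
  have hq1 : algebraMap L[X] (ringOfIntegers L K) q ∈ P.asIdeal := hq
  have hs : q.Splits := IsAlgClosed.splits q
  have h2 := hs.eq_prod_roots
  rw [h2, map_mul] at hq1
  rcases P.isPrime.mem_or_mem hq1 with h | h
  · exact absurd h (FF1_C_notMem P (leadingCoeff_ne_zero.2 hq0))
  · rw [map_multiset_prod, P.isPrime.multiset_prod_mem_iff_exists_mem] at h
    obtain ⟨y, hy, hy2⟩ := h
    rw [Multiset.map_map, Multiset.mem_map] at hy
    obtain ⟨a, _, rfl⟩ := hy
    exact ⟨a, hy2⟩

/-- `Ideal.relNorm_eq_pow_of_isMaximal`; the inertia degree is one because `L` is algebraically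
closed (`IsAlgClosed.algebraMap_bijective_of_isIntegral` for the residue field of `P`) -/
theorem relNorm_prime {P : HeightOneSpectrum (ringOfIntegers L K)} {a : L}
    (ha : algebraMap L[X] (ringOfIntegers L K) (X - C a) ∈ P.asIdeal) :
    Ideal.relNorm L[X] P.asIdeal = Ideal.span {X - C a} := by
  have hmax : (Ideal.span {(X - C a : L[X])}).IsMaximal :=
    PrincipalIdealRing.isMaximal_of_irreducible (irreducible_X_sub_C a)
  have hP : P.asIdeal.IsMaximal := P.isMaximal
  have hover : P.asIdeal.LiesOver (Ideal.span {(X - C a : L[X])}) := by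
    refine ⟨hmax.eq_of_le ?_ ?_⟩
    · exact (P.isPrime.comap _).ne_top
    · rw [Ideal.span_singleton_le_iff_mem]
      exact ha
  have hpf : PerfectField (FractionRing L[X]) := inferInstance
  rw [Ideal.relNorm_eq_pow_of_isMaximal P.asIdeal (Ideal.span {(X - C a : L[X])})]
  have hdeg : P.asIdeal.inertiaDeg L[X] = 1 := by
    rw [Ideal.inertiaDeg_eq_of_isMaximal (Ideal.span {(X - C a : L[X])}) P.asIdeal]
    let _ : Field (L[X] ⧸ Ideal.span {(X - C a : L[X])}) := Ideal.Quotient.field _
    have hac : IsAlgClosed (L[X] ⧸ Ideal.span {(X - C a : L[X])}) :=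
      IsAlgClosed.of_ringEquiv L _ (Polynomial.quotientSpanXSubCAlgEquiv a).symm.toRingEquiv
    have hbij : Function.Bijective (algebraMap (L[X] ⧸ Ideal.span {(X - C a : L[X])})
        (ringOfIntegers L K ⧸ P.asIdeal)) :=
      IsAlgClosed.algebraMap_bijective_of_isIntegral
    rw [← (LinearEquiv.ofBijective (Algebra.linearMap (L[X] ⧸ Ideal.span {(X - C a : L[X])})
      (ringOfIntegers L K ⧸ P.asIdeal)) hbij).finrank_eq]
    exact Module.finrank_self _
  rw [hdeg, pow_one]

lemma pabs_eq_exp (P : HeightOneSpectrum (ringOfIntegers L K)) {b : ringOfIntegers L K}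
    (hb : b ≠ 0) : pabs L K P (b : K) = Real.exp (-(pord L K P b : ℝ)) := by
  have hb' : (b : K) ≠ 0 := by
    intro h
    exact hb (Subtype.ext h)
  have hv : P.valuation K (b : K) ≠ 0 := (Valuation.ne_zero_iff _).2 hb'
  have he : pabs L K P (b : K) = ((WithZeroMulInt.toNNReal (ne_zero_of_lt one_lt_ebase)
      (P.valuation K (b : K)) : NNReal) : ℝ) := rfl
  rw [WithZeroMulInt.toNNReal_neg_apply _ hv] at he
  have he2 : pabs L K P (b : K) = Real.exp 1 ^ (WithZero.unzero hv).toAdd := by
    rw [he, NNReal.coe_zpow]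
    rfl
  have hval : P.valuation K (b : K) = WithZero.exp (-(pord L K P b : ℤ)) := by
    have h1 : P.valuation K (b : K) = P.intValuation b := P.valuation_of_algebraMap (K := K) b
    rw [h1, P.intValuation_if_neg hb]
    rfl
  have h3 : (WithZero.unzero hv).toAdd = -(pord L K P b : ℤ) := by
    have h4 : ((WithZero.unzero hv : Multiplicative ℤ) : WithZero (Multiplicative ℤ)) =
        WithZero.exp (-(pord L K P b : ℤ)) := by
      rw [WithZero.coe_unzero, hval]
    have h5 : WithZero.unzero hv = Multiplicative.ofAdd (-(pord L K P b : ℤ)) :=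
      WithZero.coe_inj.1 h4
    rw [h5]
    rfl
  rw [he2, h3, ← Real.rpow_intCast, Real.exp_one_rpow]
  push_cast
  rfl

lemma pord_finite {b : ringOfIntegers L K} (hb : b ≠ 0) :
    (Function.support fun P => pord L K P b).Finite := by
  have h1 : Ideal.span {b} ≠ 0 := by
    rw [Ideal.zero_eq_bot, Ne, Ideal.span_singleton_eq_bot]
    exact hb
  have h2 := Associates.finite_factors h1
  rw [Filter.eventually_cofinite] at h2
  refine h2.subset fun P hP => ?_
  rw [Function.mem_support] at hP
  rw [Set.mem_ofPred_eq]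
  intro h3
  apply hP
  exact_mod_cast h3

/-- the linear factor below a prime -/
private noncomputable def FF2_a (P : HeightOneSpectrum (ringOfIntegers L K)) : L :=
  Classical.choose (exists_apt P)

private lemma FF2_a_spec (P : HeightOneSpectrum (ringOfIntegers L K)) :
    algebraMap L[X] (ringOfIntegers L K) (X - C (FF2_a P)) ∈ P.asIdeal :=
  Classical.choose_spec (exists_apt P)

private lemma FF2_assoc {b : ringOfIntegers L K} (hb : b ≠ 0) :
    Associated (Algebra.intNorm L[X] (ringOfIntegers L K) b)
      (∏ P ∈ (pord_finite hb).toFinset, (X - C (FF2_a P)) ^ pord L K P b) := by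
  have h1 : Ideal.span {b} ≠ 0 := by
    rw [Ideal.zero_eq_bot, Ne, Ideal.span_singleton_eq_bot]
    exact hb
  have h2 := Ideal.finprod_heightOneSpectrum_factorization h1
  have h3 := congrArg (Ideal.relNorm L[X]) h2
  rw [map_finprod _ (Ideal.hasFiniteMulSupport h1), Ideal.relNorm_singleton] at h3
  have h4 : ∀ P : HeightOneSpectrum (ringOfIntegers L K),
      Ideal.relNorm L[X] (P.maxPowDividing (Ideal.span {b})) =
        Ideal.span {(X - C (FF2_a P)) ^ pord L K P b} := by
    intro P
    rw [HeightOneSpectrum.maxPowDividing, map_pow, relNorm_prime (FF2_a_spec P),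
      Ideal.span_singleton_pow]
    rfl
  simp only [h4] at h3
  have h5 : (Function.mulSupport fun P : HeightOneSpectrum (ringOfIntegers L K) =>
      Ideal.span {((X - C (FF2_a P)) ^ pord L K P b : L[X])}) ⊆
        ((pord_finite hb).toFinset : Set (HeightOneSpectrum (ringOfIntegers L K))) := by
    intro P hP
    rw [Set.Finite.coe_toFinset, Function.mem_support]
    intro h0
    apply hP
    dsimp only
    rw [h0, pow_zero, Ideal.span_singleton_one, Ideal.one_eq_top]
  rw [finprod_eq_prod_of_mulSupport_subset _ h5, Ideal.prod_span_singleton] at h3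
  exact (Ideal.span_singleton_eq_span_singleton.1 h3).symm

/-- `Ideal.relNorm_singleton`, `Ideal.finprod_heightOneSpectrum_factorization`: up to a constant
the norm of `b` is the product of the `(X - a_P)^(ord_P b)` -/
theorem natDegree_intNorm {b : ringOfIntegers L K} (hb : b ≠ 0) :
    (Algebra.intNorm L[X] (ringOfIntegers L K) b).natDegree = ∑ᶠ P, pord L K P b := by
  rw [finsum_eq_sum _ (pord_finite hb)]
  rw [Polynomial.natDegree_eq_of_degree_eq
    (Polynomial.degree_eq_degree_of_associated (FF2_assoc hb))]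
  rw [Polynomial.natDegree_prod_of_monic _ _ fun P _ => (monic_X_sub_C _).pow _]
  refine Finset.sum_congr rfl fun P _ => ?_
  rw [Polynomial.natDegree_pow, Polynomial.natDegree_X_sub_C, mul_one]

omit [CharZero L] [IsAlgClosed L] in
private lemma FF2_rootMul_prod {ι : Type*} (s : Finset ι) (a : ι → L) (n : ι → ℕ) :
    (∏ i ∈ s, (X - C (a i)) ^ n i).rootMultiplicity 0 =
      ∑ i ∈ s, (Set.indicator {i | a i = 0} n i) := by
  classical
  induction s using Finset.induction_on with
  | empty =>
    rw [Finset.prod_empty, Finset.sum_empty, ← Polynomial.C_1, Polynomial.rootMultiplicity_C]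
  | insert i s his ih =>
    rw [Finset.prod_insert his, Finset.sum_insert his, Polynomial.rootMultiplicity_mul, ih]
    · congr 1
      by_cases h : a i = 0
      · rw [Set.indicator_of_mem (by exact h), h, Polynomial.rootMultiplicity_X_sub_C_pow]
      · rw [Set.indicator_of_notMem (by exact h)]
        refine Polynomial.rootMultiplicity_eq_zero ?_
        rw [Polynomial.IsRoot.def, Polynomial.eval_pow, Polynomial.eval_sub, Polynomial.eval_X,
          Polynomial.eval_C, zero_sub]
        exact pow_ne_zero _ (neg_ne_zero.2 h)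
    · refine mul_ne_zero (pow_ne_zero _ (X_sub_C_ne_zero _)) ?_
      exact Finset.prod_ne_zero_iff.2 fun j _ => pow_ne_zero _ (X_sub_C_ne_zero _)

/-- same argument -/
theorem rootMultiplicity_intNorm {b : ringOfIntegers L K} (hb : b ≠ 0) :
    (Algebra.intNorm L[X] (ringOfIntegers L K) b).rootMultiplicity 0 =
      ∑ᶠ P : {P : HeightOneSpectrum (ringOfIntegers L K) //
        algebraMap L[X] (ringOfIntegers L K) X ∈ P.asIdeal}, pord L K P.1 b := by
  classical
  have h1 : (∑ᶠ P : {P : HeightOneSpectrum (ringOfIntegers L K) //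
        algebraMap L[X] (ringOfIntegers L K) X ∈ P.asIdeal}, pord L K P.1 b) =
      ∑ᶠ P ∈ {P : HeightOneSpectrum (ringOfIntegers L K) |
        algebraMap L[X] (ringOfIntegers L K) X ∈ P.asIdeal}, pord L K P b :=
    finsum_subtype_eq_finsum_cond (f := fun P => pord L K P b)
      (fun P : HeightOneSpectrum (ringOfIntegers L K) =>
        algebraMap L[X] (ringOfIntegers L K) X ∈ P.asIdeal)
  have h2 : ∀ P : HeightOneSpectrum (ringOfIntegers L K),
      algebraMap L[X] (ringOfIntegers L K) X ∈ P.asIdeal ↔ FF2_a P = 0 := by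
    intro P
    constructor
    · intro h
      refine prime_unique (FF2_a_spec P) (b := 0) ?_
      rwa [C_0, sub_zero]
    · intro h
      have h3 := FF2_a_spec P
      rwa [h, C_0, sub_zero] at h3
  rw [h1, finsum_mem_eq_sum_filter _ _ (pord_finite hb), Finset.sum_filter]
  obtain ⟨u, hu⟩ := FF2_assoc hb
  have h4 : (u : L[X]).rootMultiplicity 0 = 0 := by
    refine Polynomial.rootMultiplicity_eq_zero ?_
    rw [Polynomial.IsRoot.def]
    exact (u.isUnit.map (Polynomial.evalRingHom (0 : L))).ne_zero
  have h5 : Algebra.intNorm L[X] (ringOfIntegers L K) b ≠ 0 := by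
    rw [Ne, Algebra.intNorm_eq_zero]
    exact hb
  have h6 := congrArg (Polynomial.rootMultiplicity 0) hu
  rw [Polynomial.rootMultiplicity_mul (mul_ne_zero h5 u.ne_zero), h4, add_zero,
    FF2_rootMul_prod] at h6
  rw [h6]
  refine Finset.sum_congr rfl fun P _ => ?_
  rw [Set.indicator_apply]
  simp only [Set.mem_ofPred_eq, h2]

end Pool.Agent.W_1502ea_h54
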