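import Mathlib
import Pool.Agent.W_1502ea_h54.FF2

/-!
# Function fields: products of absolute values
-/

set_option autoImplicit false
set_option linter.unusedSectionVars false

namespace Pool.Agent.W_1502ea_h54

open Polynomial IsDedekindDomain FunctionField

lemma FF3_finprod_exp {ι : Type*} {f : ι → ℕ} (hf : (Function.support f).Finite) :
    ∏ᶠ i, Real.exp (-(f i : ℝ)) = Real.exp (-((∑ᶠ i, f i : ℕ) : ℝ)) := by
  have h1 : Function.support f ⊆ (hf.toFinset : Set ι) := by simp
  have h2 : (Function.mulSupport fun i => Real.exp (-(f i : ℝ))) ⊆ (hf.toFinset : Set ι) := by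
    intro i hi
    rw [Function.mem_mulSupport] at hi
    rw [Set.Finite.coe_toFinset, Function.mem_support]
    intro h0
    apply hi
    rw [h0]
    simp
  rw [finsum_eq_sum_of_support_subset f h1, finprod_eq_prod_of_mulSupport_subset _ h2,
    ← Real.exp_sum, Finset.sum_neg_distrib]
  push_cast
  rfl

variable {L K : Type*} [Field L] [CharZero L] [IsAlgClosed L] [Field K] [Algebra L[X] K]
  [Algebra (RatFunc L) K] [IsScalarTower L[X] (RatFunc L) K] [FiniteDimensional (RatFunc L) K]

lemma FF3_norm (b : ringOfIntegers L K) :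
    Algebra.norm (RatFunc L) (b : K) =
      algebraMap L[X] (RatFunc L) (Algebra.intNorm L[X] (ringOfIntegers L K) b) :=
  (Algebra.algebraMap_intNorm (A := L[X]) (K := RatFunc L) (L := K) (B := ringOfIntegers L K)
    b).symm

lemma FF3_intNorm_ne {b : ringOfIntegers L K} (hb : b ≠ 0) :
    Algebra.intNorm L[X] (ringOfIntegers L K) b ≠ 0 := by
  intro h
  have h1 := FF3_norm b
  rw [h, map_zero, Algebra.norm_eq_zero_iff] at h1
  exact hb (Subtype.ext h1)

lemma FF3_mulSupport {x : K} (hx : x ≠ 0) :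
    (Function.mulSupport fun P : HeightOneSpectrum (ringOfIntegers L K) => pabs L K P x).Finite :=
  pabs_finite hx

lemma FF3_mulSupport_X {x : K} (hx : x ≠ 0) :
    (Function.mulSupport fun P : {P : HeightOneSpectrum (ringOfIntegers L K) //
        algebraMap L[X] (ringOfIntegers L K) X ∈ P.asIdeal} => pabs L K P.1 x).Finite :=
  (pabs_finite hx).preimage Subtype.val_injective.injOn

lemma FF3_exists {x : K} (hx : x ≠ 0) : ∃ a b : ringOfIntegers L K, a ≠ 0 ∧ b ≠ 0 ∧
    (b : K) * x = (a : K) := by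
  obtain ⟨a, b, hb, rfl⟩ := IsFractionRing.div_surjective (A := ringOfIntegers L K) x
  have hb0 : b ≠ 0 := nonZeroDivisors.ne_zero hb
  have hbK : (algebraMap (ringOfIntegers L K) K b) ≠ 0 :=
    (map_ne_zero_iff _ (IsFractionRing.injective (ringOfIntegers L K) K)).2 hb0
  refine ⟨a, b, ?_, hb0, ?_⟩
  · rintro rfl
    rw [map_zero, zero_div] at hx
    exact hx rfl
  · exact mul_div_cancel₀ _ hbK

lemma FF3_coe_ne {b : ringOfIntegers L K} (hb : b ≠ 0) : (b : K) ≠ 0 := fun h =>
  hb (Subtype.ext h)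

lemma FF3_norm_ne {x : K} (hx : x ≠ 0) : Algebra.norm (RatFunc L) x ≠ 0 := by
  rwa [Ne, Algebra.norm_eq_zero_iff]

/-- product over all primes of the ring of integers (write `x = a / b`; `pabs_eq_exp`,
`natDegree_intNorm`, `Algebra.algebraMap_intNorm`) -/
theorem prod_pabs {x : K} (hx : x ≠ 0) :
    ∏ᶠ P : HeightOneSpectrum (ringOfIntegers L K), pabs L K P x =
      Real.exp (-((Algebra.norm (RatFunc L) x).intDegree : ℝ)) := by
  have key : ∀ b : ringOfIntegers L K, b ≠ 0 →
      ∏ᶠ P : HeightOneSpectrum (ringOfIntegers L K), pabs L K P (b : K) =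
      Real.exp (-((Algebra.norm (RatFunc L) (b : K)).intDegree : ℝ)) := by
    intro b hb
    rw [FF3_norm, RatFunc.intDegree_polynomial, natDegree_intNorm hb,
      finprod_congr fun P => pabs_eq_exp P hb, FF3_finprod_exp (pord_finite hb)]
    push_cast
    rfl
  obtain ⟨a, b, ha, hb, hab⟩ := FF3_exists (L := L) hx
  have h1 := key a ha
  rw [← hab, map_mul, RatFunc.intDegree_mul (FF3_norm_ne (FF3_coe_ne hb)) (FF3_norm_ne hx)] at h1
  have h2 : ∏ᶠ P : HeightOneSpectrum (ringOfIntegers L K), pabs L K P ((b : K) * x) =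
      (∏ᶠ P : HeightOneSpectrum (ringOfIntegers L K), pabs L K P (b : K)) *
        ∏ᶠ P : HeightOneSpectrum (ringOfIntegers L K), pabs L K P x := by
    rw [← finprod_mul_distrib (FF3_mulSupport (FF3_coe_ne hb)) (FF3_mulSupport hx)]
    exact finprod_congr fun P => map_mul _ _ _
  rw [h2, key b hb] at h1
  push_cast at h1
  rw [neg_add, Real.exp_add] at h1
  exact mul_left_cancel₀ (Real.exp_pos _).ne' h1

/-- product over the primes above `X` (`rootMultiplicity_intNorm`) -/
theorem prod_pabs_X {x : K} (hx : x ≠ 0) :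
    ∏ᶠ P : {P : HeightOneSpectrum (ringOfIntegers L K) //
        algebraMap L[X] (ringOfIntegers L K) X ∈ P.asIdeal}, pabs L K P.1 x =
      Real.exp (-(ord0 (Algebra.norm (RatFunc L) x) : ℝ)) := by
  have key : ∀ b : ringOfIntegers L K, b ≠ 0 →
      ∏ᶠ P : {P : HeightOneSpectrum (ringOfIntegers L K) //
        algebraMap L[X] (ringOfIntegers L K) X ∈ P.asIdeal}, pabs L K P.1 (b : K) =
      Real.exp (-(ord0 (Algebra.norm (RatFunc L) (b : K)) : ℝ)) := by
    intro b hb
    have hfin : (Function.support fun P : {P : HeightOneSpectrum (ringOfIntegers L K) //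
        algebraMap L[X] (ringOfIntegers L K) X ∈ P.asIdeal} => pord L K P.1 b).Finite :=
      (pord_finite hb).preimage Subtype.val_injective.injOn
    rw [FF3_norm, ord0_algebraMap (FF3_intNorm_ne hb), rootMultiplicity_intNorm hb,
      finprod_congr fun P : {P : HeightOneSpectrum (ringOfIntegers L K) //
        algebraMap L[X] (ringOfIntegers L K) X ∈ P.asIdeal} => pabs_eq_exp P.1 hb,
      FF3_finprod_exp hfin]
    push_cast
    rfl
  obtain ⟨a, b, ha, hb, hab⟩ := FF3_exists (L := L) hx
  have h1 := key a ha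
  rw [← hab, map_mul, ord0_mul (FF3_norm_ne (FF3_coe_ne hb)) (FF3_norm_ne hx)] at h1
  have h2 : ∏ᶠ P : {P : HeightOneSpectrum (ringOfIntegers L K) //
        algebraMap L[X] (ringOfIntegers L K) X ∈ P.asIdeal}, pabs L K P.1 ((b : K) * x) =
      (∏ᶠ P : {P : HeightOneSpectrum (ringOfIntegers L K) //
        algebraMap L[X] (ringOfIntegers L K) X ∈ P.asIdeal}, pabs L K P.1 (b : K)) *
        ∏ᶠ P : {P : HeightOneSpectrum (ringOfIntegers L K) //
        algebraMap L[X] (ringOfIntegers L K) X ∈ P.asIdeal}, pabs L K P.1 x := by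
    rw [← finprod_mul_distrib (FF3_mulSupport_X (FF3_coe_ne hb)) (FF3_mulSupport_X hx)]
    exact finprod_congr fun P => map_mul _ _ _
  rw [h2, key b hb] at h1
  push_cast at h1
  rw [neg_add, Real.exp_add] at h1
  exact mul_left_cancel₀ (Real.exp_pos _).ne' h1

end Pool.Agent.W_1502ea_h54
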