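import Mathlib
import Pool.Agent.W_1502ea_h54.FF3

/-!
# Function fields: the places above finite points, zero and infinity, as sets of absolute values
-/

set_option autoImplicit false

namespace Pool.Agent.W_1502ea_h54

open Polynomial IsDedekindDomain FunctionField

/-- a place: nonarchimedean, trivial on constants, nontrivial, with values in the powers of `e` -/
def IsPl (L : Type*) {K : Type*} [Field L] [Field K] [Algebra (RatFunc L) K]
    (v : AbsoluteValue K ℝ) : Prop :=
  IsNonarchimedean v ∧ (∀ c : L, c ≠ 0 → v (algebraMap (RatFunc L) K (RatFunc.C c)) = 1) ∧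
    (∃ x, x ≠ 0 ∧ v x ≠ 1) ∧ ∀ x, v x < 1 → v x ≤ Real.exp (-1)

lemma FF4_range {K : Type*} [Field K] {ι : Type*} (f : ι → AbsoluteValue K ℝ)
    (hf : Function.Injective f) (x : K) : ∏ᶠ v : Set.range f, v.1 x = ∏ᶠ i, f i x := by
  rw [← finprod_comp_equiv (Equiv.ofInjective f hf)]
  rfl

lemma FF4_fin {K : Type*} [Field K] {ι : Type*} (f : ι → AbsoluteValue K ℝ) {x : K}
    (h : {i | f i x ≠ 1}.Finite) : {v : Set.range f | v.1 x ≠ 1}.Finite := by
  refine (h.image (fun i => (⟨f i, i, rfl⟩ : Set.range f))).subset ?_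
  rintro ⟨v, i, rfl⟩ hv
  exact ⟨i, hv, rfl⟩

section

variable (L K : Type*) [Field L] [CharZero L] [IsAlgClosed L] [Field K]
  [Algebra (RatFunc L) K] [FiniteDimensional (RatFunc L) K]

/-- the finite places: the range of `pabs` (with the algebra structure of `K` over `L[X]` obtained
from the one over `RatFunc L`) -/
theorem exists_fin : ∃ S : Set (AbsoluteValue K ℝ), S.Infinite ∧
    (∀ v ∈ S, IsPl L v ∧ v (algebraMap (RatFunc L) K RatFunc.X) ≤ 1) ∧
    (∀ x : K, x ≠ 0 → {v : S | v.1 x ≠ 1}.Finite) ∧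
    ∀ x : K, x ≠ 0 → ∏ᶠ v : S, v.1 x =
      Real.exp (-((Algebra.norm (RatFunc L) x).intDegree : ℝ)) := by
  let _ : Algebra L[X] K := ((algebraMap (RatFunc L) K).comp (algebraMap L[X] (RatFunc L))).toAlgebra
  have _ : IsScalarTower L[X] (RatFunc L) K := IsScalarTower.of_algebraMap_eq (fun _ => rfl)
  have _ := infinite_primes L K
  refine ⟨Set.range (pabs L K), Set.infinite_range_of_injective pabs_injective, ?_, ?_, ?_⟩
  · rintro v ⟨P, rfl⟩
    exact ⟨⟨pabs_nonarch P, fun c hc => pabs_C P hc, pabs_nontrivial P,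
      fun x hx => pabs_discrete P hx⟩, pabs_X_le P⟩
  · intro x hx
    exact FF4_fin _ (pabs_finite hx)
  · intro x hx
    rw [FF4_range _ pabs_injective]
    exact prod_pabs hx

/-- the places above zero -/
theorem exists_zero : ∃ S : Set (AbsoluteValue K ℝ),
    (∀ v ∈ S, IsPl L v ∧ v (algebraMap (RatFunc L) K RatFunc.X) < 1) ∧
    (∀ x : K, x ≠ 0 → {v : S | v.1 x ≠ 1}.Finite) ∧
    ∀ x : K, x ≠ 0 → ∏ᶠ v : S, v.1 x =
      Real.exp (-(ord0 (Algebra.norm (RatFunc L) x) : ℝ)) := by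
  let _ : Algebra L[X] K := ((algebraMap (RatFunc L) K).comp (algebraMap L[X] (RatFunc L))).toAlgebra
  have _ : IsScalarTower L[X] (RatFunc L) K := IsScalarTower.of_algebraMap_eq (fun _ => rfl)
  let f : {P : HeightOneSpectrum (ringOfIntegers L K) //
        algebraMap L[X] (ringOfIntegers L K) X ∈ P.asIdeal} → AbsoluteValue K ℝ :=
    fun P => pabs L K P.1
  have hf : Function.Injective f := fun P Q h => Subtype.ext (pabs_injective h)
  refine ⟨Set.range f, ?_, ?_, ?_⟩
  · rintro v ⟨P, rfl⟩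
    exact ⟨⟨pabs_nonarch P.1, fun c hc => pabs_C P.1 hc, pabs_nontrivial P.1,
      fun x hx => pabs_discrete P.1 hx⟩, pabs_X_lt P.1 P.2⟩
  · intro x hx
    exact FF4_fin _ ((pabs_finite hx).preimage Subtype.val_injective.injOn)
  · intro x hx
    rw [FF4_range _ hf]
    exact prod_pabs_X hx

omit [FiniteDimensional (RatFunc L) K] [CharZero L] [IsAlgClosed L] in
lemma FF4_finite (K' : Type*) [Field K'] [Algebra (RatFunc L) K'] [FiniteDimensional (RatFunc L) K]
    (e : K ≃+* K') (he : ∀ g, algebraMap (RatFunc L) K' g = e (algebraMap (RatFunc L) K (invX L g))) :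
    FiniteDimensional (RatFunc L) K' := by
  have _ : RingHomSurjective (invX L) := ⟨fun g => ⟨invX L g, invX_invX g⟩⟩
  let f : K →ₛₗ[invX L] K' :=
    { toFun := e
      map_add' := fun x y => map_add e x y
      map_smul' := fun c x => by
        rw [Algebra.smul_def, Algebra.smul_def, map_mul, he, invX_invX] }
  exact Module.Finite.of_surjective f e.surjective

/-- the places above infinity, with two types -/
lemma FF4_infty (K' : Type*) [Field K'] [Algebra (RatFunc L) K'] (e : K ≃+* K')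
    (he : ∀ g, algebraMap (RatFunc L) K' g = e (algebraMap (RatFunc L) K (invX L g))) :
    ∃ S : Set (AbsoluteValue K' ℝ),
    (∀ v ∈ S, (IsNonarchimedean v ∧ (∀ c : L, c ≠ 0 → v (e (algebraMap (RatFunc L) K (RatFunc.C c))) = 1) ∧
      (∃ x, x ≠ 0 ∧ v x ≠ 1) ∧ ∀ x, v x < 1 → v x ≤ Real.exp (-1)) ∧
      1 < v (e (algebraMap (RatFunc L) K RatFunc.X))) ∧
    (∀ x : K', x ≠ 0 → {v : S | v.1 x ≠ 1}.Finite) ∧
    ∀ x : K', x ≠ 0 → ∏ᶠ v : S, v.1 x =
      Real.exp ((Algebra.norm (RatFunc L) (e.symm x)).intDegree : ℝ) := by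
  have _ := FF4_finite L K K' e he
  obtain ⟨S, h1, h2, h3⟩ := exists_zero L K'
  refine ⟨S, fun v hv => ?_, h2, fun x hx => ?_⟩
  · obtain ⟨⟨h4, h5, h6, h7⟩, h8⟩ := h1 v hv
    refine ⟨⟨h4, fun c hc => ?_, h6, h7⟩, ?_⟩
    · have h9 := h5 c hc
      rw [he, invX_C] at h9
      exact h9
    · rw [he, invX_X, map_inv₀, map_inv₀, map_inv₀] at h8
      have h9 : e (algebraMap (RatFunc L) K RatFunc.X) ≠ 0 := by
        rw [map_ne_zero_iff _ e.injective]
        exact (_root_.map_ne_zero (algebraMap (RatFunc L) K)).2 RatFunc.X_ne_zero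
      have h10 : 0 < v (e (algebraMap (RatFunc L) K RatFunc.X)) := v.pos h9
      exact (inv_lt_one₀ h10).1 h8
  · rw [h3 x hx]
    let e₁ : RatFunc L ≃+* RatFunc L := RingEquiv.ofRingHom (invX L) (invX L)
      (RingHom.ext fun g => invX_invX g) (RingHom.ext fun g => invX_invX g)
    have he₁ : ∀ g, e₁ g = invX L g := fun g => rfl
    have h4 := Algebra.norm_eq_of_equiv_equiv e₁ e (by
      ext g
      simp only [RingHom.comp_apply, RingHom.coe_coe, he₁]
      rw [he, invX_invX]) (e.symm x)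
    rw [RingEquiv.apply_symm_apply] at h4
    have h5 : Algebra.norm (RatFunc L) x = invX L (Algebra.norm (RatFunc L) (e.symm x)) := by
      rw [h4, ← he₁, RingEquiv.apply_symm_apply]
    have h6 : Algebra.norm (RatFunc L) (e.symm x) ≠ 0 := by
      rw [Algebra.norm_ne_zero_iff]
      exact (map_ne_zero_iff _ e.symm.injective).2 hx
    rw [h5, ord0_invX h6]
    push_cast
    rw [neg_neg]

/-- the places above infinity: apply `exists_zero` to `K` with the algebra structure
`(algebraMap (RatFunc L) K).comp (invX L)` (`Algebra.norm_eq_of_equiv_equiv`, `ord0_invX`) -/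
theorem exists_infty : ∃ S : Set (AbsoluteValue K ℝ),
    (∀ v ∈ S, IsPl L v ∧ 1 < v (algebraMap (RatFunc L) K RatFunc.X)) ∧
    (∀ x : K, x ≠ 0 → {v : S | v.1 x ≠ 1}.Finite) ∧
    ∀ x : K, x ≠ 0 → ∏ᶠ v : S, v.1 x =
      Real.exp ((Algebra.norm (RatFunc L) x).intDegree : ℝ) := by
  exact @FF4_infty L K _ _ _ _ _ _ K _ ((algebraMap (RatFunc L) K).comp (invX L)).toAlgebra
    (RingEquiv.refl K) (fun g => rfl)

end

end Pool.Agent.W_1502ea_h54
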