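import Mathlib
import Pool.Agent.W_1502ea_h54.FF4

/-!
# Function fields in one variable have heights
-/

set_option autoImplicit false

namespace Pool.Agent.W_1502ea_h54

open Height

lemma FF5_fin {K : Type*} [Field K] {S : Set (AbsoluteValue K ℝ)} {x : K}
    (h : {v : S | v.1 x ≠ 1}.Finite) :
    (S ∩ Function.mulSupport fun v : AbsoluteValue K ℝ => v x).Finite := by
  refine (h.image (fun v : S => v.1)).subset ?_
  rintro v ⟨hv, hx⟩
  exact ⟨⟨v, hv⟩, hx, rfl⟩

/-- heights on a finite extension of the field of rational functions: the union of the disjoint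
sets of `exists_fin` and `exists_infty` -/
theorem exists_adm_ratFunc (L K : Type*) [Field L] [CharZero L] [IsAlgClosed L] [Field K]
    [Algebra (RatFunc L) K] [FiniteDimensional (RatFunc L) K] :
    ∃ A : AdmissibleAbsValues K, A.archAbsVal = 0 ∧ A.nonarchAbsVal.Infinite ∧
      ∀ v ∈ A.nonarchAbsVal, IsPl L v := by
  obtain ⟨S, hSinf, hS1, hS2, hS3⟩ := exists_fin L K
  obtain ⟨T, hT1, hT2, hT3⟩ := exists_infty L K
  have hdis : Disjoint S T := by
    rw [Set.disjoint_left]
    intro v hv hv'
    exact absurd (hS1 v hv).2 (not_le.2 (hT1 v hv').2)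
  have hpl : ∀ v ∈ S ∪ T, IsPl L v := by
    intro v hv
    rcases hv with hv | hv
    · exact (hS1 v hv).1
    · exact (hT1 v hv).1
  refine ⟨{ archAbsVal := 0
            nonarchAbsVal := S ∪ T
            isNonarchimedean := fun v hv => (hpl v hv).1
            hasFiniteMulSupport := ?_
            product_formula := ?_ }, rfl, hSinf.mono Set.subset_union_left, hpl⟩
  · intro x hx
    have h1 := (FF5_fin (hS2 x hx)).union (FF5_fin (hT2 x hx))
    rw [← Set.union_inter_distrib_right] at h1
    refine Set.Finite.of_finite_image (h1.subset ?_) (Subtype.val_injective.injOn)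
    rintro _ ⟨v, hv, rfl⟩
    exact ⟨v.2, hv⟩
  · intro x hx
    rw [Multiset.map_zero, Multiset.prod_zero, one_mul]
    have h1 := finprod_set_coe_eq_finprod_mem (f := fun v : AbsoluteValue K ℝ => v x) (S ∪ T)
    have h2 := finprod_set_coe_eq_finprod_mem (f := fun v : AbsoluteValue K ℝ => v x) S
    have h3 := finprod_set_coe_eq_finprod_mem (f := fun v : AbsoluteValue K ℝ => v x) T
    rw [h1, finprod_mem_union' hdis (FF5_fin (hS2 x hx)) (FF5_fin (hT2 x hx)), ← h2, ← h3,
      hS3 x hx, hT3 x hx, ← Real.exp_add, neg_add_cancel, Real.exp_zero]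

/-- heights on a finite extension of `L(t)`, `t` transcendental
(`RatFunc.algEquivOfTranscendental`) -/
theorem exists_adm {L K : Type*} [Field L] [IsAlgClosed L] [CharZero L] [Field K] [Algebra L K]
    (t : K) (ht : Transcendental L t)
    (hfin : FiniteDimensional (IntermediateField.adjoin L ({t} : Set K)) K) :
    ∃ A : AdmissibleAbsValues K, A.archAbsVal = 0 ∧ A.nonarchAbsVal.Infinite ∧
      ∀ v ∈ A.nonarchAbsVal, IsNonarchimedean v ∧
        (∀ c : L, c ≠ 0 → v (algebraMap L K c) = 1) ∧ (∃ x, x ≠ 0 ∧ v x ≠ 1) ∧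
        ∀ x, v x < 1 → v x ≤ Real.exp (-1) := by
  let F := IntermediateField.adjoin L ({t} : Set K)
  let e : RatFunc L ≃ₐ[L] F := RatFunc.algEquivOfTranscendental t ht
  let _ : Algebra (RatFunc L) F := (e : RatFunc L →+* F).toAlgebra
  let _ : Algebra (RatFunc L) K := ((algebraMap F K).comp (e : RatFunc L →+* F)).toAlgebra
  have htow : IsScalarTower (RatFunc L) F K := IsScalarTower.of_algebraMap_eq (fun x => rfl)
  have hfin1 : Module.Finite (RatFunc L) F := by
    refine Module.Finite.of_surjective (Algebra.linearMap (RatFunc L) F) ?_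
    intro y
    obtain ⟨x, hx⟩ := e.surjective y
    exact ⟨x, hx⟩
  have hfin2 : FiniteDimensional (RatFunc L) K := Module.Finite.trans F K
  obtain ⟨A, h1, h2, h3⟩ := exists_adm_ratFunc L K
  refine ⟨A, h1, h2, fun v hv => ?_⟩
  obtain ⟨h4, h5, h6, h7⟩ := h3 v hv
  refine ⟨h4, fun c hc => ?_, h6, h7⟩
  have h8 := h5 c hc
  have h9 : algebraMap (RatFunc L) K (RatFunc.C c) = algebraMap L K c := by
    show algebraMap F K (e (RatFunc.C c)) = algebraMap L K c
    have h10 : (RatFunc.C c : RatFunc L) = algebraMap L (RatFunc L) c := by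
      rw [RatFunc.algebraMap_eq_C]
    rw [h10, e.commutes]
    rfl
  rw [h9] at h8
  exact h8

end Pool.Agent.W_1502ea_h54
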