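import Mathlib
import Pool.Agent.W_1502ea_h54.Grow

/-!
# Nullstellensatz
-/

set_option autoImplicit false

namespace Pool.Agent.W_1502ea_h54

open MvPolynomial

lemma Null_component_mul {L : Type*} [Field L] {p F : MvPolynomial (Fin 3) L} {d : ℕ}
    (hF : F.IsHomogeneous d) (M : ℕ) :
    homogeneousComponent (M + d) (p * F) = homogeneousComponent M p * F := by
  conv_lhs => rw [← sum_homogeneousComponent p]
  rw [Finset.sum_mul, map_sum]
  have h0 : ∀ i ∈ Finset.range (p.totalDegree + 1),
      homogeneousComponent (M + d) (homogeneousComponent i p * F) =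
        if M = i then homogeneousComponent i p * F else 0 := by
    intro i _
    have h1 : (homogeneousComponent i p * F).IsHomogeneous (i + d) :=
      (homogeneousComponent_isHomogeneous i p).mul hF
    rw [homogeneousComponent_of_mem ((mem_homogeneousSubmodule _ _).mpr h1)]
    simp only [add_left_inj]
  rw [Finset.sum_congr rfl h0, Finset.sum_ite_eq]
  split_ifs with h
  · rfl
  · rw [Finset.mem_range, not_lt] at h
    rw [homogeneousComponent_eq_zero M p (by omega), zero_mul]

/-- projective Nullstellensatz over an algebraically closed field: `X_k^N = ∑ p_j F_j`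
(`MvPolynomial.vanishingIdeal_zeroLocus_eq_radical`); take the same `N ≥ d` for all `k` and the
homogeneous component of degree `N` of the relation -/
theorem nullRel_of_no_zero {L : Type*} [Field L] [IsAlgClosed L] {d : ℕ}
    {F : Fin 3 → MvPolynomial (Fin 3) L} (hF : ∀ i, (F i).IsHomogeneous d)
    (h : ∀ v : Fin 3 → L, (∀ i, eval v (F i) = 0) → v = 0) : NullRel F d := by
  have hrad : ∀ k : Fin 3, (X k : MvPolynomial (Fin 3) L) ∈
      (Ideal.span (Set.range F)).radical := by
    intro k
    rw [← vanishingIdeal_zeroLocus_eq_radical (K := L), mem_vanishingIdeal_iff]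
    intro x hx
    rw [mem_zeroLocus_iff] at hx
    have hx0 : x = 0 := by
      refine h x fun i => ?_
      have h1 := hx (F i) (Ideal.subset_span ⟨i, rfl⟩)
      rwa [← coe_aeval_eq_eval]
    rw [aeval_X, hx0]
    rfl
  choose N hN using hrad
  have hM : ∀ k : Fin 3, ∃ c : Fin 3 → MvPolynomial (Fin 3) L,
      ∑ j, c j * F j = X k ^ (∑ i, N i + d) := by
    intro k
    have h1 : N k ≤ ∑ i, N i + d :=
      (Finset.single_le_sum (f := N) (fun _ _ => Nat.zero_le _) (Finset.mem_univ k)).trans
        (Nat.le_add_right _ _)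
    have h2 : (X k : MvPolynomial (Fin 3) L) ^ (∑ i, N i + d) ∈ Ideal.span (Set.range F) :=
      Ideal.pow_mem_of_pow_mem _ (hN k) h1
    exact Ideal.mem_span_range_iff_exists_fun.mp h2
  choose c hc using hM
  refine ⟨∑ i, N i, fun a => homogeneousComponent (∑ i, N i) (c a.1 a.2),
    fun a => homogeneousComponent_isHomogeneous _ _, fun k => ?_⟩
  have h3 := congrArg (homogeneousComponent (∑ i, N i + d)) (hc k)
  rw [map_sum] at h3
  have h4 : homogeneousComponent (∑ i, N i + d) ((X k : MvPolynomial (Fin 3) L) ^ (∑ i, N i + d)) =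
      X k ^ (∑ i, N i + d) := homogeneousComponent_eq_self (isHomogeneous_X_pow k _)
  rw [h4] at h3
  rw [← h3]
  exact Finset.sum_congr rfl fun j _ => (Null_component_mul (hF j) _).symm

end Pool.Agent.W_1502ea_h54
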