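import Mathlib
import Pool.Agent.W_1502ea_h54.PL
import Pool.Agent.W_1502ea_h54.Core

/-!
# Number fields and fields of algebraic numbers
-/

set_option autoImplicit false

namespace Pool.Agent.W_1502ea_h54

open MvPolynomial Height

/-- Northcott for sequences of points of the projective plane (`mulHeight₁_div_le_mulHeight`,
`NumberField.finite_setOfPred_mulHeight₁_le`, pigeonhole) -/
lemma northcott_seq {K : Type*} [Field K] [NumberField K] (z : ℕ → Fin 3 → K)
    (hz : ∀ n, z n ≠ 0) {B : ℝ} (hB : ∀ n, logHeight (z n) ≤ B) :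
    ∃ m n : ℕ, m < n ∧ ∃ c : K, c ≠ 0 ∧ z n = c • z m := by
  classical
  have h1 : ∀ n, ∃ j, z n j ≠ 0 := by
    intro n
    by_contra hcon
    push Not at hcon
    exact hz n (funext hcon)
  choose j hj using h1
  have h2 : ∀ n i, mulHeight₁ (z n i / z n (j n)) ≤ Real.exp B := by
    intro n i
    rw [mulHeight₁_div_eq_mulHeight]
    have h3 : (![z n i, z n (j n)] : Fin 2 → K) = z n ∘ ![i, j n] := by
      funext k
      fin_cases k <;> rfl
    rw [h3]
    refine (mulHeight_comp_le ![i, j n] (z n)).trans ?_
    have h4 := hB n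
    rw [logHeight_eq_log_mulHeight] at h4
    exact (Real.log_le_iff_le_exp (mulHeight_pos (z n))).1 h4
  have hfin : ((Set.univ : Set (Fin 3)) ×ˢ
      (Set.pi Set.univ fun _ : Fin 3 => {x : K | mulHeight₁ x ≤ Real.exp B})).Finite :=
    Set.Finite.prod Set.finite_univ
      (Set.Finite.pi fun _ => NumberField.finite_setOfPred_mulHeight₁_le K (Real.exp B))
  have hmaps : Set.MapsTo (fun n : ℕ => (j n, fun i => z n i / z n (j n))) Set.univ
      ((Set.univ : Set (Fin 3)) ×ˢ
      (Set.pi Set.univ fun _ : Fin 3 => {x : K | mulHeight₁ x ≤ Real.exp B})) := by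
    intro n _
    refine ⟨Set.mem_univ _, ?_⟩
    intro i _
    exact h2 n i
  obtain ⟨a, _, b, _, hab, heq⟩ :=
    Set.infinite_univ.exists_ne_map_eq_of_mapsTo hmaps hfin
  have key : ∀ m n : ℕ, (j m, fun i => z m i / z m (j m)) = (j n, fun i => z n i / z n (j n)) →
      ∃ c : K, c ≠ 0 ∧ z n = c • z m := by
    intro m n hmn
    have e1 : j m = j n := congrArg Prod.fst hmn
    have e2 := congrArg Prod.snd hmn
    refine ⟨z n (j n) / z m (j m), div_ne_zero (hj n) (hj m), ?_⟩
    funext i
    have e3 : z m i / z m (j m) = z n i / z n (j n) := congrFun e2 i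
    show z n i = z n (j n) / z m (j m) * z m i
    have e4 := hj n
    have e5 := hj m
    rw [div_eq_div_iff e5 e4] at e3
    field_simp
    linear_combination -e3
  rcases lt_or_gt_of_ne hab with hlt | hgt
  · exact ⟨a, b, hlt, key a b heq⟩
  · exact ⟨b, a, hgt, key b a heq.symm⟩

/-- number fields (`PL_of_irreducible`; unbounded heights: `core_gap`; bounded heights:
`northcott_seq` and `isAPU_ret_of_prePer`) -/
theorem PL_numberField (K : Type*) [Field K] [NumberField K] : PL K := by
  refine PL_of_irreducible fun d hd F hF hN f e hf he hirr hnp z hz => ?_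
  by_cases hub : ∀ B : ℝ, ∃ n, B < logHeight ((pmap F)^[n] z)
  · exact (core_gap hd hF hN he hf hirr hnp hz hub).isTame
  · push Not at hub
    obtain ⟨B, hB⟩ := hub
    refine (isAPU_ret_of_prePer hF hf (z := z) ?_).isTame
    exact northcott_seq (fun n => (pmap F)^[n] z) (fun n => iter_ne_zero (by omega) hN hz n) hB

/-- fields of algebraic numbers (`PL_of_local`) -/
theorem PL_algebraic (L : Type*) [Field L] [CharZero L] [Algebra.IsAlgebraic ℚ L] : PL L := by
  refine PL_of_local fun s hs => ?_
  have hfd : FiniteDimensional ℚ (IntermediateField.adjoin ℚ s) := by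
    have : Finite s := hs
    exact IntermediateField.finiteDimensional_adjoin fun x _ =>
      (Algebra.IsAlgebraic.isAlgebraic x).isIntegral
  have : NumberField (IntermediateField.adjoin ℚ s) := ⟨⟩
  exact ⟨(IntermediateField.adjoin ℚ s).toSubfield, IntermediateField.subset_adjoin ℚ s,
    PL_numberField (IntermediateField.adjoin ℚ s)⟩

end Pool.Agent.W_1502ea_h54
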