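import Mathlib
import Pool.Agent.W_1502ea_h54.CaseB2
import Pool.Agent.W_1502ea_h54.FF5
import Pool.Agent.W_1502ea_h54.Core

/-!
# The induction step: function fields in one variable
-/

set_option autoImplicit false

namespace Pool.Agent.W_1502ea_h54

open MvPolynomial Height

/-- function fields in one variable over an algebraically closed field (`exists_adm`,
`PL_of_irreducible`, `core_gap` for unbounded heights, `caseB` and `exists_residue` for bounded
heights) -/
theorem PL_functionField {L K : Type*} [Field L] [IsAlgClosed L] [CharZero L] (hL : PL L)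
    [Field K] [Algebra L K] (t : K) (ht : Transcendental L t)
    (hfin : FiniteDimensional (IntermediateField.adjoin L ({t} : Set K)) K) : PL K := by
  obtain ⟨A, harch, hinf, hv⟩ := exists_adm t ht hfin
  let _ : AdmissibleAbsValues K := A
  have : Infinite K := Infinite.of_injective (algebraMap L K) (algebraMap L K).injective
  have halg : ∀ x : K, IsAlgebraic (IntermediateField.adjoin L ({t} : Set K)) x := fun x =>
    Algebra.IsAlgebraic.isAlgebraic x
  refine PL_of_irreducible fun d hd F hF hN f e hf he hirr hnp z hz => ?_
  by_cases hub : ∀ B : ℝ, ∃ n, B < logHeight ((pmap F)^[n] z)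
  · exact (core_gap hd hF hN he hf hirr hnp hz hub).isTame
  · push Not at hub
    obtain ⟨B, hB⟩ := hub
    refine caseB harch hinf (fun v hvm => (hv v hvm).2.2.2) (fun v hvm => ?_) hL hd hF hN hf
      hirr.ne_zero hz hB
    exact exists_residue t halg v _ (hv v hvm).2.1 (hv v hvm).2.2.1

/-- algebraic extensions of `L(t)` (`PL_of_local` with the fields `L(t, s)`, `s` finite) -/
theorem PL_step {L L₁ : Type*} [Field L] [IsAlgClosed L] [CharZero L] (hL : PL L)
    [Field L₁] [Algebra L L₁] (t : L₁) (ht : Transcendental L t)
    (halg : ∀ x : L₁, IsAlgebraic (IntermediateField.adjoin L ({t} : Set L₁)) x) : PL L₁ := by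
  classical
  have htE : t ∈ IntermediateField.adjoin L ({t} : Set L₁) :=
    IntermediateField.mem_adjoin_simple_self L t
  refine PL_of_local fun s hs => ?_
  have : Finite s := hs.to_subtype
  let K₀ : IntermediateField (IntermediateField.adjoin L ({t} : Set L₁)) L₁ :=
    IntermediateField.adjoin _ s
  have hK₀fin : FiniteDimensional (IntermediateField.adjoin L ({t} : Set L₁)) K₀ :=
    IntermediateField.finiteDimensional_adjoin (fun x _ => (halg x).isIntegral)
  refine ⟨K₀.toSubfield, fun x hx => IntermediateField.subset_adjoin _ s hx, ?_⟩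
  let t₀ : K₀ := algebraMap (IntermediateField.adjoin L ({t} : Set L₁)) K₀ ⟨t, htE⟩
  have ht₀ : algebraMap K₀ L₁ t₀ = t := rfl
  have hinj : Function.Injective (algebraMap K₀ L₁) := (algebraMap K₀ L₁).injective
  have htow : IsScalarTower L K₀ L₁ := IsScalarTower.of_algebraMap_eq fun x => rfl
  have htr : Transcendental L t₀ := by
    rw [← transcendental_algebraMap_iff (A := L₁) hinj, ht₀]
    exact ht
  have hle : IntermediateField.adjoin L ({t} : Set L₁) ≤
      (IntermediateField.adjoin L ({t₀} : Set K₀)).map (IsScalarTower.toAlgHom L K₀ L₁) := by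
    rw [IntermediateField.adjoin_simple_le_iff]
    exact ⟨t₀, IntermediateField.mem_adjoin_simple_self L t₀, rfl⟩
  have hmem : ∀ x : IntermediateField.adjoin L ({t} : Set L₁),
      algebraMap (IntermediateField.adjoin L ({t} : Set L₁)) K₀ x ∈
        IntermediateField.adjoin L ({t₀} : Set K₀) := by
    intro x
    obtain ⟨y, hy, hyx⟩ := hle x.2
    have h1 : y = algebraMap (IntermediateField.adjoin L ({t} : Set L₁)) K₀ x := by
      apply hinj
      exact hyx
    rw [← h1]
    exact hy
  let g : IntermediateField.adjoin L ({t} : Set L₁) →+*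
      IntermediateField.adjoin L ({t₀} : Set K₀) :=
    (algebraMap (IntermediateField.adjoin L ({t} : Set L₁)) K₀).codRestrict
      (IntermediateField.adjoin L ({t₀} : Set K₀)) hmem
  have hfin : (algebraMap (IntermediateField.adjoin L ({t₀} : Set K₀)) K₀).Finite := by
    refine RingHom.Finite.of_comp_finite (f := g) ?_
    have h2 : (algebraMap (IntermediateField.adjoin L ({t₀} : Set K₀)) K₀).comp g =
        algebraMap (IntermediateField.adjoin L ({t} : Set L₁)) K₀ := by
      ext x
      rfl
    rw [h2]
    exact RingHom.finite_algebraMap.2 hK₀fin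
  have hfin' : FiniteDimensional (IntermediateField.adjoin L ({t₀} : Set K₀)) K₀ :=
    RingHom.finite_algebraMap.1 hfin
  exact PL_functionField (K := K₀) hL t₀ htr hfin'

end Pool.Agent.W_1502ea_h54
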