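import Mathlib
import Pool.Agent.W_1502ea_h54.Step
import Pool.Agent.W_1502ea_h54.NF

/-!
# Induction on the transcendence degree
-/

set_option autoImplicit false

namespace Pool.Agent.W_1502ea_h54

variable {E : Type*} [Field E] [CharZero E] [IsAlgClosed E]

/-- relative algebraic closure of `ℚ(s)` -/
noncomputable def acl (s : Set E) : IntermediateField ℚ E :=
  (algebraicClosure (IntermediateField.adjoin ℚ s) E).restrictScalars ℚ

lemma mem_acl {s : Set E} {x : E} : x ∈ acl s ↔ IsAlgebraic (IntermediateField.adjoin ℚ s) x := by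
  unfold acl
  rw [IntermediateField.mem_restrictScalars, mem_algebraicClosure_iff]

lemma subset_acl (s : Set E) : s ⊆ acl s := by
  intro x hx
  rw [SetLike.mem_coe, mem_acl]
  exact isAlgebraic_algebraMap
    (⟨x, IntermediateField.subset_adjoin ℚ s hx⟩ : IntermediateField.adjoin ℚ s)

instance acl_isAlgClosed (s : Set E) : IsAlgClosed (acl s) := by
  have h : IsAlgClosed (algebraicClosure (IntermediateField.adjoin ℚ s) E) :=
    IsAlgClosure.isAlgClosed (IntermediateField.adjoin ℚ s)
  exact h

omit [CharZero E] [IsAlgClosed E] in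
lemma Tower_of_range {A B : Type*} [Field A] [Field B] [Algebra A E] [Algebra B E]
    (h : ∀ a : A, ∃ b : B, algebraMap B E b = algebraMap A E a) {x : E} (hx : IsAlgebraic A x) :
    IsAlgebraic B x := by
  choose f hf using h
  have hinj : Function.Injective (algebraMap B E) := (algebraMap B E).injective
  let i : A →+* B :=
    { toFun := f
      map_one' := hinj (by rw [hf, map_one, map_one])
      map_mul' := fun a b => hinj (by rw [hf, map_mul, map_mul, hf, hf])
      map_zero' := hinj (by rw [hf, map_zero, map_zero])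
      map_add' := fun a b => hinj (by rw [hf, map_add, map_add, hf, hf]) }
  obtain ⟨p, hp0, hp⟩ := hx
  refine ⟨p.map i, ?_, ?_⟩
  · rw [Ne, Polynomial.map_eq_zero]
    exact hp0
  · rw [Polynomial.aeval_def, Polynomial.eval₂_map]
    have h1 : (algebraMap B E).comp i = algebraMap A E := RingHom.ext hf
    rw [h1]
    exact hp

lemma Tower_mem_of_algebraic {s : Set E} {x : E} (h : IsAlgebraic (acl s) x) : x ∈ acl s := by
  rw [mem_acl]
  have h1 : IsAlgebraic (algebraicClosure (IntermediateField.adjoin ℚ s) E) x := by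
    refine Tower_of_range (A := acl s) (fun a => ?_) h
    exact ⟨⟨(a : E), mem_algebraicClosure_iff.2 (mem_acl.1 a.2)⟩, rfl⟩
  exact h1.restrictScalars (IntermediateField.adjoin ℚ s)

lemma Tower_le {s s' : Set E} (h : s' ⊆ acl s) : acl s' ≤ acl s := by
  intro x hx
  rw [mem_acl] at hx
  refine Tower_mem_of_algebraic (Tower_of_range (fun a => ?_) hx)
  have h1 : IntermediateField.adjoin ℚ s' ≤ acl s := IntermediateField.adjoin_le_iff.2 h
  exact ⟨⟨(a : E), h1 a.2⟩, rfl⟩

lemma acl_empty_algebraic : Algebra.IsAlgebraic ℚ (acl (∅ : Set E)) := by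
  refine ⟨fun x => ?_⟩
  have hx : IsAlgebraic (IntermediateField.adjoin ℚ (∅ : Set E)) (x : E) := mem_acl.1 x.2
  have h1 : IsAlgebraic ℚ (x : E) := by
    refine Tower_of_range (fun a => ?_) hx
    have ha : (a : E) ∈ (⊥ : IntermediateField ℚ E) :=
      (IntermediateField.adjoin_empty ℚ E).le a.2
    obtain ⟨b, hb⟩ := IntermediateField.mem_bot.1 ha
    exact ⟨b, hb⟩
  exact (isAlgebraic_algebraMap_iff (algebraMap (acl (∅ : Set E)) E).injective).1 h1

lemma acl_mono {s s' : Set E} (h : s ⊆ s') : acl s ≤ acl s' := by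
  exact Tower_le (h.trans (subset_acl s'))

lemma acl_insert_of_mem {s : Set E} {t : E} (h : t ∈ acl s) : acl (insert t s) = acl s := by
  apply le_antisymm
  · refine Tower_le ?_
    rw [Set.insert_subset_iff]
    exact ⟨h, subset_acl s⟩
  · exact acl_mono (Set.subset_insert t s)

/-- elements outside `acl s` are transcendental over `acl s` -/
lemma transcendental_of_not_mem {s : Set E} {t : E} (h : t ∉ acl s) :
    Transcendental (acl s) t := by
  exact fun h1 => h (Tower_mem_of_algebraic h1)

/-- elements of `acl (insert t s)` are algebraic over `(acl s)(t)` -/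
lemma algebraic_insert {s : Set E} {t x : E} (h : x ∈ acl (insert t s)) :
    IsAlgebraic (IntermediateField.adjoin (acl s) ({t} : Set E)) x := by
  rw [mem_acl] at h
  refine Tower_of_range (fun a => ?_) h
  have h1 : IntermediateField.adjoin ℚ (insert t s) ≤
      (IntermediateField.adjoin (acl s) ({t} : Set E)).restrictScalars ℚ := by
    rw [IntermediateField.adjoin_le_iff, Set.insert_subset_iff]
    refine ⟨IntermediateField.subset_adjoin (acl s) ({t} : Set E) (Set.mem_singleton t), ?_⟩
    intro y hy
    exact (IntermediateField.adjoin (acl s) ({t} : Set E)).algebraMap_mem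
      (⟨y, subset_acl s hy⟩ : acl s)
  exact ⟨⟨(a : E), h1 a.2⟩, rfl⟩

omit [CharZero E] [IsAlgClosed E] in
lemma Tower_step {L L₁ : Type*} [Field L] [IsAlgClosed L] [CharZero L] (hL : PL L) [Field L₁]
    [Algebra L L₁] [Algebra L E] [Algebra L₁ E] [IsScalarTower L L₁ E] (t : L₁)
    (ht : Transcendental L (algebraMap L₁ E t))
    (halg : ∀ x : L₁, IsAlgebraic (IntermediateField.adjoin L ({algebraMap L₁ E t} : Set E))
      (algebraMap L₁ E x)) : PL L₁ := by
  have hinj : Function.Injective (algebraMap L₁ E) := (algebraMap L₁ E).injective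
  refine PL_step hL t ?_ fun x => ?_
  · intro h1
    exact ht ((isAlgebraic_algebraMap_iff (R := L) hinj).2 h1)
  · have h1 : IsAlgebraic (IntermediateField.adjoin L ({t} : Set L₁)) (algebraMap L₁ E x) := by
      refine Tower_of_range (fun a => ?_) (halg x)
      have h2 : (IntermediateField.adjoin L ({t} : Set L₁)).map (IsScalarTower.toAlgHom L L₁ E) =
          IntermediateField.adjoin L ({algebraMap L₁ E t} : Set E) := by
        rw [IntermediateField.adjoin_map, Set.image_singleton]
        rfl
      obtain ⟨y, hy, hya⟩ := (IntermediateField.mem_map _).1 (h2.ge a.2)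
      exact ⟨⟨y, hy⟩, hya⟩
    exact (isAlgebraic_algebraMap_iff hinj).1 h1

omit [IsAlgClosed E] in
lemma Tower_step' (K₁ K₂ : IntermediateField ℚ E) [IsAlgClosed K₁] (hle : K₁ ≤ K₂) (hL : PL K₁)
    (t : E) (htm : t ∈ K₂) (ht : Transcendental K₁ t)
    (halg : ∀ x ∈ K₂, IsAlgebraic (IntermediateField.adjoin K₁ ({t} : Set E)) x) : PL K₂ := by
  let _ : Algebra K₁ K₂ := (IntermediateField.inclusion hle).toRingHom.toAlgebra
  have htower : IsScalarTower K₁ K₂ E := IsScalarTower.of_algebraMap_eq fun x => rfl
  exact Tower_step (E := E) hL (⟨t, htm⟩ : K₂) ht fun x => halg x x.2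

/-- step of the induction: `PL_step` for `acl s ⊆ acl (insert t s)` -/
theorem PL_acl_insert {s : Set E} (h : PL (acl s)) (t : E) : PL (acl (insert t s)) := by
  by_cases ht : t ∈ acl s
  · rw [acl_insert_of_mem ht]
    exact h
  · exact Tower_step' (acl s) (acl (insert t s)) (acl_mono (Set.subset_insert t s)) h t
      (subset_acl _ (Set.mem_insert t s)) (transcendental_of_not_mem ht) fun x hx =>
        algebraic_insert hx

theorem PL_acl {s : Set E} (hs : s.Finite) : PL (acl s) := by
  induction s, hs using Set.Finite.induction_on with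
  | empty =>
    have := acl_empty_algebraic (E := E)
    exact PL_algebraic (acl (∅ : Set E))
  | insert _ _ ih => exact PL_acl_insert ih _

variable (E) in
/-- all algebraically closed fields of characteristic zero -/
theorem PL_algClosed : PL E := by
  exact PL_of_local fun s hs => ⟨(acl s).toSubfield, subset_acl s, PL_acl hs⟩

end Pool.Agent.W_1502ea_h54
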