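import Mathlib
import Pool.Agent.W_1502ea_h54.Tower
import Pool.Agent.W_1502ea_h54.Null

/-!
# The main theorem
-/

set_option autoImplicit false

namespace Pool.Agent.W_1502ea_h54

open MvPolynomial

/-- **main theorem** in the notation of the frozen statement (`PL_algClosed`,
`nullRel_of_no_zero`, `gap_count_iUnion`; take one constant `C` for all `i`) -/
theorem main (d : ℕ) (hd : 2 ≤ d) (f : Fin 3 → MvPolynomial (Fin 3) ℂ)
    (hf : ∀ i, (f i).IsHomogeneous d)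
    (h0 : ∀ v : Fin 3 → ℂ, (∀ i, MvPolynomial.eval v (f i) = 0) → v = 0)
    (m : ℕ) (F : MvPolynomial (Fin 3) ℂ) (hF : F.IsHomogeneous m) (hF0 : F ≠ 0)
    (x : Fin 3 → ℂ) (hx : x ≠ 0) :
    ∃ (T : Finset (ℕ × ℕ)) (k C : ℕ) (G : Fin k → Set ℕ),
      {n : ℕ | MvPolynomial.eval
          ((fun v : Fin 3 → ℂ => fun i => MvPolynomial.eval v (f i))^[n] x) F = 0}
        = (⋃ p ∈ T, {n : ℕ | ∃ l : ℕ, n = p.1 + l * p.2}) ∪ ⋃ i, G i ∧
      (∀ i, ∀ n ∈ G i, ∀ n' ∈ G i, n < n' → 2 * n ≤ n' + C) ∧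
      ∀ N : ℕ, ((⋃ i, G i) ∩ Set.Iic N).ncard ≤ C * (1 + Nat.log 2 N) := by
  have hN : NullRel f d := nullRel_of_no_zero hf h0
  obtain ⟨A, k, G, hA, hG, hS⟩ := PL_algClosed ℂ d hd f hf hN F m hF hF0 x hx
  obtain ⟨T, hT⟩ := hA
  obtain ⟨C₁, hC₁⟩ := gap_count_iUnion hG
  choose C₂ hC₂ using hG
  refine ⟨T, k, C₁ + ∑ i, C₂ i, G, ?_, ?_, ?_⟩
  · rw [← hT, ← hS]
    rfl
  · intro i n hn n' hn' hlt
    have h1 := hC₂ i n hn n' hn' hlt
    have h2 : C₂ i ≤ ∑ i, C₂ i :=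
      Finset.single_le_sum (f := C₂) (fun _ _ => Nat.zero_le _) (Finset.mem_univ i)
    omega
  · intro N
    exact (hC₁ N).trans (Nat.mul_le_mul_right _ (Nat.le_add_right _ _))

end Pool.Agent.W_1502ea_h54
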